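import Pool.Agent.H99.W.Block

set_option autoImplicit false
open Finset

/-! # The tangle table of the junction world : definitions

The slit room has its ends in the order `pos` (cut at the foot of the slit): left ends of the gaps,
the ends on the plate `P`, right ends of the gaps, marks on the outer wall. `L : Lk α` : `L.σ` is the
matching of the ends inside the room, `L.θ` the links outside; `L.θ e = e` : far ends and the interior
end `z`. -/

namespace Pool.Agent.H73.W

open Pool.Agent.H99.W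

variable {α : Type*}

/-- the pairs `x ~ θ x` and `y ~ θ y` do not cross -/
def NX (pos : α → ℤ) (θ : α → α) (x y : α) : Prop :=
  ¬ (pos x < pos y ∧ pos y < pos (θ x) ∧ pos (θ x) < pos (θ y))

/-- the phase `e^(i π / 3)` -/
noncomputable def ph : ℂ := Complex.exp (Real.pi / 3 * Complex.I)

lemma ph_eq : ph = 1 / 2 + Real.sqrt 3 / 2 * Complex.I := by
  unfold ph
  rw [Complex.exp_mul_I]
  have h1 : Complex.cos (Real.pi / 3) = 1 / 2 := by
    have h := Real.cos_pi_div_three
    rw [show (Real.pi / 3 : ℂ) = ((Real.pi / 3 : ℝ) : ℂ) by push_cast; rfl, ← Complex.ofReal_cos, h]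
    push_cast; rfl
  have h2 : Complex.sin (Real.pi / 3) = Real.sqrt 3 / 2 := by
    have h := Real.sin_pi_div_three
    rw [show (Real.pi / 3 : ℂ) = ((Real.pi / 3 : ℝ) : ℂ) by push_cast; rfl, ← Complex.ofReal_sin, h]
    push_cast; rfl
  rw [h1, h2]

lemma sqrt3 : (Real.sqrt 3 : ℂ) * Real.sqrt 3 = 3 := by
  rw [← Complex.ofReal_mul, Real.mul_self_sqrt (by norm_num)]; norm_num

lemma ph_sq : ph * ph = ph - 1 := by
  rw [ph_eq]
  have h := sqrt3
  have hI := Complex.I_mul_I
  linear_combination (1 / 4 * Complex.I * Complex.I) * h + (3 / 4) * hI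

lemma ph_ne : ph ≠ 0 := Complex.exp_ne_zero _

lemma ph_inv : ph⁻¹ = 1 - ph := by
  have h := ph_sq
  have h0 := ph_ne
  field_simp
  linear_combination h

lemma ph_add : ph + ph⁻¹ = 1 := by rw [ph_inv]; ring

lemma ph_mul : ph * ph⁻¹ = 1 := mul_inv_cancel₀ ph_ne

lemma ph_norm : ‖ph‖ = 1 := by
  unfold ph
  rw [show (Real.pi / 3 : ℂ) = ((Real.pi / 3 : ℝ) : ℂ) by push_cast; rfl, Complex.norm_exp_ofReal_mul_I]

lemma ph_inv_norm : ‖ph⁻¹‖ = 1 := by rw [norm_inv, ph_norm, inv_one]

/-- right leg of a link which straddles the mark `m` -/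
def Rt (pos : α → ℤ) (θ : α → α) (m y : α) : Prop := pos m < pos y ∧ pos (θ y) < pos m

/-- The outside of the slit room with the mark `m` on `P`: the links do not cross, the ends `m`, `x3`,
`x4` are far ends, the linked ends lie on the left of `x3`. -/
structure Outs (pos : α → ℤ) (m x3 x4 : α) (θ : α → α) : Prop where
  inv : ∀ e, θ (θ e) = e
  nc : ∀ x y, NX pos θ x y
  fm : θ m = m
  f3 : θ x3 = x3
  f4 : θ x4 = x4
  m3 : pos m < pos x3
  o34 : pos x3 < pos x4
  lt3 : ∀ y, θ y ≠ y → pos y < pos x3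

/-- The inside of the room with the interior end `z`. -/
structure Ins (pos : α → ℤ) (z m x3 x4 : α) (σ θ : α → α) : Prop where
  inv : ∀ e, σ (σ e) = e
  inj : ∀ x y, x ≠ z → y ≠ z → pos x = pos y → x = y
  nc : ∀ x y, x ≠ z → x ≠ σ z → y ≠ z → y ≠ σ z → NX pos σ x y
  zθ : θ z = z
  zσ : σ z ≠ z
  zm : z ≠ m
  z3 : z ≠ x3
  z4 : z ≠ x4
  act : ∀ y, σ y ≠ y ↔ (θ y ≠ y ∨ y = z ∨ y = m ∨ y = x3 ∨ y = x4)

open Classical in
/-- number of right legs in the component of `x` = number of links in the strand of `x` -/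
noncomputable def cnt [Fintype α] (L : Lk α) (pos : α → ℤ) (m x : α) : ℕ :=
  (univ.filter fun y => Rt pos L.θ m y ∧ L.G.Reachable x y).card

/-- the value at the mark -/
noncomputable def vm (u3 u4 : ℂ) (n : ℕ) : ℂ :=
  if Even n then ph * u3 + ph⁻¹ * u4 else ph⁻¹ * u3 + ph * u4

open Classical in
/-- **The functional of the junction world** : mark `m` on `P` over, interior end `z` under -/
noncomputable def VU [Fintype α] (L : Lk α) (pos : α → ℤ) (m x3 x4 : α) (u3 u4 : ℂ) (z : α) : ℂ :=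
  if L.far z = x3 then u3 else if L.far z = x4 then u4 else vm u3 u4 (cnt L pos m x3)

open Classical in
/-- the plane functional : the value of the far end -/
noncomputable def VP (L : Lk α) (x3 x4 : α) (vz u3 u4 : ℂ) (z : α) : ℂ :=
  if L.far z = x3 then u3 else if L.far z = x4 then u4 else vz

lemma vm_norm_le (u3 u4 : ℂ) (n : ℕ) : ‖vm u3 u4 n‖ ≤ ‖u3‖ + ‖u4‖ := by
  unfold vm
  split_ifs
  · exact (norm_add_le _ _).trans (by rw [norm_mul, norm_mul, ph_norm, ph_inv_norm]; simp)
  · exact (norm_add_le _ _).trans (by rw [norm_mul, norm_mul, ph_norm, ph_inv_norm]; simp)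

/-- **The functional is bounded.** -/
theorem VU_norm_le [Fintype α] (L : Lk α) (pos : α → ℤ) (m x3 x4 : α) (u3 u4 : ℂ) (z : α) :
    ‖VU L pos m x3 x4 u3 u4 z‖ ≤ ‖u3‖ + ‖u4‖ := by
  unfold VU
  have h3 := norm_nonneg u3
  have h4 := norm_nonneg u4
  split_ifs
  · linarith
  · linarith
  · exact vm_norm_le _ _ _

theorem VU_norm_le_one [Fintype α] (L : Lk α) (pos : α → ℤ) (m x3 x4 z : α) :
    ‖VU L pos m x3 x4 1 0 z‖ ≤ 1 := by
  have := VU_norm_le L pos m x3 x4 1 0 z
  simpa using this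

end Pool.Agent.H73.W
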