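import Pool.Agent.H73.W.Tangle6

set_option autoImplicit false
set_option linter.unusedSectionVars false
open Finset

/-! # The tangle table : expansion into plane outsides

`VU_expand`: the functional of the junction world is a sum of `2 ^ n` plane functionals with
coefficients of modulus one, `n` = number of links around the mark. -/

namespace Pool.Agent.H73.W

open Pool.Agent.H99.W

variable {α : Type*} [DecidableEq α]

/-- the inside stays an inside if the links and the mark change -/
lemma Ins.change {pos : α → ℤ} {z m m' x3 x4 : α} {σ θ θ' : α → α} (h : Ins pos z m x3 x4 σ θ)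
    (hA : ∀ y, (θ y ≠ y ∨ y = m) ↔ (θ' y ≠ y ∨ y = m')) : Ins pos z m' x3 x4 σ θ' := by
  constructor
  · exact h.inv
  · exact h.inj
  · exact h.nc
  · by_contra h1
    rcases (hA z).2 (Or.inl h1) with h2 | h2
    · exact h2 h.zθ
    · exact h.zm h2
  · exact h.zσ
  · intro h1
    rcases (hA z).2 (Or.inr h1) with h2 | h2
    · exact h2 h.zθ
    · exact h.zm h2
  · exact h.z3
  · exact h.z4
  · intro y
    rw [h.act]
    have := hA y
    tauto

section six

variable {pos : α → ℤ} {l r z m x3 x4 : α} {σ θ : α → α}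

/-- the six ends -/
lemma Inm.six (h : Outs pos m x3 x4 θ) (hi : Inm pos m l r θ) (hI : Ins pos z m x3 x4 σ θ) :
    Six pos l m r x3 x4 z ⟨σ, reml θ l r, hI.inv, reml_inv h.inv hi.lr⟩ := by
  have b1 := hi.lm
  have b2 := hi.mr
  have hl : θ l ≠ l := by
    rw [hi.lr]; rintro rfl; exact lt_asymm hi.lm hi.mr
  have hr : θ r ≠ r := by
    rw [hi.rl h]; rintro rfl; exact lt_asymm hi.lm hi.mr
  have f3 := hi.fx h h.f3
  have f4 := hi.fx h h.f4
  have fm := hi.fx h h.fm
  have fz := hi.fx h hI.zθ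
  have hinj : ∀ x y, θ x ≠ x → (θ y ≠ y ∨ y = m) → pos x = pos y → x = y := by
    intro x y hx hy e
    refine hI.inj x y (fun e' => hx (by rw [e']; exact hI.zθ)) ?_ e
    rintro rfl
    rcases hy with hy | hy
    · exact hy hI.zθ
    · exact hI.zm hy
  have hst := fun y => hi.str h hinj (y := y)
  constructor
  · intro x y
    unfold NX
    rintro ⟨k1, k2, k3⟩
    simp only at k1 k2 k3
    have hnx : reml θ l r x ≠ x := fun e => by rw [e] at k2; exact lt_asymm k1 k2
    have hny : reml θ l r y ≠ y := fun e => by rw [e] at k3; exact lt_asymm k2 k3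
    rw [(reml_ne hnx).2.2.2] at k2 k3
    rw [(reml_ne hny).2.2.2] at k3
    exact h.nc x y ⟨k1, k2, k3⟩
  · exact reml_left
  · exact (reml_other fm.1 fm.2).trans h.fm
  · exact reml_right
  · exact (reml_other f3.1 f3.2).trans h.f3
  · exact (reml_other f4.1 f4.2).trans h.f4
  · exact (reml_other fz.1 fz.2).trans hI.zθ
  · exact b1
  · exact b2
  · exact h.lt3 r hr
  · exact h.o34
  · exact fun y hy => h.lt3 y (reml_ne hy).2.2.1
  · exact fun y hy => (hst y hy).1
  · exact fun y hy => (hst y hy).2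
  · exact hI.inj
  · exact hI.nc
  · exact (hI.act l).2 (Or.inl hl)
  · exact (hI.act m).2 (by tauto)
  · exact (hI.act r).2 (Or.inl hr)
  · exact (hI.act x3).2 (by tauto)
  · exact (hI.act x4).2 (by tauto)
  · exact hI.zσ
  · intro e he
    exact (hI.act e).2 (Or.inl (reml_ne he).2.2.1)
  · intro y hy
    simp only at hy ⊢
    rcases (hI.act y).1 hy with h1 | h1
    · by_cases k1 : y = l
      · tauto
      · by_cases k2 : y = r
        · tauto
        · left; rw [reml_other k1 k2]; exact h1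
    · tauto
  · exact fz.1
  · exact hI.zm
  · exact fz.2
  · exact hI.z3
  · exact hI.z4

/-- the alive ends of the outside with the link `l ~ m` and the mark `r` -/
lemma Inm.alR (h : Outs pos m x3 x4 θ) (hi : Inm pos m l r θ) (y : α) :
    (θ y ≠ y ∨ y = m) ↔ (addl (reml θ l r) l m y ≠ y ∨ y = r) := by
  have b1 := hi.lm
  have b2 := hi.mr
  have hl : θ l ≠ l := by
    rw [hi.lr]; rintro rfl; exact lt_asymm hi.lm hi.mr
  have hr : θ r ≠ r := by
    rw [hi.rl h]; rintro rfl; exact lt_asymm hi.lm hi.mr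
  have fm := hi.fx h h.fm
  by_cases y1 : y = l
  · subst y1
    simp [addl_left, hl, fm.1]
  · by_cases y2 : y = m
    · subst y2
      simp [addl_right, fm.1.symm]
    · rw [addl_other _ y1 y2]
      by_cases y3 : y = r
      · subst y3; simp [hr]
      · rw [reml_other y1 y3]; simp [y2, y3]

lemma Inm.alL (h : Outs pos m x3 x4 θ) (hi : Inm pos m l r θ) (y : α) :
    (θ y ≠ y ∨ y = m) ↔ (addl (reml θ l r) m r y ≠ y ∨ y = l) := by
  have b1 := hi.lm
  have b2 := hi.mr
  have hl : θ l ≠ l := by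
    rw [hi.lr]; rintro rfl; exact lt_asymm hi.lm hi.mr
  have hr : θ r ≠ r := by
    rw [hi.rl h]; rintro rfl; exact lt_asymm hi.lm hi.mr
  have fm := hi.fx h h.fm
  by_cases y1 : y = m
  · subst y1
    simp [addl_left, fm.2.symm]
  · by_cases y2 : y = r
    · subst y2
      simp [addl_right, hr, fm.2]
    · rw [addl_other _ y1 y2]
      by_cases y3 : y = l
      · subst y3; simp [hl]
      · rw [reml_other y3 y2]; simp [y1, y3]

variable [Fintype α]

/-- **Resolution of the innermost link around the mark.** -/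
theorem VU_resolve (h : Outs pos m x3 x4 θ) (hi : Inm pos m l r θ) (hI : Ins pos z m x3 x4 σ θ)
    (hR : ∀ e, addl (reml θ l r) l m (addl (reml θ l r) l m e) = e)
    (hL : ∀ e, addl (reml θ l r) m r (addl (reml θ l r) m r e) = e) (u3 u4 : ℂ) :
    VU ⟨σ, θ, hI.inv, h.inv⟩ pos m x3 x4 u3 u4 z =
      ph * VU ⟨σ, addl (reml θ l r) l m, hI.inv, hR⟩ pos r x3 x4 u3 u4 z +
      ph⁻¹ * VU ⟨σ, addl (reml θ l r) m r, hI.inv, hL⟩ pos l x3 x4 u3 u4 z := by
  have h6 := hi.six h hI
  have h1 := h6.three u3 u4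
  have e1 : add (⟨σ, reml θ l r, hI.inv, reml_inv h.inv hi.lr⟩ : Lk α) h6.fl h6.fr =
      ⟨σ, θ, hI.inv, h.inv⟩ := by
    unfold add
    congr 1
    exact addl_reml hi.lr h.inv
  rw [e1] at h1
  exact h1

omit [DecidableEq α] in
open Classical in
lemma cnt_eq_zero {L : Lk α} {x : α} (h : ∀ y, ¬ Rt pos L.θ m y) : cnt L pos m x = 0 := by
  unfold cnt
  rw [card_eq_zero, filter_eq_empty_iff]
  exact fun y _ h' => h y h'.1

/-- no link around the mark: plane functional -/
lemma VU_plane {L : Lk α} (h : ∀ y, ¬ Rt pos L.θ m y) (u3 u4 : ℂ) :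
    VU L pos m x3 x4 u3 u4 z = VP L x3 x4 (ph * u3 + ph⁻¹ * u4) u3 u4 z := by
  unfold VU VP vm
  rw [cnt_eq_zero h, if_pos (by simp : Even 0)]

end six

/-- A family of plane outsides with coefficients of modulus one; the alive ends are the set `A`. -/
structure Fam (pos : α → ℤ) (x3 x4 : α) (A : Set α) (n : ℕ) where
  ι : Type
  fin : Fintype ι
  c : ι → ℂ
  M : ι → α
  Θ : ι → α → α
  card : Fintype.card ι = 2 ^ n
  nc : ∀ i, ‖c i‖ = 1
  out : ∀ i, Outs pos (M i) x3 x4 (Θ i)
  pl : ∀ i y, ¬ Rt pos (Θ i) (M i) y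
  al : ∀ i y, y ∈ A ↔ (Θ i y ≠ y ∨ y = M i)

attribute [instance] Fam.fin

open Classical in
/-- **Expansion into plane outsides.** The family depends only on the outside. -/
theorem VU_expand [Fintype α] {pos : α → ℤ} {x3 x4 : α} {A : Set α} (hA : Set.InjOn pos A)
    (n : ℕ) : ∀ (m : α) (θ : α → α) (h : Outs pos m x3 x4 θ),
      (∀ y, y ∈ A ↔ (θ y ≠ y ∨ y = m)) → (univ.filter fun y => Rt pos θ m y).card = n →
      ∃ F : Fam pos x3 x4 A n, ∀ (σ : α → α) (z : α) (hI : Ins pos z m x3 x4 σ θ) (u3 u4 : ℂ),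
        VU ⟨σ, θ, hI.inv, h.inv⟩ pos m x3 x4 u3 u4 z =
          ∑ i, F.c i * VP ⟨σ, F.Θ i, hI.inv, (F.out i).inv⟩ x3 x4 (ph * u3 + ph⁻¹ * u4) u3 u4 z := by
  induction n with
  | zero =>
    intro m θ h hal hn
    rw [card_eq_zero, filter_eq_empty_iff] at hn
    refine ⟨⟨Unit, inferInstance, fun _ => 1, fun _ => m, fun _ => θ, by simp, by simp,
      fun _ => h, fun _ y => hn (mem_univ y), fun _ => hal⟩, ?_⟩
    intro σ z hI u3 u4
    rw [VU_plane (fun y => hn (mem_univ y))]
    simp
  | succ n ih =>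
    intro m θ h hal hn
    have hex : ∃ y, Rt pos θ m y := by
      have : (univ.filter fun y => Rt pos θ m y).Nonempty := by
        rw [← card_pos, hn]; omega
      obtain ⟨y, hy⟩ := this
      exact ⟨y, (mem_filter.1 hy).2⟩
    obtain ⟨l, r, hi⟩ := exists_inm h hex
    have hinj : ∀ x y, θ x ≠ x → (θ y ≠ y ∨ y = m) → pos x = pos y → x = y := by
      intro x y hx hy e
      exact hA ((hal x).2 (Or.inl hx)) ((hal y).2 hy) e
    have hrr : Rt pos θ m r := ⟨hi.mr, by rw [hi.rl h]; exact hi.lm⟩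
    have hcR : (univ.filter fun y => Rt pos (addl (reml θ l r) l m) r y).card = n := by
      have : (univ.filter fun y => Rt pos (addl (reml θ l r) l m) r y) =
          (univ.filter fun y => Rt pos θ m y).erase r := by
        ext y
        rw [mem_erase, mem_filter, mem_filter, hi.RtR h hinj y]
        tauto
      rw [this, card_erase_of_mem (by simp [hrr]), hn]
      rfl
    have hcL : (univ.filter fun y => Rt pos (addl (reml θ l r) m r) l y).card = n := by
      have : (univ.filter fun y => Rt pos (addl (reml θ l r) m r) l y) =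
          (univ.filter fun y => Rt pos θ m y).erase r := by
        ext y
        rw [mem_erase, mem_filter, mem_filter, hi.RtL h hinj y]
        tauto
      rw [this, card_erase_of_mem (by simp [hrr]), hn]
      rfl
    have oR := hi.outsR h hinj
    have oL := hi.outsL h hinj
    obtain ⟨FR, hFR⟩ := ih r _ oR (fun y => (hal y).trans (hi.alR h y)) hcR
    obtain ⟨FL, hFL⟩ := ih l _ oL (fun y => (hal y).trans (hi.alL h y)) hcL
    refine ⟨⟨FR.ι ⊕ FL.ι, inferInstance, Sum.elim (fun i => ph * FR.c i) (fun i => ph⁻¹ * FL.c i),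
      Sum.elim FR.M FL.M, Sum.elim FR.Θ FL.Θ, ?_, ?_, ?_, ?_, ?_⟩, ?_⟩
    · rw [Fintype.card_sum, FR.card, FL.card]; ring
    · rintro (i | i)
      · simp only [Sum.elim_inl, norm_mul, ph_norm, FR.nc, mul_one]
      · simp only [Sum.elim_inr, norm_mul, ph_inv_norm, FL.nc, mul_one]
    · rintro (i | i)
      · exact FR.out i
      · exact FL.out i
    · rintro (i | i)
      · exact FR.pl i
      · exact FL.pl i
    · rintro (i | i)
      · exact FR.al i
      · exact FL.al i
    · intro σ z hI u3 u4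
      have e1 := hFR σ z (hI.change (hi.alR h)) u3 u4
      have e2 := hFL σ z (hI.change (hi.alL h)) u3 u4
      rw [VU_resolve h hi hI oR.inv oL.inv, e1, e2, Fintype.sum_sum_type, mul_sum, mul_sum]
      simp only [Sum.elim_inl, Sum.elim_inr, mul_assoc]

end Pool.Agent.H73.W
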