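import Pool.Agent.H61.W.JWorld

set_option autoImplicit false
open Finset

/-! # J3: the thin, cut region of the junction box: definitions

`LamT b n M` : tiles of the box and the layer ONE tile thick (with the diagonal tiles, except at the marks
`M`). `LamC` : the same without the deleted tiles of the slit. Boundary sides of `LamC` (names of the
dictionary): `Nn s x`, `Sn s x` = north and south side of the deleted tile `(x, Yr s)`, `x < x1`, the end
`mc s x1`, the corners `f1`, `f2` of the marks. `posJ` : counterclockwise order, cut at the foot of the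
slit: `Nn` (left to right), `mc`, `Sn` (right to left), floor marks (left to right), ceiling marks (right
to left). -/

namespace Pool.Agent.H73.W

open Pool.Agent.H33.Q1 Pool.Agent.H6.W Pool.Agent.H61.W Pool.Agent.H13.W

variable (b : JBox) (n : ℤ)

/-- tiles of the strand graph, thin layer -/
def LamT (M : Finset (Bool × ℕ)) : Set (ℤ × ℤ) :=
  {e | ∃ x y, e = lt (x, y) ∧ (∃ i j : ℤ, |i| ≤ 1 ∧ |j| ≤ 1 ∧ InQ b n (x + i) (y + j)) ∧
    ∀ c ∈ M, (x, y) ≠ dgt b n c}

/-- the same, cut along the deleted row of the slit -/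
def LamC (M : Finset (Bool × ℕ)) (s : Bool) (x1 : ℤ) : Set (ℤ × ℤ) :=
  LamT b n M \ (lt '' slD s x1)

/-- north side of the deleted tile -/
def Nn (s : Bool) (x : ℤ) : ℤ × ℤ := eN (lt (x, Yr s))

/-- south side of the deleted tile -/
def Sn (s : Bool) (x : ℤ) : ℤ × ℤ := eS (lt (x, Yr s))

/-- names of the ends of the cut region -/
inductive Nm
  | z
  | m
  | nn (x : ℤ)
  | ss (x : ℤ)
  | f (c : Bool × ℕ) (i : Bool)
deriving DecidableEq

/-- the corner of a name; `zz` = corner of the moving end -/
def cr (zz : ℤ × ℤ) (s : Bool) (x1 : ℤ) : Nm → ℤ × ℤ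
  | .z => zz
  | .m => mc s x1
  | .nn x => Nn s x
  | .ss x => Sn s x
  | .f c i => if i then f1 b n c else f2 b n c

/-- order of the names -/
def posJ (x1 : ℤ) : Nm → ℤ
  | .z => 0
  | .m => x1
  | .nn x => x
  | .ss x => 2 * x1 - x
  | .f c i => 2 * x1 + b.X * n + 2 + 2 * ky b c + (if c.1 = i then 0 else 1)

end Pool.Agent.H73.W
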