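import Pool.Agent.H73.W.JAbs
import Pool.Agent.H73.W.JCut
import Pool.Agent.H16.W.JMir
import Pool.Agent.H45.W.Ends
import Pool.Agent.H47.W.Room4

set_option autoImplicit false
open Finset

/-! # J3: the alive corners of the marks; geometry near the marks and near the slit

`alv`, `fa` : the alive corner of a mark. `JOk` : admissible data. Tiles of `LamT` near the slit, near the
marks and near the moving end; ends and neighbours of the strand graph in tile coordinates. -/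

namespace Pool.Agent.H73.W

open Pool.Agent.H33.Q1 Pool.Agent.H6.W Pool.Agent.H50.W Pool.Agent.H61.W Pool.Agent.H13.W Pool.Agent.H58.W
open Pool.Agent.H99.W (IsEnd)
open Pool.Agent.H47.W (hz vt vt_inj hz_inj hz_ne_vt vt_odd eW_vt eE_vt eS_vt eN_vt tiles_vt tiles_hz)
open Pool.Agent.H16.W (InQ_col InQ_mid dgt_row mem_RC)

/-! ### Alive corners -/

section defs

variable (b : JBox) (n : ℤ) (cl : Cl)

/-- `f1` is the alive corner of the mark `q` -/
def alv (q : Bool × ℕ) : Bool :=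
  (if q.1 then cl.u (q.2 + 1) else cl.l (q.2 + 1)) == decide (((cpt b n q).1 - (cpt b n q).2) % 2 = 1)

/-- the alive corner of the mark `q` -/
def fa (q : Bool × ℕ) : ℤ × ℤ := if alv b n cl q then f1 b n q else f2 b n q

/-- the string of an optional moving end -/
def strO : Option (ℤ × ℤ) → Set (ℤ × ℤ)
  | none => ∅
  | some v => strD v

/-- admissible data -/
structure JOk (s : Bool) (x1 : ℤ) (M : Finset (Bool × ℕ)) (v : Option (ℤ × ℤ)) : Prop where
  n2 : 2 ≤ n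
  H0 : 0 < b.H
  X0 : 0 < b.X
  st_lo : ∀ i < b.K, -(b.X : ℤ) < b.st i
  st_hi : ∀ i < b.K, b.st i < b.X
  mono : ∀ i j, i < j → j < b.K → b.st i < b.st j
  lo : -(b.X * n) < x1
  hi : x1 < b.X * n
  idx : ∀ c ∈ M, c.2 < b.K
  vQ : ∀ u ∈ v, InQ b n u.1 u.2
  vx : ∀ u ∈ v, u.2 = Yr s → x1 < u.1

end defs

lemma mono_of_Ok {b : JBox} {δ σ : ℝ} (hb : b.Ok δ σ) : ∀ i j, i < j → j < b.K → b.st i < b.st j := by
  intro i j hij
  induction j with
  | zero => omega
  | succ j ih =>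
    intro hj
    rcases Nat.lt_succ_iff_lt_or_eq.1 hij with h | h
    · exact (ih h (by omega)).trans (hb.st_mono j hj)
    · exact h ▸ hb.st_mono j hj

/-! ### The strand graph in tile coordinates -/

section tiles

variable {Λ D : Set (ℤ × ℤ)} {w : Finset (ℤ × ℤ)}

/-- a vertical side is an end -/
lemma isEnd_vt {x y : ℤ} (h : (vt x y ∉ Λ ∨ vt x y ∈ D) ∨ (vt (x - 1) y ∉ Λ ∨ vt (x - 1) y ∈ D)) :
    IsEnd (SG Λ D w) (vt x y) := by
  have key : ∀ e, e ∈ Λ → ∀ a, TJ D w e (vt x y) a → (e = vt x y ∧ vt x y ∉ D) ∨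
      (e = vt (x - 1) y ∧ vt (x - 1) y ∉ D) := by
    intro e he a ha
    have hl := ha.label
    have h1 : e = vt x y ∨ e = vt (x - 1) y := by
      rcases tiles_vt x y with ⟨k1, k2⟩ | ⟨k1, k2⟩ <;> rw [k1, k2] at hl <;> tauto
    rcases h1 with rfl | rfl
    · refine Or.inl ⟨rfl, fun hD => ?_⟩
      rw [← eW_vt x y] at ha
      exact not_TJ_eW hD ha
    · refine Or.inr ⟨rfl, fun hD => ?_⟩
      have e1 : eE (vt (x - 1) y) = vt x y := by rw [eE_vt, sub_add_cancel]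
      rw [← e1] at ha
      exact not_TJ_eE hD ha
  rintro a a' ⟨e, he, h1⟩ ⟨e', he', h1'⟩
  have : e = e' := by
    rcases key e he a h1 with ⟨k1, k2⟩ | ⟨k1, k2⟩ <;> rcases key e' he' a' h1' with ⟨k3, k4⟩ | ⟨k3, k4⟩
    · rw [k1, k3]
    · exfalso
      subst k1 k3
      rcases h with (h | h) | (h | h)
      · exact h he
      · exact k2 h
      · exact h he'
      · exact k4 h
    · exfalso
      subst k1 k3
      rcases h with (h | h) | (h | h)
      · exact h he'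
      · exact k4 h
      · exact h he
      · exact k2 h
    · rw [k1, k3]
  subst this
  exact h1.unique h1'

/-- a horizontal side is an end -/
lemma isEnd_hz {x y : ℤ} (h : vt x y ∉ Λ ∨ vt x (y - 1) ∉ Λ) : IsEnd (SG Λ D w) (hz x y) := by
  refine isEnd_of_notMem ?_
  rcases tiles_hz x y with ⟨k1, k2⟩ | ⟨k1, k2⟩ <;> rw [k1, k2] <;> tauto

/-- a vertical side has a neighbour -/
lemma nb_vt {x y : ℤ} (h : (vt x y ∈ Λ ∧ vt x y ∉ D) ∨ (vt (x - 1) y ∈ Λ ∧ vt (x - 1) y ∉ D)) :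
    ∃ d, (SG Λ D w).Adj (vt x y) d := by
  rcases h with ⟨h1, h2⟩ | ⟨h1, h2⟩
  · obtain ⟨d, hd⟩ := Pool.Agent.H45.W.exists_nb (w := w) (vt_odd x y)
      (Pool.Agent.H45.W.sq_eW (vt x y)) (Or.inl h2)
    exact ⟨d, _, h1, hd⟩
  · obtain ⟨d, hd⟩ := Pool.Agent.H45.W.exists_nb (w := w) (vt_odd (x - 1) y)
      (Pool.Agent.H45.W.sq_eE (vt (x - 1) y)) (Or.inl h2)
    rw [eE_vt, sub_add_cancel] at hd
    exact ⟨d, _, h1, hd⟩

/-- a horizontal side has a neighbour -/
lemma nb_hz {x y : ℤ} (h : vt x y ∈ Λ ∨ vt x (y - 1) ∈ Λ) : ∃ d, (SG Λ D w).Adj (hz x y) d := by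
  rcases h with h1 | h1
  · obtain ⟨d, hd⟩ := Pool.Agent.H45.W.exists_nb (D := D) (w := w) (vt_odd x y)
      (Pool.Agent.H45.W.sq_eS (vt x y)) (Or.inr (Or.inl rfl))
    rw [eS_vt] at hd
    exact ⟨d, _, h1, hd⟩
  · obtain ⟨d, hd⟩ := Pool.Agent.H45.W.exists_nb (D := D) (w := w) (vt_odd x (y - 1))
      (Pool.Agent.H45.W.sq_eN (vt x (y - 1))) (Or.inr (Or.inr rfl))
    rw [eN_vt, sub_add_cancel] at hd
    exact ⟨d, _, h1, hd⟩

/-- the deleted tile joins its south and north side -/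
lemma TJ_del_vt {x y : ℤ} {c d : ℤ × ℤ} (h : vt x y ∈ D) : TJ D w (vt x y) c d ↔
    (c = hz x y ∧ d = hz x (y + 1)) ∨ (c = hz x (y + 1) ∧ d = hz x y) := by
  unfold TJ
  rw [eS_vt, eN_vt]
  have := vt_odd x y
  constructor
  · rintro (⟨-, -, h1 | h1⟩ | ⟨h1, -⟩)
    · exact Or.inl h1
    · exact Or.inr ⟨h1.2, h1.1⟩
    · exact absurd h h1
  · rintro (h1 | h1)
    · exact Or.inl ⟨h, this, Or.inl h1⟩
    · exact Or.inl ⟨h, this, Or.inr ⟨h1.2, h1.1⟩⟩

lemma vt_mem_lt {S : Set (ℤ × ℤ)} {x y : ℤ} : vt x y ∈ lt '' S ↔ (x, y) ∈ S := by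
  constructor
  · rintro ⟨p, hp, h⟩
    have : p = (x, y) := lt_inj h
    exact this ▸ hp
  · intro h
    exact ⟨_, h, rfl⟩

end tiles

/-! ### Tiles of the box -/

section geo

variable {b : JBox} {n : ℤ} {s : Bool} {x1 : ℤ} {M : Finset (Bool × ℕ)} {v : Option (ℤ × ℤ)}

/-- a tile of the box in the row of a step -/
lemma InQ_step (h : JOk b n s x1 M v) {x y : ℤ} {i : ℕ}
    (hy : ((b.H + i : ℤ) * n ≤ y ∧ y < (b.H + i + 1) * n) ∨
      (-((b.H + i + 1) * n) ≤ y ∧ y < -((b.H + i : ℤ) * n))) :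
    InQ b n x y ↔ i < b.K ∧ b.st i * n ≤ x ∧ x < b.X * n := by
  have hn : 0 < n := by have := h.n2; omega
  have hH : (0 : ℤ) < b.H := by exact_mod_cast h.H0
  have ec : y / n = b.H + i ∨ y / n = -(b.H + i + 1) := by
    rcases hy with ⟨h1, h2⟩ | ⟨h1, h2⟩
    · left
      refine le_antisymm ?_ ?_
      · have : y / n < b.H + i + 1 := Int.ediv_lt_of_lt_mul hn (by linarith)
        omega
      · exact Int.le_ediv_of_mul_le hn (by linarith)
    · right
      refine le_antisymm ?_ ?_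
      · have : y / n < -(b.H + i : ℤ) := Int.ediv_lt_of_lt_mul hn (by linarith)
        omega
      · exact Int.le_ediv_of_mul_le hn (by linarith)
  have ex : ∀ k : ℤ, k ≤ x / n ↔ k * n ≤ x := fun k => Int.le_ediv_iff_mul_le hn
  have ex' : ∀ k : ℤ, x / n < k ↔ x < k * n := fun k => Int.ediv_lt_iff_lt_mul hn
  unfold InQ JBox.Q
  rw [mem_union, mem_biUnion]
  constructor
  · rintro (h1 | ⟨j, hj, h1⟩)
    · rw [mem_RC] at h1
      simp only at h1
      omega
    · rw [mem_range] at hj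
      rw [mem_union, mem_RC, mem_RC] at h1
      simp only at h1
      have : j = i := by omega
      subst this
      rw [← ex, ← ex']
      refine ⟨hj, ?_⟩
      omega
  · rintro ⟨h1, h2, h3⟩
    right
    refine ⟨i, mem_range.2 h1, ?_⟩
    rw [mem_union, mem_RC, mem_RC]
    simp only
    rw [← ex] at h2
    rw [← ex'] at h3
    omega

/-- the rows of the base box -/
lemma InQ_base (h : JOk b n s x1 M v) {x y : ℤ} (h1 : -(b.H * n) ≤ y) (h2 : y < b.H * n) :
    InQ b n x y ↔ -(b.X * n) ≤ x ∧ x < b.X * n := by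
  have hn : 0 < n := by have := h.n2; omega
  have e1 : -(b.H : ℤ) ≤ y / n := Int.le_ediv_of_mul_le hn (by linarith)
  have e2 : y / n < b.H := Int.ediv_lt_of_lt_mul hn h2
  have ex : -(b.X : ℤ) ≤ x / n ↔ -(b.X * n) ≤ x := by
    rw [Int.le_ediv_iff_mul_le hn, neg_mul]
  have ex' : x / n < b.X ↔ x < b.X * n := Int.ediv_lt_iff_lt_mul hn
  unfold InQ JBox.Q
  rw [mem_union, mem_biUnion]
  constructor
  · rintro (h3 | ⟨j, hj, h3⟩)
    · rw [mem_RC] at h3
      simp only at h3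
      rw [← ex, ← ex']
      exact h3.1
    · rw [mem_union, mem_RC, mem_RC] at h3
      simp only at h3
      omega
  · rintro ⟨h3, h4⟩
    left
    rw [mem_RC]
    simp only
    rw [← ex] at h3
    rw [← ex'] at h4
    omega

/-- tiles of the thin region -/
lemma mem_LamT {x y : ℤ} : vt x y ∈ LamT b n M ↔
    (∃ i j : ℤ, |i| ≤ 1 ∧ |j| ≤ 1 ∧ InQ b n (x + i) (y + j)) ∧ ∀ c ∈ M, (x, y) ≠ dgt b n c := by
  constructor
  · rintro ⟨x', y', he, h⟩
    obtain ⟨rfl, rfl⟩ := vt_inj he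
    exact h
  · intro h
    exact ⟨x, y, rfl, h⟩

lemma LamT_le : LamT b n M ⊆ Lam b n M := by
  rintro e ⟨x, y, rfl, ⟨i, j, hi, hj, hQ⟩, hM⟩
  by_cases hq : InQ b n x y
  · exact ⟨x, y, rfl, Or.inl hq⟩
  · exact ⟨x, y, rfl, Or.inr ⟨⟨hq, i, j, by omega, by omega, hQ⟩, hM⟩⟩

lemma mem_Lam_vt {x y : ℤ} : vt x y ∈ Lam b n M ↔
    (InQ b n x y ∨ (Ly b n x y ∧ ∀ c ∈ M, (x, y) ≠ dgt b n c)) := by
  constructor
  · rintro ⟨x', y', he, h⟩
    obtain ⟨rfl, rfl⟩ := vt_inj he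
    exact h
  · intro h
    exact ⟨x, y, rfl, h⟩

/-- middle rows of the thin region -/
lemma mem_LamT_mid (h : JOk b n s x1 M v) {x y : ℤ} (h3 : -n ≤ y) (h4 : y < n) :
    vt x y ∈ LamT b n M ↔ -(b.X * n) - 1 ≤ x ∧ x ≤ b.X * n := by
  have hn : 0 < n := by have := h.n2; omega
  have hHn : n ≤ (b.H : ℤ) * n := by
    have : (1 : ℤ) ≤ b.H := by exact_mod_cast h.H0
    nlinarith
  have hXn : 0 < (b.X : ℤ) * n := by
    have : (0 : ℤ) < b.X := by exact_mod_cast h.X0
    positivity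
  rw [mem_LamT]
  constructor
  · rintro ⟨⟨i, j, hi, hj, hQ⟩, -⟩
    rw [abs_le] at hi hj
    have := InQ_col (fun i hi => (h.st_lo i hi).le) hn hQ
    omega
  · intro hx
    refine ⟨?_, ?_⟩
    · by_cases k1 : x < -(b.X * n)
      · refine ⟨1, 0, by norm_num, by norm_num, ?_⟩
        rw [add_zero, InQ_base h (by omega) (by omega)]
        omega
      · by_cases k2 : x = b.X * n
        · refine ⟨-1, 0, by norm_num, by norm_num, ?_⟩
          rw [add_zero, InQ_base h (by omega) (by omega)]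
          omega
        · refine ⟨0, 0, by norm_num, by norm_num, ?_⟩
          rw [add_zero, add_zero, InQ_base h (by omega) (by omega)]
          omega
    · intro c _ hc
      have := dgt_row (b := b) hn h.H0 c
      rw [← hc] at this
      simp only at this
      omega

end geo

end Pool.Agent.H73.W
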