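import Pool.Agent.H73.W.JVal
import Pool.Agent.H45.W.EndsJ8

set_option autoImplicit false
open Finset

/-! # J3: instances of `Cut` for the worlds `GY` and `GP`

`fa_al` : the alive corner is 45's `al`. `cutY` : the worlds with the moving end, `cutP` : the worlds with
a third mark; `w0` = any open labels of the box. -/

namespace Pool.Agent.H73.W

open SimpleGraph
open Pool.Agent.H33.Q1 Pool.Agent.H6.W Pool.Agent.H50.W Pool.Agent.H61.W Pool.Agent.H13.W Pool.Agent.H58.W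
open Pool.Agent.H99.W (IsEnd)
open Pool.Agent.H47.W (hz vt vt_inj hz_inj hz_ne_vt vt_odd eW_vt eE_vt eS_vt eN_vt tiles_vt tiles_hz
  sg_partner exists_vt)
open Pool.Agent.H45.W (BG JW al isF1 cc DD DD_P DD_Y JW_YT JW_PT al_or ltB par2 par3)

section inst

variable {b : JBox} {n : ℤ} {s : Bool} {x1 : ℤ} {M : Finset (Bool × ℕ)} {v : Option (ℤ × ℤ)}
  {cl : Cl} {q3 q4 : Bool × ℕ} {zz : ℤ × ℤ} {w : Finset (ℤ × ℤ)}

lemma cq_cc (cl : Cl) (q : Bool × ℕ) (j : ℕ) : cq cl q.1 j = cc cl q j := by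
  unfold cq cc
  cases q.1 <;> rfl

lemma fa_al (q : Bool × ℕ) : fa b n cl q = al b n cl q := by
  unfold fa al
  have h : alv b n cl q = true ↔ isF1 b n cl q := by
    rw [alv_iff, cq_cc]
    exact Iff.rfl
  by_cases h1 : alv b n cl q = true
  · rw [if_pos h1, if_pos (h.1 h1)]
  · rw [if_neg h1, if_neg (fun h2 => h1 (h.2 h2))]

lemma DD_Dl : DD v (some (x1, Yr s)) = Dl s x1 v := by
  cases v with
  | none =>
    rw [DD_P]
    unfold Dl strO
    rw [Set.empty_union]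
  | some u => rw [DD_Y]; rfl

/-- admissible data -/
lemma JOk.of (hb : BG b) (h2 : 2 ≤ n) (h1 : -(b.X * n) < x1) (h1' : x1 < b.X * n)
    (hM : ∀ c ∈ M, c.2 < b.K) (hv : ∀ u ∈ v, InQ b n u.1 u.2) (hv' : ∀ u ∈ v, u.2 = Yr s → x1 < u.1) :
    JOk b n s x1 M v where
  n2 := h2
  H0 := hb.H0
  X0 := hb.X0
  st_lo i hi := (hb.lo i hi).1
  st_hi i hi := (hb.lo i hi).2
  mono := by
    intro i j hij
    induction j with
    | zero => omega
    | succ j ih =>
      intro hj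
      rcases Nat.lt_succ_iff_lt_or_eq.1 hij with h | h
      · exact (ih h (by omega)).trans (hb.mono j hj)
      · exact h ▸ hb.mono j hj
  lo := h1
  hi := h1'
  idx := hM
  vQ := hv
  vx := hv'

/-- **Every alive end is joined to another alive end in the thin graph.** -/
theorem hpt_of {base : Bool} {W : Finset (ℤ × ℤ)}
    (J : JW b n M v (some (x1, Yr s)) base (LamT b n M) W) (h3 : q3 ∈ M) (h4 : q4 ∈ M)
    (hcl : cl = colM base M (v.map Prod.snd))
    (hs : StartOK b n cl M v q3 q4 zz) (hc1 : ∀ u ∈ v, zz = zc u)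
    (hc2 : ∀ q ∈ M, q = q3 ∨ q = q4 ∨ zz = fa b n cl q) (a : Fin 4) :
    ∃ b' : Fin 4, b' ≠ a ∧ (Tk b n s x1 M v W).Reachable
      (FJ b n cl s x1 q3 q4 zz a) (FJ b n cl s x1 q3 q4 zz b') := by
  have hT : Tk b n s x1 M v W = SG (LamT b n M) (lt '' (DD v (some (x1, Yr s)))) W := by
    rw [DD_Dl]
  subst hcl
  -- the alive ends
  have key : ∀ c, (∃ u ∈ v, c = zc u) ∨ c = mc s x1 ∨ (∃ q ∈ M, c = al b n (colM base M (v.map Prod.snd)) q) →
      (∃ b' : Fin 4, FJ b n (colM base M (v.map Prod.snd)) s x1 q3 q4 zz b' = c) := by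
    rintro c (⟨u, hu, rfl⟩ | rfl | ⟨q, hq, rfl⟩)
    · exact ⟨0, hc1 u hu⟩
    · exact ⟨1, rfl⟩
    · rcases hc2 q hq with rfl | rfl | h
      · exact ⟨2, fa_al _⟩
      · exact ⟨3, fa_al _⟩
      · exact ⟨0, h.trans (fa_al _)⟩
  -- one step
  have stepc : ∀ c, Pool.Agent.H45.W.AS (Pool.Agent.H45.W.QS b n) (LamT b n M)
        (lt '' (DD v (some (x1, Yr s)))) W (Pool.Agent.H45.W.FF b n M v (some (x1, Yr s))) c →
      IsEnd (SG (LamT b n M) (lt '' (DD v (some (x1, Yr s)))) W) c →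
      (∃ x, (SG (LamT b n M) (lt '' (DD v (some (x1, Yr s)))) W).Adj c x) →
      ∃ b' : Fin 4, FJ b n (colM base M (v.map Prod.snd)) s x1 q3 q4 zz b' ≠ c ∧
        (Tk b n s x1 M v W).Reachable c (FJ b n (colM base M (v.map Prod.snd)) s x1 q3 q4 zz b') := by
    intro c h1 h2 h5
    rw [hT]
    rcases J.far h1 h2 h5 with ⟨q, hq, k1, k2⟩ | ⟨u, hu, k1, k2⟩ | ⟨t, ht, k1, k2⟩
    · obtain ⟨b', e⟩ := key _ (Or.inr (Or.inr ⟨q, hq, rfl⟩))
      exact ⟨b', by rw [e]; exact k1, by rw [e]; exact k2⟩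
    · obtain ⟨b', e⟩ := key _ (Or.inl ⟨u, hu, rfl⟩)
      exact ⟨b', by rw [e]; exact k1, by rw [e]; exact k2⟩
    · rw [Option.mem_def, Option.some.injEq] at ht
      subst ht
      obtain ⟨b', e⟩ := key (mc s x1) (Or.inr (Or.inl rfl))
      exact ⟨b', by rw [e]; exact k1, by rw [e]; exact k2⟩
  have fin : ∀ a, ∀ c, c = FJ b n (colM base M (v.map Prod.snd)) s x1 q3 q4 zz a →
      Pool.Agent.H45.W.AS (Pool.Agent.H45.W.QS b n) (LamT b n M)
        (lt '' (DD v (some (x1, Yr s)))) W (Pool.Agent.H45.W.FF b n M v (some (x1, Yr s))) c →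
      IsEnd (SG (LamT b n M) (lt '' (DD v (some (x1, Yr s)))) W) c →
      (∃ x, (SG (LamT b n M) (lt '' (DD v (some (x1, Yr s)))) W).Adj c x) →
      ∃ b' : Fin 4, b' ≠ a ∧ (Tk b n s x1 M v W).Reachable
        (FJ b n (colM base M (v.map Prod.snd)) s x1 q3 q4 zz a)
        (FJ b n (colM base M (v.map Prod.snd)) s x1 q3 q4 zz b') := by
    rintro a c rfl h1 h2 h5
    obtain ⟨b', k1, k2⟩ := stepc _ h1 h2 h5
    exact ⟨b', fun e => k1 (by rw [e]), k2⟩
  have hal : ∀ q ∈ M, ∀ a, al b n (colM base M (v.map Prod.snd)) q =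
      FJ b n (colM base M (v.map Prod.snd)) s x1 q3 q4 zz a →
      ∃ b' : Fin 4, b' ≠ a ∧ (Tk b n s x1 M v W).Reachable
        (FJ b n (colM base M (v.map Prod.snd)) s x1 q3 q4 zz a)
        (FJ b n (colM base M (v.map Prod.snd)) s x1 q3 q4 zz b') := fun q hq a e =>
    fin a _ e (J.al_AS hq) (J.al_isEnd hq) (J.al_adj hq)
  fin_cases a
  · rcases hs with ⟨u, hu, e⟩ | ⟨q, hq, -, -, e⟩
    · exact fin 0 (zc u) e.symm (J.zc_AS hu) (Pool.Agent.H45.W.zc_isEnd hu) (J.zc_adj hu)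
    · exact hal q hq 0 (by rw [← fa_al]; exact e.symm)
  · exact fin 1 (mc s x1) rfl (J.mc_AS rfl) (Pool.Agent.H45.W.mc_isEnd rfl) (J.mc_adj rfl)
  · exact hal q3 h3 2 (fa_al _).symm
  · exact hal q4 h4 3 (fa_al _).symm

end inst

/-! ### The two kinds of worlds -/

section worlds

variable {b : JBox} {h : ℕ} {s base : Bool} {x1 : ℤ} {q2 q3 q4 : Bool × ℕ} {v : ℤ × ℤ}
  {w0 : Finset (ℤ × ℤ)}

/-- labels of the box -/
lemma notMem_of_sub (hh : 0 < h) (h0 : w0 ⊆ b.B h) : ∀ x y, ¬ InQ b (2 * h) x y → vt x y ∉ w0 :=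
  fun _ _ hq hm => hq ((ltB hh).1 (h0 hm))

/-- **`GY` worlds.** -/
theorem cutY (hb : BG b) (hh : 0 < h) (k3 : q3.2 < b.K) (k4 : q4.2 < b.K) (h34 : q3 ≠ q4)
    (hv : InQ b (2 * h) v.1 v.2) (hx : -((b.X : ℤ) * (2 * h)) < x1) (hx' : x1 < b.X * (2 * h))
    (hv' : v.2 = Yr s → x1 < v.1) (h0 : w0 ⊆ b.B h) :
    Cut (GG b (2 * h) {q3, q4} (colM base {q3, q4} (some v.2)) (strD v ∪ slD s x1) w0)
      (Tk b (2 * h) s x1 {q3, q4} (some v) (w0 ∪ Wl b (2 * h) (colM base {q3, q4} (some v.2))))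
      (Hk b (2 * h) s x1 {q3, q4} (some v) (w0 ∪ Wl b (2 * h) (colM base {q3, q4} (some v.2))))
      (FJ b (2 * h) (colM base {q3, q4} (some v.2)) s x1 q3 q4 (zc v)) (SJ b (2 * h) s x1)
      (NJ b (2 * h) s x1) := by
  have hM : ∀ c ∈ ({q3, q4} : Finset (Bool × ℕ)), c.2 < b.K := by
    intro c hc
    rw [mem_insert, mem_singleton] at hc
    rcases hc with rfl | rfl
    · exact k3
    · exact k4
  have m3 : q3 ∈ ({q3, q4} : Finset (Bool × ℕ)) := by simp
  have m4 : q4 ∈ ({q3, q4} : Finset (Bool × ℕ)) := by simp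
  have J : JOk b (2 * h) s x1 {q3, q4} (some v) := JOk.of hb (by omega) hx hx' hM
    (fun u hu => by rw [Option.mem_def, Option.some.injEq] at hu; rw [← hu]; exact hv)
    (fun u hu => by rw [Option.mem_def, Option.some.injEq] at hu; rw [← hu]; exact hv')
  have hs : StartOK b (2 * h) (colM base {q3, q4} (some v.2)) {q3, q4} (some v) q3 q4 (zc v) :=
    Or.inl ⟨v, rfl, rfl⟩
  have JT := JW_YT (base := base) (s := s) hb hh hM (par2 h34) hv hx hx' hv' h0
  refine cut_J J m3 m4 h34 hs (hpt_of JT m3 m4 rfl hs ?_ ?_)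
  · intro u hu
    rw [Option.mem_def, Option.some.injEq] at hu
    rw [hu]
  · intro q hq
    rw [mem_insert, mem_singleton] at hq
    tauto

/-- **`GP` worlds.** -/
theorem cutP (hb : BG b) (hh : 0 < h) (k2 : q2.2 < b.K) (k3 : q3.2 < b.K) (k4 : q4.2 < b.K)
    (h23 : q2 ≠ q3) (h24 : q2 ≠ q4) (h34 : q3 ≠ q4) (hx : -((b.X : ℤ) * (2 * h)) < x1)
    (hx' : x1 < b.X * (2 * h)) (h0 : w0 ⊆ b.B h) :
    Cut (GG b (2 * h) {q2, q3, q4} (colM base {q2, q3, q4} none) (slD s x1) w0)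
      (Tk b (2 * h) s x1 {q2, q3, q4} none (w0 ∪ Wl b (2 * h) (colM base {q2, q3, q4} none)))
      (Hk b (2 * h) s x1 {q2, q3, q4} none (w0 ∪ Wl b (2 * h) (colM base {q2, q3, q4} none)))
      (FJ b (2 * h) (colM base {q2, q3, q4} none) s x1 q3 q4
        (fa b (2 * h) (colM base {q2, q3, q4} none) q2)) (SJ b (2 * h) s x1)
      (NJ b (2 * h) s x1) := by
  have hM : ∀ c ∈ ({q2, q3, q4} : Finset (Bool × ℕ)), c.2 < b.K := by
    intro c hc
    rw [mem_insert, mem_insert, mem_singleton] at hc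
    rcases hc with rfl | rfl | rfl
    · exact k2
    · exact k3
    · exact k4
  have m2 : q2 ∈ ({q2, q3, q4} : Finset (Bool × ℕ)) := by simp
  have m3 : q3 ∈ ({q2, q3, q4} : Finset (Bool × ℕ)) := by simp
  have m4 : q4 ∈ ({q2, q3, q4} : Finset (Bool × ℕ)) := by simp
  have J : JOk b (2 * h) s x1 {q2, q3, q4} none := JOk.of hb (by omega) hx hx' hM
    (fun u hu => absurd hu (by simp)) (fun u hu => absurd hu (by simp))
  have hs : StartOK b (2 * h) (colM base {q2, q3, q4} none) {q2, q3, q4} none q3 q4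
      (fa b (2 * h) (colM base {q2, q3, q4} none) q2) := Or.inr ⟨q2, m2, h23, h24, rfl⟩
  have JT := JW_PT (base := base) (s := s) hb hh hM (par3 h23 h24 h34) hx hx' h0
  have e : (slD s x1 : Set (ℤ × ℤ)) = Dl s x1 none := by
    unfold Dl strO
    rw [Set.empty_union]
  rw [e]
  refine cut_J J m3 m4 h34 hs (hpt_of JT m3 m4 rfl hs ?_ ?_)
  · intro u hu
    exact absurd hu (by simp)
  · intro q hq
    rw [mem_insert, mem_insert, mem_singleton] at hq
    rcases hq with rfl | rfl | rfl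
    · exact Or.inr (Or.inr rfl)
    · exact Or.inl rfl
    · exact Or.inr (Or.inl rfl)

end worlds

end Pool.Agent.H73.W
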