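import Pool.Agent.H73.W.JAbs
import Pool.Agent.H25.W.TabBd

set_option autoImplicit false
open Finset

/-! # J3: the values of a cut strand graph

`Cut.far_iff` : the far end of the link structure = the reachable alive end. `Cut.no_end` : an alive end is
joined to no other end. `Cut.T_iff`, `Cut.pat` : the thin graph is determined by the pattern of the names
in the cut graph. `Cut.count` : the number of links of a strand. -/

namespace Pool.Agent.H73.W

open SimpleGraph Pool.Agent.H99.W Pool.Agent.H47.W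

namespace Cut

variable {φ ι : Type*} {G T H : SimpleGraph (ℤ × ℤ)} {F : φ → ℤ × ℤ} {ss nn : ι → ℤ × ℤ}
  (h : Cut G T H F ss nn)

include h

lemma act_inl (a : φ) : h.L.σ (.inl a) ≠ .inl a := (h.act.alive _).2 (Ac_inl a)

lemma θ_inl (a : φ) : h.L.θ (.inl a) = .inl a := rfl

/-- the reachable alive end -/
lemma exists_pt (a : φ) : ∃ b, b ≠ a ∧ G.Reachable (F a) (F b) := by
  obtain ⟨b, hb, hr⟩ := h.pt a
  exact ⟨b, hb, hr.mono h.TG⟩

lemma inj_F {a b : φ} (e : F a = F b) : a = b := Sum.inl.inj (h.inj (.inl a) (.inl b) e)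

/-- an alive end is joined to no end which is not alive -/
lemma no_end {y : ℤ × ℤ} (hy : IsEnd G y) (hne : ∀ a, y ≠ F a) (a : φ) : ¬ G.Reachable (F a) y := by
  intro hr
  obtain ⟨b, hb, hr'⟩ := h.exists_pt a
  rcases ends_two h.deg (h.eG a) (h.eG b) hy hr' hr (fun e => hb (h.inj_F e).symm) with h1 | h1
  · exact hne _ h1
  · exact hne _ h1

/-- the far end -/
theorem far_iff [Finite φ] [Finite ι] {a b : φ} (hne : b ≠ a) :
    h.L.far (.inl a) = .inl b ↔ G.Reachable (F a) (F b) := by
  have hR : h.L.G.Reachable (.inl a) (.inl b) ↔ G.Reachable (F a) (F b) :=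
    h.reach_G a (Ac_inl b)
  constructor
  · intro e
    obtain ⟨-, -, h3⟩ := Lk.far_spec (h.θ_inl a) (h.act_inl a)
    rw [e] at h3
    exact hR.1 h3
  · intro hr
    exact Lk.far_eq (h.θ_inl a) (h.act_inl a) (fun e => hne (Sum.inl.inj e)) (Or.inr rfl) (hR.2 hr)

lemma far_inl [Finite φ] [Finite ι] (a : φ) : ∃ b, b ≠ a ∧ h.L.far (.inl a) = .inl b := by
  obtain ⟨b, hb, hr⟩ := h.exists_pt a
  exact ⟨b, hb, (h.far_iff hb).2 hr⟩

/-! ### Patterns -/

omit h in
/-- one step: a strand of the cut graph or a cut edge -/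
def St (H : SimpleGraph (ℤ × ℤ)) (F : φ → ℤ × ℤ) (ss nn : ι → ℤ × ℤ) (a b : Na φ ι) : Prop :=
  H.Reachable (co F ss nn a) (co F ss nn b) ∨ ∃ x s, a = .inr (x, s) ∧ b = .inr (x, !s)

lemma adj_flip (x : ι) (s : Bool) : T.Adj (co F ss nn (.inr (x, s))) (co F ss nn (.inr (x, !s))) := by
  cases s
  · exact h.adj_cut x
  · exact (h.adj_cut x).symm

/-- **The thin graph from the pattern of the names.** -/
theorem T_iff {a b : Na φ ι} :
    T.Reachable (co F ss nn a) (co F ss nn b) ↔ Relation.ReflTransGen (St H F ss nn) a b := by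
  classical
  constructor
  · intro hr
    set C : SimpleGraph (ℤ × ℤ) :=
      { Adj := fun u v => u ≠ v ∧ ∃ x, (u = ss x ∧ v = nn x) ∨ (u = nn x ∧ v = ss x)
        symm := ⟨by
          rintro u v ⟨h1, x, h2 | h2⟩
          · exact ⟨h1.symm, x, Or.inr ⟨h2.2, h2.1⟩⟩
          · exact ⟨h1.symm, x, Or.inl ⟨h2.2, h2.1⟩⟩⟩
        loopless := ⟨fun u hu => hu.1 rfl⟩ } with hC
    have hne : ∀ x, ss x ≠ nn x := fun x e => by
      have := h.inj (.inr (x, false)) (.inr (x, true)) e
      simp at this
    have hT : T = H ⊔ C := by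
      ext u v
      rw [sup_adj, h.adj]
      constructor
      · rintro (h1 | ⟨x, h1⟩)
        · exact Or.inl h1
        · refine Or.inr ⟨?_, x, h1⟩
          rcases h1 with ⟨rfl, rfl⟩ | ⟨rfl, rfl⟩
          · exact hne x
          · exact (hne x).symm
      · rintro (h1 | h1)
        · exact Or.inl h1
        · exact Or.inr h1.2
    set E : Set (ℤ × ℤ) := {v | ∃ a : Na φ ι, co F ss nn a = v} with hE
    have hEE : ∀ v, (∃ a, H.Adj v a) → (∃ b, C.Adj v b) → v ∈ E := by
      rintro v - ⟨b, -, x, ⟨rfl, -⟩ | ⟨rfl, -⟩⟩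
      · exact ⟨.inr (x, false), rfl⟩
      · exact ⟨.inr (x, true), rfl⟩
    rw [hT, glue_reach hEE ⟨a, rfl⟩ ⟨b, rfl⟩] at hr
    have hCd : ∀ u v, C.Reachable u v → v = u ∨ C.Adj u v := by
      rintro u v ⟨p⟩
      induction p with
      | nil => exact Or.inl rfl
      | @cons u v w h1 _ ih =>
        have huniq : ∀ {u v w}, C.Adj u v → C.Adj v w → w = u := by
          rintro u v w ⟨-, x, ⟨rfl, rfl⟩ | ⟨rfl, rfl⟩⟩ ⟨-, y, ⟨h2, rfl⟩ | ⟨h2, rfl⟩⟩
          · have := h.inj (.inr (x, true)) (.inr (y, false)) h2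
            simp at this
          · have := h.inj (.inr (x, true)) (.inr (y, true)) h2
            simp only [Sum.inr.injEq, Prod.mk.injEq, and_true] at this
            rw [this]
          · have := h.inj (.inr (x, false)) (.inr (y, false)) h2
            simp only [Sum.inr.injEq, Prod.mk.injEq, and_true] at this
            rw [this]
          · have := h.inj (.inr (x, false)) (.inr (y, true)) h2
            simp at this
        rcases ih with h2 | h2
        · exact Or.inr (h2 ▸ h1)
        · exact Or.inl (huniq h1 h2)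
    have key : ∀ u, Relation.ReflTransGen (fun a b => a ∈ E ∧ b ∈ E ∧
        (H.Reachable a b ∨ C.Reachable a b)) (co F ss nn a) u →
        ∃ c, co F ss nn c = u ∧ Relation.ReflTransGen (St H F ss nn) a c := by
      intro u hu
      induction hu with
      | refl => exact ⟨a, rfl, Relation.ReflTransGen.refl⟩
      | @tail u v _ huv ih =>
        obtain ⟨c, rfl, hac⟩ := ih
        obtain ⟨-, ⟨d, rfl⟩, h3⟩ := huv
        rcases h3 with h3 | h3
        · exact ⟨d, rfl, hac.tail (Or.inl h3)⟩
        · rcases hCd _ _ h3 with h4 | h4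
          · have := h.inj d c h4
            exact ⟨d, rfl, this ▸ hac⟩
          · obtain ⟨-, x, ⟨h5, h6⟩ | ⟨h5, h6⟩⟩ := h4
            · have e1 := h.inj c (.inr (x, false)) h5
              have e2 := h.inj d (.inr (x, true)) h6
              subst e1; subst e2
              exact ⟨_, rfl, hac.tail (Or.inr ⟨x, false, rfl, rfl⟩)⟩
            · have e1 := h.inj c (.inr (x, true)) h5
              have e2 := h.inj d (.inr (x, false)) h6
              subst e1; subst e2
              exact ⟨_, rfl, hac.tail (Or.inr ⟨x, true, rfl, rfl⟩)⟩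
    obtain ⟨c, hc1, hc2⟩ := key _ hr
    have := h.inj c b hc1
    exact this ▸ hc2
  · intro hr
    induction hr with
    | refl => exact Reachable.refl _
    | @tail c d _ hcd ih =>
      refine ih.trans ?_
      rcases hcd with h1 | ⟨x, s, rfl, rfl⟩
      · exact h1.mono h.HT
      · exact (h.adj_flip x s).reachable

variable {G' T' H' : SimpleGraph (ℤ × ℤ)} {F' : φ → ℤ × ℤ} {ss' nn' : ι → ℤ × ℤ}

/-- **Pattern theorem**: worlds with the same pattern of the names in the cut graphs. -/
theorem pat (h' : Cut G' T' H' F' ss' nn')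
    (hp : ∀ a b : Na φ ι, H.Reachable (co F ss nn a) (co F ss nn b) ↔
      H'.Reachable (co F' ss' nn' a) (co F' ss' nn' b)) (a b : Na φ ι) :
    T.Reachable (co F ss nn a) (co F ss nn b) ↔ T'.Reachable (co F' ss' nn' a) (co F' ss' nn' b) := by
  rw [h.T_iff, h'.T_iff]
  have : St H F ss nn = St H' F' ss' nn' := by
    funext a b
    unfold St
    rw [hp]
  rw [this]

/-- the same for the thick graphs, from an alive end -/
theorem pat_G (h' : Cut G' T' H' F' ss' nn')
    (hp : ∀ a b : Na φ ι, H.Reachable (co F ss nn a) (co F ss nn b) ↔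
      H'.Reachable (co F' ss' nn' a) (co F' ss' nn' b)) (a : φ) (b : Na φ ι) :
    G.Reachable (F a) (co F ss nn b) ↔ G'.Reachable (F' a) (co F' ss' nn' b) := by
  rw [h.thin, h'.thin]
  exact h.pat h' hp (.inl a) b

/-! ### Counting -/

/-- **The number of links of the strand of an alive end.** -/
theorem count [Fintype φ] [Fintype ι] {pos : Na φ ι → ℤ} {m : φ}
    (h1 : ∀ x, pos (.inr (x, true)) < pos (.inl m)) (h2 : ∀ x, pos (.inl m) < pos (.inr (x, false)))
    (a : φ) : cnt h.L pos (.inl m) (.inl a) = Set.ncard {x : ι | G.Reachable (F a) (ss x)} := by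
  classical
  have key : ∀ y : Na φ ι, Rt pos h.L.θ (.inl m) y ↔ ∃ x, y = .inr (x, false) ∧ Ac T F ss nn y := by
    rintro (y | ⟨x, s⟩)
    · constructor
      · rintro ⟨k1, k2⟩
        rw [h.θ_inl] at k2
        omega
      · rintro ⟨x, e, -⟩
        exact absurd e (by simp)
    · cases s
      · constructor
        · rintro ⟨k1, k2⟩
          refine ⟨x, rfl, ?_⟩
          by_contra hA
          rw [h.L_θ] at k2
          unfold th at k2
          simp only [hA, if_false] at k2
          have := h2 x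
          omega
        · rintro ⟨x', e, hA⟩
          refine ⟨h2 x, ?_⟩
          rw [h.L_θ]
          unfold th
          simp only [hA, if_true, Bool.not_false]
          exact h1 x
      · constructor
        · rintro ⟨k1, -⟩
          have := h1 x
          omega
        · rintro ⟨x', e, -⟩
          simp at e
  have hS : ∀ S : Finset (Na φ ι), (∀ y, y ∈ S ↔ Rt pos h.L.θ (.inl m) y ∧
      h.L.G.Reachable (.inl a) y) → S.card = Set.ncard {x : ι | G.Reachable (F a) (ss x)} := by
    intro S hS
    rw [← Set.ncard_coe_finset]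
    have e : (S : Set (Na φ ι)) =
        (fun x : ι => (.inr (x, false) : Na φ ι)) '' {x : ι | G.Reachable (F a) (ss x)} := by
      ext y
      rw [mem_coe, hS]
      constructor
      · rintro ⟨k1, k2⟩
        obtain ⟨x, rfl, hA⟩ := (key y).1 k1
        exact ⟨x, (h.reach_G a hA).1 k2, rfl⟩
      · rintro ⟨x, k1, rfl⟩
        have hA : Ac T F ss nn (.inr (x, false)) := ⟨a, (h.thin a _).1 k1⟩
        exact ⟨(key _).2 ⟨x, rfl, hA⟩, (h.reach_G a hA).2 k1⟩
    rw [e, Set.ncard_image_of_injective]
    intro x x' e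
    simpa using e
  unfold cnt
  apply hS
  intro y
  simp only [Finset.mem_filter, Finset.mem_univ, true_and]

end Cut

end Pool.Agent.H73.W
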