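import Pool.Agent.H73.W.JBdry

set_option autoImplicit false
open Finset

/-! # J3: `V1 (GP, c2) = V0 (GP, mark on P)` -/

namespace Pool.Agent.H73.W

open SimpleGraph
open Pool.Agent.H33.Q1 Pool.Agent.H6.W Pool.Agent.H50.W Pool.Agent.H61.W Pool.Agent.H13.W Pool.Agent.H58.W
open Pool.Agent.H45.W (BG JW al isF1 cc cc_flip ltB par2 par3 cfg_subB flp_subB symm_subB)

variable {b : JBox} {δ σ : ℝ} {h : ℕ} {w s o : Bool} {x1 : ℤ} {c2 c3 c4 : Bool × ℕ}

lemma ky_fst_lt (k3 : c3.2 < b.K) (k4 : c4.2 < b.K) (h34 : c3 ≠ c4) :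
    ky b (fst2 b c3 c4) < ky b (snd2 b c3 c4) := by
  have h : ky b c3 ≠ ky b c4 := fun e => h34 (ky_inj k3 k4 e)
  unfold fst2 snd2
  split_ifs with h1
  · exact h1
  · omega

lemma fst_snd (b : JBox) (c3 c4 : Bool × ℕ) : (fst2 b c3 c4 = c3 ∧ snd2 b c3 c4 = c4) ∨
    (fst2 b c3 c4 = c4 ∧ snd2 b c3 c4 = c3) := by
  unfold fst2 snd2
  split_ifs
  · exact Or.inl ⟨rfl, rfl⟩
  · exact Or.inr ⟨rfl, rfl⟩

lemma set_fst_snd (b : JBox) (c2 c3 c4 : Bool × ℕ) :
    ({c2, fst2 b c3 c4, snd2 b c3 c4} : Finset (Bool × ℕ)) = {c2, c3, c4} := by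
  rcases fst_snd b c3 c4 with ⟨e1, e2⟩ | ⟨e1, e2⟩ <;> rw [e1, e2]
  ext x
  simp only [mem_insert, mem_singleton]
  tauto

/-- **The identities of the world `GP`, world by world.** -/
theorem bdry_pt (hb : b.Ok δ σ) (hδ : δ ≤ 1) (hσ : σ ≤ 1) (hh : 2 ≤ h) (k2 : c2.2 < b.K)
    (k3 : c3.2 < b.K) (k4 : c4.2 < b.K) (h23 : c2 ≠ c3) (h24 : c2 ≠ c4) (h34 : c3 ≠ c4)
    (hx : -((b.X : ℤ) * (2 * h)) < x1) (hx' : x1 < 0) {ω : Finset (ℤ × ℤ)} (hω : ω ⊆ b.B h) :
    (RF b (2 * h) (GP b h w s x1 c2 c3 c4 o ω)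
        (fa b (2 * h) (colM (bsP w s) {c2, c3, c4} none) c2) (fst2 b c3 c4) ↔
      RF b (2 * h) (GP b h w s x1 c2 c3 c4 o ω) (mc s x1) (snd2 b c3 c4)) ∧
    ((GP b h w s x1 c2 c3 c4 o ω).Reachable
        (fa b (2 * h) (colM (bsP w s) {c2, c3, c4} none) c2) (mc s x1) ↔
      RF b (2 * h) (GP b h w s x1 c2 c3 c4 o ω) (mc s x1) c2) ∧
    ((GP b h w s x1 c2 c3 c4 o ω).Reachable
        (fa b (2 * h) (colM (bsP w s) {c2, c3, c4} none) c2) (mc s x1) →
      (Even (cntY b h s x1 c3 c4 (GP b h w s x1 c2 c3 c4 o ω)) ↔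
        ¬ (ky b (fst2 b c3 c4) < ky b c2 ∧ ky b c2 < ky b (snd2 b c3 c4)))) := by
  have hn : (4 : ℤ) ≤ 2 * h := by omega
  have hX : 0 < b.X := (BG.of_ok hb).X0
  have hx'' : x1 < b.X * (2 * h) := by
    have : (0 : ℤ) ≤ b.X * (2 * h) := by positivity
    omega
  set q3 := fst2 b c3 c4 with hq3
  set q4 := snd2 b c3 c4 with hq4
  have hky : ky b q3 < ky b q4 := ky_fst_lt k3 k4 h34
  have hM0 : ({c2, c3, c4} : Finset (Bool × ℕ)) = {c2, q3, q4} := (set_fst_snd b c2 c3 c4).symm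
  have hk3 : q3.2 < b.K := by rcases fst_snd b c3 c4 with ⟨e1, -⟩ | ⟨e1, -⟩ <;> rw [hq3, e1] <;> assumption
  have hk4 : q4.2 < b.K := by rcases fst_snd b c3 c4 with ⟨-, e1⟩ | ⟨-, e1⟩ <;> rw [hq4, e1] <;> assumption
  have g23 : c2 ≠ q3 := by rcases fst_snd b c3 c4 with ⟨e1, -⟩ | ⟨e1, -⟩ <;> rw [hq3, e1] <;> assumption
  have g24 : c2 ≠ q4 := by rcases fst_snd b c3 c4 with ⟨-, e1⟩ | ⟨-, e1⟩ <;> rw [hq4, e1] <;> assumption
  have g34 : q3 ≠ q4 := fun e => by rw [e] at hky; exact lt_irrefl _ hky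
  set cl := colM (bsP w s) {c2, c3, c4} none with hcl
  have h0 : symmDiff (cfg b h o ω) (flp b h s x1) ⊆ b.B h :=
    symm_subB (cfg_subB hb hδ hσ (by omega) hω) flp_subB
  have C := cutP (base := bsP w s) (s := s) (BG.of_ok hb) (by omega) k2 hk3 hk4 g23 g24 g34 hx hx'' h0
  rw [← hM0] at C
  have e : (slD s x1 : Set (ℤ × ℤ)) = Dl s x1 none := by
    unfold Dl strO
    rw [Set.empty_union]
  have eG : GP b h w s x1 c2 c3 c4 o ω = Gk b (2 * h) s x1 {c2, c3, c4} none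
      (symmDiff (cfg b h o ω) (flp b h s x1) ∪ Wl b (2 * h) cl) := by
    unfold GP GG Gk
    rw [e]
  unfold GG at C
  rw [e] at C
  have hM : ∀ c ∈ ({c2, c3, c4} : Finset (Bool × ℕ)), c.2 < b.K := by
    intro c hc
    rw [mem_insert, mem_insert, mem_singleton] at hc
    rcases hc with rfl | rfl | rfl <;> assumption
  have m2 : c2 ∈ ({c2, c3, c4} : Finset (Bool × ℕ)) := by simp
  have m3 : q3 ∈ ({c2, c3, c4} : Finset (Bool × ℕ)) := by rw [hM0]; simp
  have m4 : q4 ∈ ({c2, c3, c4} : Finset (Bool × ℕ)) := by rw [hM0]; simp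
  have J : JOk b (2 * h) s x1 {c2, c3, c4} none := JOk.of (BG.of_ok hb) (by omega) hx hx'' hM
    (fun u hu => absurd hu (by simp)) (fun u hu => absurd hu (by simp))
  have hs : StartOK b (2 * h) cl {c2, c3, c4} none q3 q4 (fa b (2 * h) cl c2) :=
    Or.inr ⟨c2, m2, g23, g24, rfl⟩
  have hcol : cq cl q3.1 q3.2 ≠ cq cl q3.1 (q3.2 + 1) := by
    rw [cq_cc, cq_cc, hcl, cc_flip m3]
    intro e
    exact Bool.not_ne_self _ e.symm
  rw [eG]
  have A : ∀ (a : Fin 4) (q : Bool × ℕ), q ∈ ({c2, c3, c4} : Finset (Bool × ℕ)) → _ :=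
    fun a q hq => RF_alive J m3 m4 hs C hq a
  refine ⟨?_, ?_, ?_⟩
  · rw [show RF b (2 * h) (Gk b (2 * h) s x1 {c2, c3, c4} none
      (symmDiff (cfg b h o ω) (flp b h s x1) ∪ Wl b (2 * h) cl)) (fa b (2 * h) cl c2) q3 ↔ _ from
        A 0 q3 m3,
      show RF b (2 * h) (Gk b (2 * h) s x1 {c2, c3, c4} none
      (symmDiff (cfg b h o ω) (flp b h s x1) ∪ Wl b (2 * h) cl)) (mc s x1) q4 ↔ _ from A 1 q4 m4]
    constructor
    · intro hr
      obtain ⟨b', hb', hr'⟩ := C.exists_pt 1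
      have : b' = 0 ∨ b' = 2 ∨ b' = 3 := by
        fin_cases b'
        · exact Or.inl rfl
        · exact absurd rfl hb'
        · exact Or.inr (Or.inl rfl)
        · exact Or.inr (Or.inr rfl)
      rcases this with rfl | rfl | rfl
      · exact (C.three (a := 0) (b := 2) (c := 1) (by decide) (by decide) (by decide) hr hr'.symm).elim
      · exact (C.three (a := 2) (b := 0) (c := 1) (by decide) (by decide) (by decide) hr.symm
          hr'.symm).elim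
      · exact hr'
    · intro hr
      obtain ⟨b', hb', hr'⟩ := C.exists_pt 0
      have : b' = 1 ∨ b' = 2 ∨ b' = 3 := by
        fin_cases b'
        · exact absurd rfl hb'
        · exact Or.inl rfl
        · exact Or.inr (Or.inl rfl)
        · exact Or.inr (Or.inr rfl)
      rcases this with rfl | rfl | rfl
      · exact (C.three (a := 1) (b := 3) (c := 0) (by decide) (by decide) (by decide) hr hr'.symm).elim
      · exact hr'
      · exact (C.three (a := 3) (b := 1) (c := 0) (by decide) (by decide) (by decide) hr.symm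
          hr'.symm).elim
  · rw [show RF b (2 * h) (Gk b (2 * h) s x1 {c2, c3, c4} none
      (symmDiff (cfg b h o ω) (flp b h s x1) ∪ Wl b (2 * h) cl)) (mc s x1) c2 ↔ _ from A 1 c2 m2]
    exact ⟨fun hr => hr.symm, fun hr => hr.symm⟩
  · intro hr
    exact bdry_cnt hb hn hM hx hx' m2 m3 m4 g23 g24 hky J (notMem_of_sub (by omega) h0) hcol C hr

/-- **(J3) The boundary identity.** -/
theorem V1_bdry (hb : b.Ok δ σ) (hδ : δ ≤ 1) (hσ : σ ≤ 1) (hh : 2 ≤ h) (k2 : c2.2 < b.K)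
    (k3 : c3.2 < b.K) (k4 : c4.2 < b.K) (h23 : c2 ≠ c3) (h24 : c2 ≠ c4) (h34 : c3 ≠ c4)
    (hx : -((b.X : ℤ) * (2 * h)) < x1) (hx' : x1 < 0) :
    V1 b h s x1 c3 c4 (GP b h w s x1 c2 c3 c4 o)
      (fa b (2 * h) (colM (bsP w s) {c2, c3, c4} none) c2) =
    V0 b h c2 c3 c4 (GP b h w s x1 c2 c3 c4 o) (mc s x1) := by
  have key := fun (ω : Finset (ℤ × ℤ)) (hω : ω ⊆ b.B h) =>
    bdry_pt (w := w) (s := s) (o := o) hb hδ hσ hh k2 k3 k4 h23 h24 h34 hx hx' hω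
  unfold V1 V0 K2
  have e1 : b.PJ h (fun ω => RF b (2 * h) (GP b h w s x1 c2 c3 c4 o ω)
      (fa b (2 * h) (colM (bsP w s) {c2, c3, c4} none) c2) (fst2 b c3 c4)) =
      b.PJ h (fun ω => RF b (2 * h) (GP b h w s x1 c2 c3 c4 o ω) (mc s x1) (snd2 b c3 c4)) :=
    PB_congr fun ω hω => (key ω hω).1
  rw [e1]
  by_cases hc : ky b (fst2 b c3 c4) < ky b c2 ∧ ky b c2 < ky b (snd2 b c3 c4)
  · have e2 : b.PJ h (fun ω => (GP b h w s x1 c2 c3 c4 o ω).Reachable
        (fa b (2 * h) (colM (bsP w s) {c2, c3, c4} none) c2) (mc s x1) ∧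
        Even (cntY b h s x1 c3 c4 (GP b h w s x1 c2 c3 c4 o ω))) = 0 := by
      have : b.PJ h (fun ω => (GP b h w s x1 c2 c3 c4 o ω).Reachable
        (fa b (2 * h) (colM (bsP w s) {c2, c3, c4} none) c2) (mc s x1) ∧
        Even (cntY b h s x1 c3 c4 (GP b h w s x1 c2 c3 c4 o ω))) = b.PJ h (fun _ => ¬ True) :=
        PB_congr fun ω hω => by
          constructor
          · rintro ⟨h1, h2⟩
            exact absurd hc (((key ω hω).2.2 h1).1 h2)
          · intro h1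
            exact absurd trivial h1
      rw [this]
      unfold JBox.PJ
      rw [PB_not, PB_true, sub_self]
    have e3 : b.PJ h (fun ω => (GP b h w s x1 c2 c3 c4 o ω).Reachable
        (fa b (2 * h) (colM (bsP w s) {c2, c3, c4} none) c2) (mc s x1) ∧
        ¬ Even (cntY b h s x1 c3 c4 (GP b h w s x1 c2 c3 c4 o ω))) =
        b.PJ h (fun ω => RF b (2 * h) (GP b h w s x1 c2 c3 c4 o ω) (mc s x1) c2) :=
      PB_congr fun ω hω => by
        rw [← (key ω hω).2.1]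
        exact ⟨fun h1 => h1.1, fun h1 => ⟨h1, fun h2 => absurd hc (((key ω hω).2.2 h1).1 h2)⟩⟩
    rw [e2, e3, if_pos hc]
    simp
  · have e2 : b.PJ h (fun ω => (GP b h w s x1 c2 c3 c4 o ω).Reachable
        (fa b (2 * h) (colM (bsP w s) {c2, c3, c4} none) c2) (mc s x1) ∧
        ¬ Even (cntY b h s x1 c3 c4 (GP b h w s x1 c2 c3 c4 o ω))) = 0 := by
      have : b.PJ h (fun ω => (GP b h w s x1 c2 c3 c4 o ω).Reachable
        (fa b (2 * h) (colM (bsP w s) {c2, c3, c4} none) c2) (mc s x1) ∧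
        ¬ Even (cntY b h s x1 c3 c4 (GP b h w s x1 c2 c3 c4 o ω))) = b.PJ h (fun _ => ¬ True) :=
        PB_congr fun ω hω => by
          constructor
          · rintro ⟨h1, h2⟩
            exact absurd (((key ω hω).2.2 h1).2 hc) h2
          · intro h1
            exact absurd trivial h1
      rw [this]
      unfold JBox.PJ
      rw [PB_not, PB_true, sub_self]
    have e3 : b.PJ h (fun ω => (GP b h w s x1 c2 c3 c4 o ω).Reachable
        (fa b (2 * h) (colM (bsP w s) {c2, c3, c4} none) c2) (mc s x1) ∧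
        Even (cntY b h s x1 c3 c4 (GP b h w s x1 c2 c3 c4 o ω))) =
        b.PJ h (fun ω => RF b (2 * h) (GP b h w s x1 c2 c3 c4 o ω) (mc s x1) c2) :=
      PB_congr fun ω hω => by
        rw [← (key ω hω).2.1]
        exact ⟨fun h1 => h1.1, fun h1 => ⟨h1, ((key ω hω).2.2 h1).2 hc⟩⟩
    rw [e2, e3, if_neg hc]
    simp

end Pool.Agent.H73.W
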