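import Pool.Agent.H73.W.Thin
import Pool.Agent.H73.W.Tangle0
import Pool.Agent.H47.W.Room3

set_option autoImplicit false
open Finset

/-! # J3: cut strand graphs as link structures

`G` strand graph, `T ≤ G` its thin part, `H` = `T` without the edges `ss x - nn x` (`x ∈ I`). `F` = alive
ends. `Cut` collects the hypotheses; `Cut.L` is the link structure (names: alive ends and both ends of the
cut edges), `Cut.reach`: its reachability is the reachability of `G`. -/

namespace Pool.Agent.H73.W

open SimpleGraph Pool.Agent.H99.W Pool.Agent.H47.W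

/-- names: alive ends `φ` and the ends of the cut edges -/
abbrev Na (φ ι : Type*) := φ ⊕ (ι × Bool)

/-- the corner of a name -/
def co {φ ι : Type*} (F : φ → ℤ × ℤ) (ss nn : ι → ℤ × ℤ) : Na φ ι → ℤ × ℤ
  | .inl a => F a
  | .inr (x, true) => nn x
  | .inr (x, false) => ss x

/-- **Hypotheses.** -/
structure Cut {φ ι : Type*} (G T H : SimpleGraph (ℤ × ℤ)) (F : φ → ℤ × ℤ) (ss nn : ι → ℤ × ℤ) :
    Prop where
  deg : Deg2 G
  TG : T ≤ G
  adj : ∀ u v, T.Adj u v ↔ H.Adj u v ∨ ∃ x, (u = ss x ∧ v = nn x) ∨ (u = nn x ∧ v = ss x)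
  inj : ∀ a b, co F ss nn a = co F ss nn b → a = b
  eG : ∀ a, IsEnd G (F a)
  eH : ∀ a, IsEnd H (co F ss nn a)
  nb : ∀ a, ∃ y, H.Adj (co F ss nn a) y
  /-- the strand of an alive end arrives at an alive end, in the thin part -/
  pt : ∀ a, ∃ b, b ≠ a ∧ T.Reachable (F a) (F b)
  /-- every end of the cut graph has a partner -/
  pH : ∀ a, (∃ x, H.Adj a x) → IsEnd H a → ∃ b, b ≠ a ∧ IsEnd H b ∧ H.Reachable a b

namespace Cut

variable {φ ι : Type*} {G T H : SimpleGraph (ℤ × ℤ)} {F : φ → ℤ × ℤ} {ss nn : ι → ℤ × ℤ}
  (h : Cut G T H F ss nn)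

/-- active names: joined to an alive end -/
def Ac (T : SimpleGraph (ℤ × ℤ)) (F : φ → ℤ × ℤ) (ss nn : ι → ℤ × ℤ) (a : Na φ ι) : Prop :=
  ∃ b, T.Reachable (F b) (co F ss nn a)

lemma Ac_inl (a : φ) : Ac T F ss nn (Sum.inl a) := ⟨a, Reachable.refl _⟩

include h

lemma HT : H ≤ T := fun u v huv => (h.adj u v).2 (Or.inl huv)

lemma degT : Deg2 T := Deg2.of_le h.TG h.deg

lemma adj_cut (x : ι) : T.Adj (ss x) (nn x) := (h.adj _ _).2 (Or.inr ⟨x, Or.inl ⟨rfl, rfl⟩⟩)

lemma Ac_flip (x : ι) : Ac T F ss nn (.inr (x, true)) ↔ Ac T F ss nn (.inr (x, false)) := by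
  constructor
  · rintro ⟨b, hb⟩
    exact ⟨b, hb.trans (h.adj_cut x).symm.reachable⟩
  · rintro ⟨b, hb⟩
    exact ⟨b, hb.trans (h.adj_cut x).reachable⟩

/-- reachability from an alive end is the same in the thin part -/
lemma thin (a : φ) (y : ℤ × ℤ) : G.Reachable (F a) y ↔ T.Reachable (F a) y := by
  obtain ⟨b, hb, hr⟩ := h.pt a
  refine sub_reach h.deg h.TG (h.eG a) (h.eG b) hr fun e => hb ?_
  have := h.inj (.inl a) (.inl b) e
  exact (Sum.inl.inj this).symm

/-- a corner which is an end of the cut graph and is joined to an alive end is an active name -/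
lemma end_name {y : ℤ × ℤ} (hy : IsEnd H y) {a : φ} (hr : T.Reachable (F a) y) :
    ∃ b, Ac T F ss nn b ∧ co F ss nn b = y := by
  by_cases hc : ∃ x, y = ss x ∨ y = nn x
  · obtain ⟨x, rfl | rfl⟩ := hc
    · exact ⟨.inr (x, false), ⟨a, hr⟩, rfl⟩
    · exact ⟨.inr (x, true), ⟨a, hr⟩, rfl⟩
  · push Not at hc
    have hyT : IsEnd T y := by
      intro u v hu hv
      have key : ∀ u, T.Adj y u → H.Adj y u := by
        intro u hu
        rcases (h.adj _ _).1 hu with h1 | ⟨x, ⟨h1, -⟩ | ⟨h1, -⟩⟩
        · exact h1
        · exact absurd h1 (hc x).1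
        · exact absurd h1 (hc x).2
      exact hy u v (key u hu) (key v hv)
    obtain ⟨b, hb, hr'⟩ := h.pt a
    have hne : F a ≠ F b := fun e => hb (Sum.inl.inj (h.inj (.inl a) (.inl b) e)).symm
    rcases ends_two h.degT (IsEnd.of_le h.TG (h.eG a)) (IsEnd.of_le h.TG (h.eG b)) hyT hr' hr hne with
      h1 | h1
    · exact ⟨.inl a, Ac_inl a, h1.symm⟩
    · exact ⟨.inl b, Ac_inl b, h1.symm⟩

/-- **The active names of the cut graph.** -/
theorem act : Act H (Ac T F ss nn) (co F ss nn) := by
  refine ⟨Deg2.of_le h.HT h.degT, fun a _ => h.eH a, fun a b _ _ e => h.inj a b e, ?_⟩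
  rintro a ⟨c, hc⟩
  obtain ⟨y, hy1, hy2, hy3⟩ := h.pH _ (h.nb a) (h.eH a)
  obtain ⟨b, hb, rfl⟩ := h.end_name hy2 (hc.trans (hy3.mono h.HT))
  exact ⟨b, hb, fun e => hy1 (by rw [e]), hy3⟩

open Classical in
omit h in
/-- the other end of a cut edge -/
noncomputable def th (T : SimpleGraph (ℤ × ℤ)) (F : φ → ℤ × ℤ) (ss nn : ι → ℤ × ℤ) :
    Na φ ι → Na φ ι
  | .inl a => .inl a
  | .inr (x, s) => if Ac T F ss nn (.inr (x, false)) then .inr (x, !s) else .inr (x, s)

omit h in
lemma th_inv (a : Na φ ι) : th T F ss nn (th T F ss nn a) = a := by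
  classical
  rcases a with a | ⟨x, s⟩
  · rfl
  · unfold th
    by_cases hA : Ac T F ss nn (.inr (x, false))
    · simp [hA]
    · simp [hA]

lemma th_ne (a : Na φ ι) : th T F ss nn a ≠ a ↔ (∃ x s, a = .inr (x, s)) ∧ Ac T F ss nn a := by
  classical
  rcases a with a | ⟨x, s⟩
  · simp [th]
  · have hA : Ac T F ss nn (.inr (x, s)) ↔ Ac T F ss nn (.inr (x, false)) := by
      cases s
      · exact Iff.rfl
      · exact h.Ac_flip x
    rw [hA]
    unfold th
    by_cases h1 : Ac T F ss nn (.inr (x, false))
    · simp [h1]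
    · simp [h1]

/-- **The link structure of the cut graph.** -/
noncomputable def L : Lk (Na φ ι) where
  σ := sgp H (Ac T F ss nn) (co F ss nn)
  θ := th T F ss nn
  hσ := h.act.inv
  hθ := th_inv

lemma L_σ : h.L.σ = sgp H (Ac T F ss nn) (co F ss nn) := rfl

lemma L_θ : h.L.θ = th T F ss nn := rfl

/-- **Reachability.** -/
theorem reach {a b : Na φ ι} (ha : Ac T F ss nn a) (hb : Ac T F ss nn b) :
    h.L.G.Reachable a b ↔ T.Reachable (co F ss nn a) (co F ss nn b) := by
  classical
  constructor
  · rintro ⟨p⟩
    have key : ∀ (a b : Na φ ι) (p : h.L.G.Walk a b), Ac T F ss nn a →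
        T.Reachable (co F ss nn a) (co F ss nn b) := by
      intro a b p
      induction p with
      | nil => exact fun _ => Reachable.refl _
      | @cons a v w hav _ ih =>
        intro haa
        obtain ⟨-, h1 | h1⟩ := hav
        · have h2 := h.act.sgp_mem haa
          rw [h.L_σ] at h1
          rw [h1] at h2
          exact (h2.2.2.mono h.HT).trans (ih h2.1)
        · rw [h.L_θ] at h1
          rcases a with a | ⟨x, s⟩
          · have : v = .inl a := h1.symm
            rw [this] at ih
            rw [← this]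
            rw [this]
            exact ih haa
          · have hA : Ac T F ss nn (.inr (x, false)) := by
              cases s
              · exact haa
              · exact (h.Ac_flip x).1 haa
            have h2 : v = .inr (x, !s) := by
              rw [← h1]
              unfold th
              simp [hA]
            subst h2
            have hv : Ac T F ss nn (.inr (x, !s)) := by
              cases s
              · exact (h.Ac_flip x).2 haa
              · exact (h.Ac_flip x).1 haa
            refine Reachable.trans ?_ (ih hv)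
            cases s
            · exact (h.adj_cut x).reachable
            · exact (h.adj_cut x).symm.reachable
    exact key a b p ha
  · intro hr
    -- the graph of the cut edges
    set C : SimpleGraph (ℤ × ℤ) :=
      { Adj := fun u v => u ≠ v ∧ ∃ x, (u = ss x ∧ v = nn x) ∨ (u = nn x ∧ v = ss x)
        symm := ⟨by
          rintro u v ⟨h1, x, h2 | h2⟩
          · exact ⟨h1.symm, x, Or.inr ⟨h2.2, h2.1⟩⟩
          · exact ⟨h1.symm, x, Or.inl ⟨h2.2, h2.1⟩⟩⟩
        loopless := ⟨fun u hu => hu.1 rfl⟩ } with hC
    have hne : ∀ x, ss x ≠ nn x := fun x e => by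
      have := h.inj (.inr (x, false)) (.inr (x, true)) e
      simp at this
    have hT : T = H ⊔ C := by
      ext u v
      rw [sup_adj, h.adj]
      constructor
      · rintro (h1 | ⟨x, h1⟩)
        · exact Or.inl h1
        · refine Or.inr ⟨?_, x, h1⟩
          rcases h1 with ⟨rfl, rfl⟩ | ⟨rfl, rfl⟩
          · exact hne x
          · exact (hne x).symm
      · rintro (h1 | h1)
        · exact Or.inl h1
        · exact Or.inr h1.2
    set E : Set (ℤ × ℤ) := {v | ∃ a : Na φ ι, co F ss nn a = v} with hE
    have hEE : ∀ v, (∃ a, H.Adj v a) → (∃ b, C.Adj v b) → v ∈ E := by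
      rintro v - ⟨b, -, x, ⟨rfl, -⟩ | ⟨rfl, -⟩⟩
      · exact ⟨.inr (x, false), rfl⟩
      · exact ⟨.inr (x, true), rfl⟩
    rw [hT, glue_reach hEE ⟨a, rfl⟩ ⟨b, rfl⟩] at hr
    have key : ∀ u, Relation.ReflTransGen (fun a b => a ∈ E ∧ b ∈ E ∧
        (H.Reachable a b ∨ C.Reachable a b)) (co F ss nn a) u →
        ∃ c, co F ss nn c = u ∧ Ac T F ss nn c ∧ h.L.G.Reachable a c := by
      intro u hu
      induction hu with
      | refl => exact ⟨a, rfl, ha, Reachable.refl _⟩
      | @tail u v _ huv ih =>
        obtain ⟨c, rfl, hc, hac⟩ := ih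
        obtain ⟨-, ⟨d, rfl⟩, h3⟩ := huv
        rcases h3 with h3 | h3
        · have hd : Ac T F ss nn d := by
            obtain ⟨e, he⟩ := hc
            exact ⟨e, he.trans (h3.mono h.HT)⟩
          refine ⟨d, rfl, hd, ?_⟩
          rcases (h.act.reach hc hd).1 h3 with h4 | h4
          · rw [h4]; exact hac
          · rw [h4]; exact hac.trans (h.L.reach_σ c)
        · -- a step in the graph of the cut edges
          have hCd : ∀ u v, C.Reachable u v → v = u ∨ C.Adj u v := by
            rintro u v ⟨p⟩
            induction p with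
            | nil => exact Or.inl rfl
            | @cons u v w h1 _ ih =>
              have huniq : ∀ {u v w}, C.Adj u v → C.Adj v w → w = u := by
                rintro u v w ⟨-, x, ⟨rfl, rfl⟩ | ⟨rfl, rfl⟩⟩ ⟨-, y, ⟨h2, rfl⟩ | ⟨h2, rfl⟩⟩
                · have := h.inj (.inr (x, true)) (.inr (y, false)) h2
                  simp at this
                · have := h.inj (.inr (x, true)) (.inr (y, true)) h2
                  simp only [Sum.inr.injEq, Prod.mk.injEq, and_true] at this
                  rw [this]
                · have := h.inj (.inr (x, false)) (.inr (y, false)) h2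
                  simp only [Sum.inr.injEq, Prod.mk.injEq, and_true] at this
                  rw [this]
                · have := h.inj (.inr (x, false)) (.inr (y, true)) h2
                  simp at this
              rcases ih with h2 | h2
              · exact Or.inr (h2 ▸ h1)
              · exact Or.inl (huniq h1 h2)
          rcases hCd _ _ h3 with h4 | h4
          · have := h.inj d c h4
            exact ⟨d, rfl, this ▸ hc, this ▸ hac⟩
          · obtain ⟨-, x, ⟨h5, h6⟩ | ⟨h5, h6⟩⟩ := h4
            · have e1 := h.inj c (.inr (x, false)) h5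
              have e2 := h.inj d (.inr (x, true)) h6
              subst e1; subst e2
              refine ⟨_, rfl, (h.Ac_flip x).2 hc, hac.trans ?_⟩
              have := h.L.reach_θ (.inr (x, false))
              rwa [h.L_θ, show th T F ss nn (.inr (x, false)) = .inr (x, true) by
                unfold th; simp [hc]] at this
            · have e1 := h.inj c (.inr (x, true)) h5
              have e2 := h.inj d (.inr (x, false)) h6
              subst e1; subst e2
              have hc' := (h.Ac_flip x).1 hc
              refine ⟨_, rfl, hc', hac.trans ?_⟩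
              have := h.L.reach_θ (.inr (x, true))
              rwa [h.L_θ, show th T F ss nn (.inr (x, true)) = .inr (x, false) by
                unfold th; simp [hc']] at this
    obtain ⟨c, hc1, hc2, hc3⟩ := key _ hr
    have := h.inj c b hc1
    exact this ▸ hc3

/-- reachability from an alive end -/
theorem reach_G (a : φ) {b : Na φ ι} (hb : Ac T F ss nn b) :
    h.L.G.Reachable (.inl a) b ↔ G.Reachable (F a) (co F ss nn b) := by
  rw [h.reach (Ac_inl a) hb, h.thin]
  rfl

end Cut

end Pool.Agent.H73.W
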