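import Pool.Agent.H73.W.JInst
import Pool.Agent.H47.W.Room10

set_option autoImplicit false
open Finset

/-! # J3: the boundary identity `V1 = V0`

World `GP`: mark on the bank `s` of `P` at `x1`, marks `c2`, `c3`, `c4`. The value `V1` started at the alive
corner of `c2` is the value `V0` started at the mark on `P` (`V1_bdry`). -/

namespace Pool.Agent.H73.W

open SimpleGraph
open Pool.Agent.H33.Q1 Pool.Agent.H6.W Pool.Agent.H50.W Pool.Agent.H61.W Pool.Agent.H13.W Pool.Agent.H58.W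
open Pool.Agent.H99.W (IsEnd Lk ends_two)
open Pool.Agent.H25.W (InB cnt_bdry)
open Pool.Agent.H47.W (hz vt Act sgp nc_J' VN odd_of_lt)
open Pool.Agent.H45.W (BG JW al isF1 cc cc_flip ltB par2 par3 cfg_subB flp_subB symm_subB)

/-! ### Abstract: three alive ends are not joined -/

namespace Cut

variable {φ ι : Type*} {G T H : SimpleGraph (ℤ × ℤ)} {F : φ → ℤ × ℤ} {ss nn : ι → ℤ × ℤ}
  (h : Cut G T H F ss nn)

include h

lemma three {a b c : φ} (h1 : a ≠ b) (h2 : a ≠ c) (h3 : b ≠ c) (r1 : G.Reachable (F a) (F b))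
    (r2 : G.Reachable (F a) (F c)) : False := by
  rcases ends_two h.deg (h.eG a) (h.eG b) (h.eG c) r1 r2 (fun e => h1 (h.inj_F e)) with e | e
  · exact h2 (h.inj_F e).symm
  · exact h3 (h.inj_F e).symm

end Cut

/-! ### The names as names of `Nm` -/

section names

variable {b : JBox} {n : ℤ} {s : Bool} {x1 : ℤ} {cl : Cl} {q2 q3 q4 : Bool × ℕ}

/-- the name of an end -/
def gN (b : JBox) (n : ℤ) (x1 : ℤ) (cl : Cl) (q2 q3 q4 : Bool × ℕ) : Na (Fin 4) (IJ b n x1) → Nm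
  | .inl a => (![.f q2 (alv b n cl q2), .m, .f q3 (alv b n cl q3), .f q4 (alv b n cl q4)] : Fin 4 → Nm) a
  | .inr (x, true) => .nn x.1
  | .inr (x, false) => .ss x.1

/-- positions -/
def pB (b : JBox) (n : ℤ) (x1 : ℤ) (cl : Cl) (q2 q3 q4 : Bool × ℕ) (a : Na (Fin 4) (IJ b n x1)) : ℤ :=
  posJ b n x1 (gN b n x1 cl q2 q3 q4 a)

lemma cr_gN (zz : ℤ × ℤ) (a : Na (Fin 4) (IJ b n x1)) : cr b n zz s x1 (gN b n x1 cl q2 q3 q4 a) =
    co (FJ b n cl s x1 q3 q4 (fa b n cl q2)) (SJ b n s x1) (NJ b n s x1) a := by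
  rcases a with a | ⟨x, t⟩
  · fin_cases a <;> rfl
  · cases t <;> rfl

lemma VN_gN {M : Finset (Bool × ℕ)} (h2 : q2 ∈ M) (h3 : q3 ∈ M) (h4 : q4 ∈ M)
    (a : Na (Fin 4) (IJ b n x1)) : VN (b := b) (n := n) M x1 (gN b n x1 cl q2 q3 q4 a) := by
  rcases a with a | ⟨x, t⟩
  · fin_cases a
    · exact h2
    · trivial
    · exact h3
    · exact h4
  · have := mem_Ico.1 x.2
    cases t <;> exact this

lemma ky_inj {c c' : Bool × ℕ} (h : c.2 < b.K) (h' : c'.2 < b.K) (e : ky b c = ky b c') : c = c' := by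
  obtain ⟨t, i⟩ := c
  obtain ⟨t', i'⟩ := c'
  unfold ky at e
  simp only at h h' e
  cases t <;> cases t' <;> simp only [Bool.false_eq_true, if_false, if_true] at e
  · have : i = i' := by omega
    rw [this]
  · exfalso; omega
  · exfalso; omega
  · have : i = i' := by omega
    rw [this]

lemma ky_nonneg {c : Bool × ℕ} (h : c.2 < b.K) : 0 ≤ ky b c := by
  unfold ky
  split_ifs <;> omega

/-- position of a mark -/
lemma pos_f (c : Bool × ℕ) (i : Bool) : ∃ e : ℤ, 0 ≤ e ∧ e ≤ 1 ∧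
    posJ b n x1 (.f c i) = 2 * x1 + b.X * n + 2 + 2 * ky b c + e := by
  refine ⟨if c.1 = i then 0 else 1, ?_, ?_, rfl⟩ <;> split_ifs <;> norm_num

variable (hx : -(b.X * n) < x1) (k2 : q2.2 < b.K) (k3 : q3.2 < b.K) (k4 : q4.2 < b.K)

include hx k2 k3 k4 in
/-- positions are injective -/
lemma pB_inj (h23 : q2 ≠ q3) (h24 : q2 ≠ q4) (h34 : q3 ≠ q4) (x y : Na (Fin 4) (IJ b n x1))
    (e : pB b n x1 cl q2 q3 q4 x = pB b n x1 cl q2 q3 q4 y) : x = y := by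
  have d23 : ky b q2 ≠ ky b q3 := fun e => h23 (ky_inj k2 k3 e)
  have d24 : ky b q2 ≠ ky b q4 := fun e => h24 (ky_inj k2 k4 e)
  have d34 : ky b q3 ≠ ky b q4 := fun e => h34 (ky_inj k3 k4 e)
  have n2 := ky_nonneg k2
  have n3 := ky_nonneg k3
  have n4 := ky_nonneg k4
  obtain ⟨e2, a2, a2', p2⟩ := pos_f (b := b) (n := n) (x1 := x1) q2 (alv b n cl q2)
  obtain ⟨e3, a3, a3', p3⟩ := pos_f (b := b) (n := n) (x1 := x1) q3 (alv b n cl q3)
  obtain ⟨e4, a4, a4', p4⟩ := pos_f (b := b) (n := n) (x1 := x1) q4 (alv b n cl q4)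
  have v : ∀ a : Na (Fin 4) (IJ b n x1), (a = .inl 0 ∧ pB b n x1 cl q2 q3 q4 a =
      2 * x1 + b.X * n + 2 + 2 * ky b q2 + e2) ∨ (a = .inl 1 ∧ pB b n x1 cl q2 q3 q4 a = x1) ∨
      (a = .inl 2 ∧ pB b n x1 cl q2 q3 q4 a = 2 * x1 + b.X * n + 2 + 2 * ky b q3 + e3) ∨
      (a = .inl 3 ∧ pB b n x1 cl q2 q3 q4 a = 2 * x1 + b.X * n + 2 + 2 * ky b q4 + e4) ∨
      (∃ x : IJ b n x1, a = .inr (x, true) ∧ pB b n x1 cl q2 q3 q4 a = x.1) ∨
      (∃ x : IJ b n x1, a = .inr (x, false) ∧ pB b n x1 cl q2 q3 q4 a = 2 * x1 - x.1) := by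
    rintro (a | ⟨x, t⟩)
    · fin_cases a
      · exact Or.inl ⟨rfl, p2⟩
      · exact Or.inr (Or.inl ⟨rfl, rfl⟩)
      · exact Or.inr (Or.inr (Or.inl ⟨rfl, p3⟩))
      · exact Or.inr (Or.inr (Or.inr (Or.inl ⟨rfl, p4⟩)))
    · cases t
      · exact Or.inr (Or.inr (Or.inr (Or.inr (Or.inr ⟨x, rfl, rfl⟩))))
      · exact Or.inr (Or.inr (Or.inr (Or.inr (Or.inl ⟨x, rfl, rfl⟩))))
  have bt : ∀ t : IJ b n x1, -(b.X * n) - 1 ≤ t.1 ∧ t.1 < x1 := fun t => mem_Ico.1 t.2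
  rcases v x with ⟨k, u1⟩ | ⟨k, u1⟩ | ⟨k, u1⟩ | ⟨k, u1⟩ | ⟨t, k, u1⟩ | ⟨t, k, u1⟩ <;>
    rcases v y with ⟨k', u2⟩ | ⟨k', u2⟩ | ⟨k', u2⟩ | ⟨k', u2⟩ | ⟨t', k', u2⟩ | ⟨t', k', u2⟩ <;>
    have e' := u1.symm.trans (e.trans u2) <;>
    first
    | exact k.trans k'.symm
    | (exfalso; omega)
    | (exfalso; have h1 := bt t; omega)
    | (exfalso; have h1 := bt t'; omega)
    | (exfalso; have h1 := bt t; have h2 := bt t'; omega)
    | (have h5 : t = t' := Subtype.ext (by omega)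
       rw [k, k', h5])

include hx k2 in
lemma pB_m0 : pB b n x1 cl q2 q3 q4 (.inl 1) < pB b n x1 cl q2 q3 q4 (.inl 0) := by
  obtain ⟨e2, a2, a2', p2⟩ := pos_f (b := b) (n := n) (x1 := x1) q2 (alv b n cl q2)
  have n2 := ky_nonneg k2
  show x1 < posJ b n x1 (.f q2 (alv b n cl q2))
  omega

include hx k3 in
lemma pB_m3 : pB b n x1 cl q2 q3 q4 (.inl 1) < pB b n x1 cl q2 q3 q4 (.inl 2) := by
  obtain ⟨e2, a2, a2', p2⟩ := pos_f (b := b) (n := n) (x1 := x1) q3 (alv b n cl q3)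
  have n2 := ky_nonneg k3
  show x1 < posJ b n x1 (.f q3 (alv b n cl q3))
  omega

/-- order of two marks -/
lemma pos_f_lt {c c' : Bool × ℕ} (h : c.2 < b.K) (h' : c'.2 < b.K) (hne : c ≠ c') (i i' : Bool) :
    posJ b n x1 (.f c i) < posJ b n x1 (.f c' i') ↔ ky b c < ky b c' := by
  obtain ⟨e2, a2, a2', p2⟩ := pos_f (b := b) (n := n) (x1 := x1) c i
  obtain ⟨e3, a3, a3', p3⟩ := pos_f (b := b) (n := n) (x1 := x1) c' i'
  have d : ky b c ≠ ky b c' := fun e => hne (ky_inj h h' e)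
  rw [p2, p3]
  omega

/-- the sides of the cut tiles come before the marks -/
lemma pB_cut {c : Bool × ℕ} (h : c.2 < b.K) (i : Bool) (x : IJ b n x1) (t : Bool) :
    pB b n x1 cl q2 q3 q4 (.inr (x, t)) < posJ b n x1 (.f c i) := by
  obtain ⟨e3, a3, a3', p3⟩ := pos_f (b := b) (n := n) (x1 := x1) c i
  have h1 := mem_Ico.1 x.2
  have n2 := ky_nonneg h
  rw [p3]
  cases t
  · show 2 * x1 - x.1 < _
    omega
  · show x.1 < _
    omega

end names

/-! ### Inside and outside -/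

section io

variable {b : JBox} {n : ℤ} {s : Bool} {x1 : ℤ} {cl : Cl} {q2 q3 q4 : Bool × ℕ}
  {M : Finset (Bool × ℕ)} {W : Finset (ℤ × ℤ)} {δ σ' : ℝ}

/-- the strand pattern of the cut region is noncrossing -/
lemma nc_P (hb : b.Ok δ σ') (hn : 2 ≤ n) (hM : ∀ c ∈ M, c.2 < b.K) (hx : -(b.X * n) < x1)
    (hx' : x1 < 0) (m2 : q2 ∈ M) (m3 : q3 ∈ M) (m4 : q4 ∈ M)
    (C : Cut (Gk b n s x1 M none W) (Tk b n s x1 M none W) (Hk b n s x1 M none W)
      (FJ b n cl s x1 q3 q4 (fa b n cl q2)) (SJ b n s x1) (NJ b n s x1))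
    (x y : Na (Fin 4) (IJ b n x1)) : NX (pB b n x1 cl q2 q3 q4) C.L.σ x y := by
  set g := gN b n x1 cl q2 q3 q4 with hg
  set F := FJ b n cl s x1 q3 q4 (fa b n cl q2) with hF
  set T := Tk b n s x1 M none W with hT
  have hco : ∀ a, cr b n (0, 0) s x1 (g a) = co F (SJ b n s x1) (NJ b n s x1) a := cr_gN (0, 0)
  set A : Nm → Prop := fun u => ∃ a, Cut.Ac T F (SJ b n s x1) (NJ b n s x1) a ∧ g a = u with hA
  have hD : ∀ e ∈ LamC b n M s x1, e ∈ lt '' Dl s x1 none → False := by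
    rintro e he ⟨p, hp, rfl⟩
    obtain ⟨x, y⟩ := p
    rw [mem_Dl] at hp
    rcases hp with ⟨u, hu, -⟩ | hp
    · exact absurd hu (by simp)
    · exact ((mem_LamC (x := x) (y := y)).1 he).2 hp
  have act : Act (SG (LamC b n M s x1) (lt '' Dl s x1 none) W) A (cr b n (0, 0) s x1) := by
    refine ⟨SG_deg2, ?_, ?_, ?_⟩
    · rintro u ⟨a, ha, rfl⟩
      rw [hco]
      exact C.act.ie a ha
    · rintro u u' ⟨a, ha, rfl⟩ ⟨a', ha', rfl⟩ e
      rw [hco, hco] at e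
      rw [C.inj _ _ e]
    · rintro u ⟨a, ha, rfl⟩
      obtain ⟨c, hc, hne, hr⟩ := C.act.pt a ha
      refine ⟨g c, ⟨c, hc, rfl⟩, ?_, ?_⟩
      · intro e
        apply hne
        apply C.inj
        rw [← hco, ← hco, e]
      · rw [hco, hco]
        exact hr
  have hVN : ∀ u, A u → VN (b := b) (n := n) M x1 u := by
    rintro u ⟨a, -, rfl⟩
    exact VN_gN m2 m3 m4 a
  have hσ : ∀ a, Cut.Ac T F (SJ b n s x1) (NJ b n s x1) a →
      sgp (SG (LamC b n M s x1) (lt '' Dl s x1 none) W) A (cr b n (0, 0) s x1) (g a) =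
        g (C.L.σ a) := by
    intro a ha
    have k := C.act.sgp_mem ha
    rw [← C.L_σ] at k
    refine act.sgp_eq ⟨a, ha, rfl⟩ ⟨_, k.1, rfl⟩ ?_ ?_
    · intro e
      apply k.2.1
      apply C.inj
      rw [← hco, ← hco, e]
    · rw [hco, hco]
      exact k.2.2
  rintro ⟨h1, h2, h3⟩
  have ax : Cut.Ac T F (SJ b n s x1) (NJ b n s x1) x := by
    by_contra hc
    have : C.L.σ x = x := by rw [C.L_σ]; exact Pool.Agent.H47.W.sgp_dead hc
    rw [this] at h2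
    omega
  have ay : Cut.Ac T F (SJ b n s x1) (NJ b n s x1) y := by
    by_contra hc
    have : C.L.σ y = y := by rw [C.L_σ]; exact Pool.Agent.H47.W.sgp_dead hc
    rw [this] at h3
    omega
  have key := nc_J' hb hn hM s hx.le hx' (zz := (0, 0)) hVN
    (fun u _ e he hd => (hD e he hd).elim) (fun e _ hd => odd_of_lt hd) act (g x) (g y)
  apply key
  rw [hσ x ax, hσ y ay]
  exact ⟨h1, h2, h3⟩

/-- **The inside.** -/
lemma inB_P (hb : b.Ok δ σ') (hn : 2 ≤ n) (hM : ∀ c ∈ M, c.2 < b.K) (hx : -(b.X * n) < x1)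
    (hx' : x1 < 0) (m2 : q2 ∈ M) (m3 : q3 ∈ M) (m4 : q4 ∈ M) (h23 : q2 ≠ q3) (h24 : q2 ≠ q4)
    (h34 : q3 ≠ q4)
    (C : Cut (Gk b n s x1 M none W) (Tk b n s x1 M none W) (Hk b n s x1 M none W)
      (FJ b n cl s x1 q3 q4 (fa b n cl q2)) (SJ b n s x1) (NJ b n s x1)) :
    InB (pB b n x1 cl q2 q3 q4) (.inl 1) (.inl 0) (.inl 2) (.inl 3) C.L.σ C.L.θ where
  inv := C.L.hσ
  inj := pB_inj hx (hM _ m2) (hM _ m3) (hM _ m4) h23 h24 h34
  nc := nc_P hb hn hM hx hx' m2 m3 m4 C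
  f2 := rfl
  n3 := by simp
  n4 := by simp
  m2 := pB_m0 hx (hM _ m2)
  lt2 := by
    intro y hy
    obtain ⟨⟨x, t, rfl⟩, -⟩ := (C.th_ne y).1 hy
    exact pB_cut (hM _ m2) _ x t
  act := by
    intro y
    rw [C.L_σ, C.act.alive, C.L_θ, C.th_ne]
    rcases y with a | ⟨x, t⟩
    · constructor
      · intro _
        fin_cases a <;> simp
      · intro _
        exact Cut.Ac_inl a
    · constructor
      · intro h
        exact Or.inl ⟨⟨x, t, rfl⟩, h⟩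
      · rintro (h | h | h | h | h)
        · exact h.2
        all_goals exact absurd h (by simp)

/-- **The outside.** -/
lemma outs_P (hM : ∀ c ∈ M, c.2 < b.K) (hx : -(b.X * n) < x1)
    (m3 : q3 ∈ M) (m4 : q4 ∈ M) (hky : ky b q3 < ky b q4)
    (C : Cut (Gk b n s x1 M none W) (Tk b n s x1 M none W) (Hk b n s x1 M none W)
      (FJ b n cl s x1 q3 q4 (fa b n cl q2)) (SJ b n s x1) (NJ b n s x1)) :
    Outs (pB b n x1 cl q2 q3 q4) (.inl 1) (.inl 2) (.inl 3) C.L.θ where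
  inv := C.L.hθ
  nc := by
    rintro x y ⟨h1, h2, h3⟩
    have hx0 : C.L.θ x ≠ x := fun e => by rw [e] at h2; omega
    have hy0 : C.L.θ y ≠ y := fun e => by rw [e] at h3; omega
    obtain ⟨⟨x, t, rfl⟩, ax⟩ := (C.th_ne x).1 hx0
    obtain ⟨⟨y, u, rfl⟩, ay⟩ := (C.th_ne y).1 hy0
    have kx := mem_Ico.1 x.2
    have ky := mem_Ico.1 y.2
    have tx : C.L.θ (.inr (x, t)) = .inr (x, !t) := by
      have hA : Cut.Ac (Tk b n s x1 M none W) (FJ b n cl s x1 q3 q4 (fa b n cl q2)) (SJ b n s x1)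
          (NJ b n s x1) (.inr (x, false)) := by
        cases t
        · exact ax
        · exact (C.Ac_flip x).1 ax
      rw [C.L_θ]
      unfold Cut.th
      simp [hA]
    have ty : C.L.θ (.inr (y, u)) = .inr (y, !u) := by
      have hA : Cut.Ac (Tk b n s x1 M none W) (FJ b n cl s x1 q3 q4 (fa b n cl q2)) (SJ b n s x1)
          (NJ b n s x1) (.inr (y, false)) := by
        cases u
        · exact ay
        · exact (C.Ac_flip y).1 ay
      rw [C.L_θ]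
      unfold Cut.th
      simp [hA]
    rw [tx] at h2 h3
    rw [ty] at h3
    have e1 : ∀ z : IJ b n x1, pB b n x1 cl q2 q3 q4 (.inr (z, true)) = z.1 := fun z => rfl
    have e2 : ∀ z : IJ b n x1, pB b n x1 cl q2 q3 q4 (.inr (z, false)) = 2 * x1 - z.1 := fun z => rfl
    cases t <;> cases u <;> simp only [Bool.not_true, Bool.not_false, e1, e2] at h1 h2 h3 <;> omega
  fm := rfl
  f3 := rfl
  f4 := rfl
  m3 := pB_m3 hx (hM _ m3)
  o34 := by
    have hne : q3 ≠ q4 := fun e => by rw [e] at hky; exact lt_irrefl _ hky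
    exact (pos_f_lt (hM _ m3) (hM _ m4) hne _ _).2 hky
  lt3 := by
    intro y hy
    obtain ⟨⟨x, t, rfl⟩, -⟩ := (C.th_ne y).1 hy
    exact pB_cut (hM _ m3) _ x t

/-! ### The boundary identities, world by world -/

variable {w : Finset (ℤ × ℤ)}

/-- the parity of the number of passages -/
theorem bdry_cnt (hb : b.Ok δ σ') (hn : 4 ≤ n) (hM : ∀ c ∈ M, c.2 < b.K) (hx : -(b.X * n) < x1)
    (hx' : x1 < 0) (m2 : q2 ∈ M) (m3 : q3 ∈ M) (m4 : q4 ∈ M) (h23 : q2 ≠ q3) (h24 : q2 ≠ q4)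
    (hky : ky b q3 < ky b q4) (J : JOk b n s x1 M none) (hw : ∀ x y, ¬ InQ b n x y → vt x y ∉ w)
    (hcol : cq cl q3.1 q3.2 ≠ cq cl q3.1 (q3.2 + 1))
    (C : Cut (Gk b n s x1 M none (w ∪ Wl b n cl)) (Tk b n s x1 M none (w ∪ Wl b n cl))
      (Hk b n s x1 M none (w ∪ Wl b n cl))
      (FJ b n cl s x1 q3 q4 (fa b n cl q2)) (SJ b n s x1) (NJ b n s x1))
    (hr : (Gk b n s x1 M none (w ∪ Wl b n cl)).Reachable (fa b n cl q2) (mc s x1)) :
    Even (Set.ncard {x : ℤ | x < x1 ∧ RF b n (Gk b n s x1 M none (w ∪ Wl b n cl)) (Sn s x) q3}) ↔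
      ¬ (ky b q3 < ky b q2 ∧ ky b q2 < ky b q4) := by
  have h34 : q3 ≠ q4 := fun e => by rw [e] at hky; exact lt_irrefl _ hky
  have hI := inB_P hb (by omega) hM hx hx' m2 m3 m4 h23 h24 h34 C
  have hO := outs_P hM hx m3 m4 hky C
  have hf : C.L.far (.inl 0) = .inl 1 := (C.far_iff (by simp)).2 hr
  have key := cnt_bdry hO hI hf
  rw [cnt_eq J hn hw m3 hcol C]
  have e := C.count (pos := pB b n x1 cl q2 q3 q4) (m := 1)
    (fun x => by
      have := mem_Ico.1 x.2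
      show x.1 < x1
      omega)
    (fun x => by
      have := mem_Ico.1 x.2
      show x1 < 2 * x1 - x.1
      omega) 2
  rw [← e]
  have p1 : pB b n x1 cl q2 q3 q4 (.inl 2) < pB b n x1 cl q2 q3 q4 (.inl 0) ↔ ky b q3 < ky b q2 :=
    pos_f_lt (hM _ m3) (hM _ m2) h23.symm _ _
  have p2 : pB b n x1 cl q2 q3 q4 (.inl 0) < pB b n x1 cl q2 q3 q4 (.inl 3) ↔ ky b q2 < ky b q4 :=
    pos_f_lt (hM _ m2) (hM _ m4) h24 _ _
  rw [p1, p2] at key
  exact key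

end io

end Pool.Agent.H73.W
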