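import Pool.Agent.H73.W.JNames2

set_option autoImplicit false
open Finset

/-! # J3: the loose corners of the marks

In the thick strand graph the loose corner of a mark is joined to nothing near the slit
(`loose_rows`). -/

namespace Pool.Agent.H73.W

open SimpleGraph
open Pool.Agent.H33.Q1 Pool.Agent.H6.W Pool.Agent.H50.W Pool.Agent.H61.W Pool.Agent.H13.W Pool.Agent.H58.W
open Pool.Agent.H99.W (IsEnd)
open Pool.Agent.H47.W (hz vt vt_inj hz_inj hz_ne_vt vt_odd eW_vt eE_vt eS_vt eN_vt tiles_vt tiles_hz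
  sg_partner exists_vt)
open Pool.Agent.H16.W (InQ_col InQ_mid dgt_row mem_RC)

/-! ### The arcs of a natural tile in tile coordinates -/

section arcs

variable {D : Set (ℤ × ℤ)} {w : Finset (ℤ × ℤ)} {x y : ℤ}

/-- the tile turns west-south and north-east -/
lemma arc1 (hD : vt x y ∉ D) (h : vt x y ∈ w ↔ (x - y) % 2 = 1) :
    TJ D w (vt x y) (vt x y) (hz x y) ∧ TJ D w (vt x y) (hz x (y + 1)) (vt (x + 1) y) := by
  have := (Pool.Agent.H45.W.tile_state (w := w) hD (vt_odd x y)).1 h
  rwa [eW_vt, eS_vt, eN_vt, eE_vt] at this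

/-- the tile turns west-north and south-east -/
lemma arc0 (hD : vt x y ∉ D) (h : vt x y ∈ w ↔ (x - y) % 2 = 0) :
    TJ D w (vt x y) (vt x y) (hz x (y + 1)) ∧ TJ D w (vt x y) (hz x y) (vt (x + 1) y) := by
  have := (Pool.Agent.H45.W.tile_state (w := w) hD (vt_odd x y)).2 h
  rwa [eW_vt, eS_vt, eN_vt, eE_vt] at this

end arcs

/-! ### Colours of the layer -/

section layer

variable {b : JBox} {n : ℤ} {s : Bool} {x1 : ℤ} {M : Finset (Bool × ℕ)} {v : Option (ℤ × ℤ)}
  {cl : Cl} {w : Finset (ℤ × ℤ)}

/-- the label of a tile of the layer -/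
lemma mem_layer (hw : ∀ x y, ¬ InQ b n x y → vt x y ∉ w) {x y : ℤ} (hq : ¬ InQ b n x y)
    (hx : -(b.X * n) - 3 ≤ x ∧ x ≤ b.X * n + 2)
    (hy : -((b.H + b.K) * n) - 3 ≤ y ∧ y ≤ (b.H + b.K) * n + 2) :
    vt x y ∈ w ∪ Wl b n cl ↔ lcol b n cl x y = true := by
  classical
  rw [mem_union]
  unfold Wl
  rw [mem_image]
  constructor
  · rintro (h | ⟨p, hp, e⟩)
    · exact absurd h (hw x y hq)
    · have : p = (x, y) := lt_inj e
      subst this
      exact (Finset.mem_filter.1 hp).2.2
  · intro h
    right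
    refine ⟨(x, y), ?_, rfl⟩
    rw [Finset.mem_filter, mem_product, mem_Icc, mem_Icc]
    exact ⟨⟨hx, hy⟩, hq, h⟩

/-- colour of the layer at the ceiling -/
lemma lcol_up (hn : 0 < n) {x y : ℤ} {i : ℕ} (hx : x < b.X * n) (hi : i ≤ b.K)
    (h1 : (b.H + i) * n ≤ y) (h2 : y < (b.H + i + 1) * n) : lcol b n cl x y = cl.u i := by
  have hy : 0 ≤ y := by
    have : 0 ≤ ((b.H : ℤ) + i) * n := by positivity
    omega
  have e : y / n = b.H + i := by
    refine le_antisymm ?_ ?_
    · have : y / n < b.H + i + 1 := Int.ediv_lt_of_lt_mul hn (by linarith)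
      omega
    · exact Int.le_ediv_of_mul_le hn (by linarith)
  unfold lcol
  rw [if_neg (by omega), if_pos hy, e]
  have : ((b.H : ℤ) + i - b.H).toNat = i := by simp
  rw [this, min_eq_right hi]

/-- colour of the layer at the floor -/
lemma lcol_dn (hn : 0 < n) {x y : ℤ} {i : ℕ} (hx : x < b.X * n) (hi : i ≤ b.K)
    (h1 : (b.H + i) * n ≤ -y - 1) (h2 : -y - 1 < (b.H + i + 1) * n) : lcol b n cl x y = cl.l i := by
  have hy : y < 0 := by
    have : 0 ≤ ((b.H : ℤ) + i) * n := by positivity
    omega
  have e : (-y - 1) / n = b.H + i := by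
    refine le_antisymm ?_ ?_
    · have : (-y - 1) / n < b.H + i + 1 := Int.ediv_lt_of_lt_mul hn (by linarith)
      omega
    · exact Int.le_ediv_of_mul_le hn (by linarith)
  unfold lcol
  rw [if_neg (by omega), if_neg (by omega), e]
  have : ((b.H : ℤ) + i - b.H).toNat = i := by simp
  rw [this, min_eq_right hi]

/-- distance of a row from the slit -/
def rw_ (t : Bool) (y : ℤ) : ℤ := if t then y else -y - 1

/-- tiles left of a mark, in the two rows of its corner -/
lemma near_mark (h : JOk b n s x1 M v) {q : Bool × ℕ} {x y : ℤ}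
    (hx : x < b.st q.2 * n ∨ (x ≤ b.st q.2 * n ∧ (b.H + q.2 + 1) * n ≤ rw_ q.1 y))
    (hy : (b.H + q.2) * n ≤ rw_ q.1 y)
    (hy2 : rw_ q.1 y < (b.H + q.2 + 2) * n) : ¬ InQ b n x y := by
  have key : ∃ i : ℕ, ((i = q.2 ∧ rw_ q.1 y < (b.H + q.2 + 1) * n) ∨ i = q.2 + 1) ∧
      (InQ b n x y ↔ i < b.K ∧ b.st i * n ≤ x ∧ x < b.X * n) := by
    by_cases hc : rw_ q.1 y < (b.H + q.2 + 1) * n
    · refine ⟨q.2, Or.inl ⟨rfl, hc⟩, InQ_step h ?_⟩
      unfold rw_ at *
      cases hq1 : q.1
      · simp only [hq1, Bool.false_eq_true, if_false] at hy hc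
        right
        constructor <;> linarith
      · simp only [hq1, if_true] at hy hc
        left
        constructor <;> linarith
    · refine ⟨q.2 + 1, Or.inr rfl, InQ_step h ?_⟩
      push_cast
      unfold rw_ at *
      cases hq1 : q.1
      · simp only [hq1, Bool.false_eq_true, if_false] at hy2 hc
        right
        constructor <;> linarith
      · simp only [hq1, if_true] at hy2 hc
        left
        constructor <;> linarith
  obtain ⟨i, hi, hiff⟩ := key
  rw [hiff]
  rintro ⟨k1, k2, -⟩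
  rcases hi with ⟨rfl, hi⟩ | rfl
  · rcases hx with hx | ⟨-, hx⟩ <;> omega
  · have := step_lt h k1
    omega

/-- colours of one side -/
def cq (cl : Cl) (t : Bool) : ℕ → Bool := if t then cl.u else cl.l

/-- **tiles near a mark** -/
lemma near_mem (h : JOk b n s x1 M v) (hw : ∀ x y, ¬ InQ b n x y → vt x y ∉ w) {q : Bool × ℕ}
    (hq : q ∈ M) {x y : ℤ}
    (hx : (x < b.st q.2 * n ∧ (b.H + q.2 + 1) * n - 1 ≤ rw_ q.1 y) ∨
      (x ≤ b.st q.2 * n ∧ (b.H + q.2 + 1) * n ≤ rw_ q.1 y))
    (hx3 : b.st q.2 * n - 3 ≤ x) (hy : rw_ q.1 y ≤ (b.H + q.2 + 1) * n + 1)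
    (hd : (x, y) ≠ dgt b n q) :
    vt x y ∈ Lam b n M ∧ vt x y ∉ lt '' Dl s x1 v ∧
      (vt x y ∈ w ∪ Wl b n cl ↔
        cq cl q.1 (if rw_ q.1 y < (b.H + q.2 + 1) * n then q.2 else q.2 + 1) = true) := by
  have hn2 := h.n2
  have hn : 0 < n := by omega
  have hK := h.idx q hq
  have hb := st_bounds h hK
  have hq0 : (0 : ℤ) ≤ q.2 := Int.natCast_nonneg _
  have hH : (1 : ℤ) ≤ b.H := by exact_mod_cast h.H0
  have hKz : (q.2 : ℤ) + 1 ≤ b.K := by exact_mod_cast hK
  have a1 : ((b.H + q.2 : ℤ)) * n = (b.H + q.2 + 1) * n - n := by ring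
  have a2 : ((b.H + q.2 + 2 : ℤ)) * n = (b.H + q.2 + 1) * n + n := by ring
  have a3 : (b.H + q.2 + 1) * n ≤ (b.H + b.K) * n := by nlinarith
  have a4 : 2 * n ≤ (b.H + q.2 + 1) * n := by nlinarith
  have hR1 : (b.H + q.2 + 1) * n - 1 ≤ rw_ q.1 y := by
    rcases hx with ⟨-, h1⟩ | ⟨-, h1⟩ <;> omega
  have hnQ : ∀ x' ≤ x, ¬ InQ b n x' y := fun x' hx' => near_mark h (q := q)
    (by rcases hx with ⟨h1, -⟩ | ⟨h1, h2⟩
        · left; omega
        · right; exact ⟨by omega, h2⟩) (by rw [a1]; omega) (by rw [a2]; omega)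
  have ex : x < b.X * n := by rcases hx with ⟨h1, -⟩ | ⟨h1, -⟩ <;> omega
  have ey : -((b.H + b.K) * n) - 3 ≤ y ∧ y ≤ (b.H + b.K) * n + 2 := by
    unfold rw_ at *
    cases hq1 : q.1
    · simp only [hq1, Bool.false_eq_true, if_false] at hy hR1
      constructor <;> omega
    · simp only [hq1, if_true] at hy hR1
      constructor <;> omega
  refine ⟨mem_Lam_vt.2 (Or.inr ⟨⟨hnQ x le_rfl, b.st q.2 * n - x, t2 b n q - y, ?_, ?_, ?_⟩, ?_⟩), ?_, ?_⟩
  · rw [abs_le]
    rcases hx with ⟨h1, -⟩ | ⟨h1, -⟩ <;> omega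
  · rw [abs_le]
    unfold rw_ at hR1 hy
    rcases mark_rows h hq with ⟨r0, -, -, r3⟩ | ⟨r0, -, -, r3⟩
    · rw [r0, if_pos rfl] at hR1 hy
      rw [r3]
      omega
    · rw [r0] at hR1 hy
      simp only [Bool.false_eq_true, if_false] at hR1 hy
      rw [r3]
      omega
  · rw [show x + (b.st q.2 * n - x) = b.st q.2 * n by ring, show y + (t2 b n q - y) = t2 b n q by ring,
      InQ_t2_row h hq]
    exact ⟨hK, le_refl _, hb.2⟩
  · intro c hc e
    apply hd
    have e1 := congrArg Prod.snd e
    simp only at e1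
    have c0 : (0 : ℤ) ≤ c.2 := Int.natCast_nonneg _
    have a5 : 2 * n ≤ (b.H + c.2 + 1) * n := by nlinarith
    have hrow : c.1 = q.1 ∧ rw_ q.1 y = (b.H + c.2 + 1) * n := by
      unfold rw_ at hR1 ⊢
      rcases mark_rows h hc with ⟨r0, -, r1, -⟩ | ⟨r0, -, r1, -⟩ <;> rw [r1] at e1
      · cases hq1 : q.1
        · rw [hq1] at hR1
          simp only [Bool.false_eq_true, if_false] at hR1
          omega
        · simp only [if_true]
          exact ⟨r0, e1⟩
      · cases hq1 : q.1
        · simp only [Bool.false_eq_true, if_false]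
          exact ⟨r0, by omega⟩
        · rw [hq1] at hR1
          simp only [if_true] at hR1
          omega
    have hcq : c.2 = q.2 := by
      rw [hrow.2] at hR1 hy
      have k1 : (((c.2 : ℤ) - q.2) * n) ≤ 1 := by linarith
      have k2 : -1 ≤ (((c.2 : ℤ) - q.2) * n) := by linarith
      have : (c.2 : ℤ) - q.2 = 0 := by
        by_contra hne
        rcases lt_or_gt_of_ne hne with h' | h'
        · have : (c.2 : ℤ) - q.2 ≤ -1 := by omega
          nlinarith
        · have : 1 ≤ (c.2 : ℤ) - q.2 := by omega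
          nlinarith
      omega
    rw [e, Prod.ext hrow.1 hcq]
  · rw [vt_mem_lt, mem_Dl]
    rintro (⟨u, hu, h1, h2⟩ | ⟨h1, -⟩)
    · have h3 := h.vQ u hu
      rw [← h1] at h3
      exact hnQ _ h2 h3
    · unfold rw_ at hR1
      rcases Yr_cases s with e | e <;> rw [h1, e] at hR1 <;> cases hq1 : q.1 <;> rw [hq1] at hR1 <;>
        simp only [Bool.false_eq_true, if_false, if_true] at hR1 <;> omega
  · rw [mem_layer hw (hnQ x le_rfl) (by omega) ey]
    split_ifs with hc
    · unfold cq
      cases hq1 : q.1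
      · rw [lcol_dn hn ex (i := q.2) (by omega)]
        · simp
        · unfold rw_ at hR1; rw [hq1] at hR1; simp only [Bool.false_eq_true, if_false] at hR1
          rw [a1]; omega
        · unfold rw_ at hc; rw [hq1] at hc; simp only [Bool.false_eq_true, if_false] at hc
          exact hc
      · rw [lcol_up hn ex (i := q.2) (by omega)]
        · simp
        · unfold rw_ at hR1; rw [hq1] at hR1; simp only [if_true] at hR1
          rw [a1]; omega
        · unfold rw_ at hc; rw [hq1] at hc; simp only [if_true] at hc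
          exact hc
    · unfold cq
      cases hq1 : q.1
      · rw [lcol_dn hn ex (i := q.2 + 1) (by omega)]
        · simp
        · unfold rw_ at hc; rw [hq1] at hc; simp only [Bool.false_eq_true, if_false] at hc
          push_cast; linarith
        · unfold rw_ at hy; rw [hq1] at hy; simp only [Bool.false_eq_true, if_false] at hy
          push_cast
          linarith
      · rw [lcol_up hn ex (i := q.2 + 1) (by omega)]
        · simp
        · unfold rw_ at hc; rw [hq1] at hc; simp only [if_true] at hc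
          push_cast; linarith
        · unfold rw_ at hy; rw [hq1] at hy; simp only [if_true] at hy
          push_cast
          linarith

/-- the loose corner of a mark -/
def lo (b : JBox) (n : ℤ) (cl : Cl) (q : Bool × ℕ) : ℤ × ℤ :=
  if alv b n cl q then f2 b n q else f1 b n q

lemma alv_iff (q : Bool × ℕ) : alv b n cl q = true ↔
    (cq cl q.1 (q.2 + 1) = true ↔ ((cpt b n q).1 - (cpt b n q).2) % 2 = 1) := by
  unfold alv cq
  cases q.1
  · simp only [Bool.false_eq_true, if_false, beq_iff_eq]
    rw [← Bool.coe_iff_coe, decide_eq_true_eq]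
  · simp only [if_true, beq_iff_eq]
    rw [← Bool.coe_iff_coe, decide_eq_true_eq]

/-- the tiles of the rows far from the slit, on one side -/
def LamU (b : JBox) (n : ℤ) (M : Finset (Bool × ℕ)) (t : Bool) : Set (ℤ × ℤ) :=
  {e | ∃ x y, e = vt x y ∧ vt x y ∈ Lam b n M ∧ n ≤ rw_ t y}

/-- **The strand of the loose corner.** -/
theorem lo_path (h : JOk b n s x1 M v) (h4 : 4 ≤ n) (hw : ∀ x y, ¬ InQ b n x y → vt x y ∉ w)
    {q : Bool × ℕ} (hq : q ∈ M) (hcol : cq cl q.1 q.2 ≠ cq cl q.1 (q.2 + 1)) :
    ∃ e, e ≠ lo b n cl q ∧ IsEnd (SG (Lam b n M) (lt '' Dl s x1 v) (w ∪ Wl b n cl)) e ∧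
      (SG (LamU b n M q.1) (lt '' Dl s x1 v) (w ∪ Wl b n cl)).Reachable (lo b n cl q) e := by
  have hn : 0 < n := by omega
  have hK := h.idx q hq
  have hq0 : (0 : ℤ) ≤ q.2 := Int.natCast_nonneg _
  have hH : (1 : ℤ) ≤ b.H := by exact_mod_cast h.H0
  have a4 : 2 * n ≤ (b.H + q.2 + 1) * n := by nlinarith
  have a1 : ((b.H + q.2 : ℤ)) * n = (b.H + q.2 + 1) * n - n := by ring
  have a2 : ((b.H + q.2 + 2 : ℤ)) * n = (b.H + q.2 + 1) * n + n := by ring
  have N := fun x y => near_mem (cl := cl) h hw hq (x := x) (y := y)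
  have hdg := dgt_notMem h hq
  set px : ℤ := b.st q.2 * n with hpx
  set R : ℤ := (b.H + q.2 + 1) * n with hR
  -- one step of the path
  have step : ∀ {x y : ℤ} {c d : ℤ × ℤ}, vt x y ∈ Lam b n M → n ≤ rw_ q.1 y →
      TJ (lt '' Dl s x1 v) (w ∪ Wl b n cl) (vt x y) c d →
      (SG (LamU b n M q.1) (lt '' Dl s x1 v) (w ∪ Wl b n cl)).Reachable c d := by
    intro x y c d h1 h2 h3
    exact Adj.reachable ⟨_, ⟨x, y, rfl, h1, h2⟩, h3⟩
  rcases hc : q.1 with _ | _
  · -- floor
    have er : ∀ y, rw_ q.1 y = -y - 1 := fun y => by unfold rw_; rw [hc]; simp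
    have ed : dgt b n q = (px - 1, -R - 1) := by
      unfold dgt cpt; rw [hc]; simp only [Bool.false_eq_true, if_false]; rfl
    have ec : cpt b n q = (px, -R) := by
      unfold cpt; rw [hc]; simp only [Bool.false_eq_true, if_false]; rfl
    rw [hc] at hcol
    rw [ed] at hdg
    simp only at hdg
    have key : ∀ x y, ((x < px ∧ R - 1 ≤ -y - 1) ∨ (x ≤ px ∧ R ≤ -y - 1)) → px - 3 ≤ x →
        -y - 1 ≤ R + 1 → (x, y) ≠ (px - 1, -R - 1) → vt x y ∈ Lam b n M ∧ vt x y ∉ lt '' Dl s x1 v ∧
      (vt x y ∈ w ∪ Wl b n cl ↔ cq cl false (if -y - 1 < R then q.2 else q.2 + 1) = true) := by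
      intro x y k1 k2 k3 k4
      have := N x y
      rw [er, ed, hc] at this
      exact this k1 k2 k3 k4
    by_cases ha : alv b n cl q = true
    · -- loose: f2
      have e0 : lo b n cl q = hz (px - 1) (-R) := by
        unfold lo; rw [if_pos ha, f2_eq, ec]
      have ha' := (alv_iff q).1 ha
      rw [hc, ec] at ha'
      simp only at ha'
      have c1 : cq cl false q.2 = true ↔ (px + R) % 2 = 0 := by
        have : cq cl false q.2 = true ↔ ¬ (cq cl false (q.2 + 1) = true) := by
          cases h1 : cq cl false q.2 <;> cases h2 : cq cl false (q.2 + 1) <;> simp_all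
        rw [this, ha']
        omega
      have c2 : cq cl false (q.2 + 1) = true ↔ (px + R) % 2 = 1 := by rw [ha']; omega
      obtain ⟨m1, d1, l1⟩ := key (px - 1) (-R) (Or.inl (by omega)) (by omega) (by omega)
        (fun e => by have := congrArg Prod.snd e; simp only at this; omega)
      obtain ⟨m2, d2, l2⟩ := key (px - 2) (-R) (Or.inl (by omega)) (by omega) (by omega)
        (fun e => by have := congrArg Prod.snd e; simp only at this; omega)
      obtain ⟨m3, d3, l3⟩ := key (px - 2) (-R - 1) (Or.inl (by omega)) (by omega) (by omega)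
        (fun e => by have := congrArg Prod.fst e; simp only at this; omega)
      obtain ⟨m4, d4, l4⟩ := key (px - 3) (-R - 1) (Or.inl (by omega)) (by omega) (by omega)
        (fun e => by have := congrArg Prod.fst e; simp only at this; omega)
      obtain ⟨m5, d5, l5⟩ := key (px - 3) (-R) (Or.inl (by omega)) (by omega) (by omega)
        (fun e => by have := congrArg Prod.snd e; simp only at this; omega)
      rw [if_pos (by omega), c1] at l1 l2 l5
      rw [if_neg (by omega), c2] at l3 l4
      have p1 := (arc1 (w := w ∪ Wl b n cl) d1 (by rw [l1]; omega)).1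
      have p2 := (arc0 (w := w ∪ Wl b n cl) d2 (by rw [l2]; omega)).2
      have p3 := (arc0 (w := w ∪ Wl b n cl) d3 (by rw [l3]; omega)).1
      have p4 := (arc1 (w := w ∪ Wl b n cl) d4 (by rw [l4]; omega)).2
      have p5 := (arc1 (w := w ∪ Wl b n cl) d5 (by rw [l5]; omega)).1
      refine ⟨vt (px - 3) (-R), by rw [e0]; exact (hz_ne_vt _ _ _ _).symm, ?_, ?_⟩
      · refine isEnd_vt (Or.inr (Or.inl ?_))
        rw [mem_Lam_vt]
        rintro (h1 | ⟨⟨-, i, j, hi, hj, h1⟩, -⟩)
        · exact near_mark h (q := q) (Or.inl (by omega)) (by rw [er, a1]; omega) (by rw [er, a2]; omega) h1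
        · rw [abs_le] at hi hj
          refine near_mark h (q := q) (Or.inl (by omega)) ?_ ?_ h1
          · rw [er, a1]; omega
          · rw [er, a2]; omega
      · rw [e0]
        have q1 := step m1 (by rw [er]; omega) p1
        have q2 := step m2 (by rw [er]; omega) p2
        have q3 := step m3 (by rw [er]; omega) p3
        have q4 := step m4 (by rw [er]; omega) p4
        have q5 := step m5 (by rw [er]; omega) p5
        rw [show px - 2 + 1 = px - 1 by ring] at q2
        rw [show -R - 1 + 1 = -R by ring] at q3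
        rw [show px - 3 + 1 = px - 2 by ring, show -R - 1 + 1 = -R by ring] at q4
        rw [hc] at q1 q2 q3 q4 q5
        exact q1.symm.trans (q2.symm.trans (q3.symm.trans (q4.symm.trans q5.symm)))
    · -- loose: f1
      have e0 : lo b n cl q = vt px (-R - 1) := by
        unfold lo; rw [if_neg ha, f1_eq, ed]
      have ha' := (alv_iff (b := b) (n := n) (cl := cl) q).not.1 ha
      rw [hc, ec] at ha'
      simp only at ha'
      have c2 : cq cl false (q.2 + 1) = true ↔ (px + R) % 2 = 0 := by
        constructor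
        · intro h1; by_contra h2; exact ha' ⟨fun _ => by omega, fun _ => h1⟩
        · intro h1; by_contra h2; exact ha' ⟨fun h3 => absurd h3 h2, fun h3 => by omega⟩
      obtain ⟨m1, d1, l1⟩ := key px (-R - 1) (Or.inr (by omega)) (by omega) (by omega)
        (fun e => by have := congrArg Prod.fst e; simp only at this; omega)
      obtain ⟨m2, d2, l2⟩ := key px (-R - 2) (Or.inr (by omega)) (by omega) (by omega)
        (fun e => by have := congrArg Prod.fst e; simp only at this; omega)
      obtain ⟨m3, d3, l3⟩ := key (px - 1) (-R - 2) (Or.inr (by omega)) (by omega) (by omega)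
        (fun e => by have := congrArg Prod.snd e; simp only at this; omega)
      rw [if_neg (by omega), c2] at l1 l2 l3
      have p1 := (arc1 (w := w ∪ Wl b n cl) d1 (by rw [l1]; omega)).1
      have p2 := (arc0 (w := w ∪ Wl b n cl) d2 (by rw [l2]; omega)).1
      have p3 := (arc1 (w := w ∪ Wl b n cl) d3 (by rw [l3]; omega)).2
      refine ⟨hz (px - 1) (-R - 1), by rw [e0]; exact hz_ne_vt _ _ _ _, ?_, ?_⟩
      · exact isEnd_hz (Or.inl hdg)
      · rw [e0]
        have q1 := step m1 (by rw [er]; omega) p1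
        have q2 := step m2 (by rw [er]; omega) p2
        have q3 := step m3 (by rw [er]; omega) p3
        rw [show -R - 2 + 1 = -R - 1 by ring] at q2
        rw [show -R - 2 + 1 = -R - 1 by ring, show px - 1 + 1 = px by ring] at q3
        rw [hc] at q1 q2 q3
        exact q1.trans (q2.symm.trans q3.symm)
  · -- ceiling
    have er : ∀ y, rw_ q.1 y = y := fun y => by unfold rw_; rw [hc]; simp
    have ed : dgt b n q = (px - 1, R) := by
      unfold dgt cpt; rw [hc]; simp only [if_true]; rfl
    have ec : cpt b n q = (px, R) := by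
      unfold cpt; rw [hc]; simp only [if_true]; rfl
    rw [hc] at hcol
    rw [ed] at hdg
    simp only at hdg
    have key : ∀ x y, ((x < px ∧ R - 1 ≤ y) ∨ (x ≤ px ∧ R ≤ y)) → px - 3 ≤ x →
        y ≤ R + 1 → (x, y) ≠ (px - 1, R) → vt x y ∈ Lam b n M ∧ vt x y ∉ lt '' Dl s x1 v ∧
      (vt x y ∈ w ∪ Wl b n cl ↔ cq cl true (if y < R then q.2 else q.2 + 1) = true) := by
      intro x y k1 k2 k3 k4
      have := N x y
      rw [er, ed, hc] at this
      exact this k1 k2 k3 k4
    by_cases ha : alv b n cl q = true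
    · -- loose: f2
      have e0 : lo b n cl q = hz (px - 1) R := by
        unfold lo; rw [if_pos ha, f2_eq, ec]
      have ha' := (alv_iff q).1 ha
      rw [hc, ec] at ha'
      simp only at ha'
      have c1 : cq cl true q.2 = true ↔ (px - R) % 2 = 0 := by
        have : cq cl true q.2 = true ↔ ¬ (cq cl true (q.2 + 1) = true) := by
          cases h1 : cq cl true q.2 <;> cases h2 : cq cl true (q.2 + 1) <;> simp_all
        rw [this, ha']
        omega
      obtain ⟨m1, d1, l1⟩ := key (px - 1) (R - 1) (Or.inl (by omega)) (by omega) (by omega)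
        (fun e => by have := congrArg Prod.snd e; simp only at this; omega)
      obtain ⟨m2, d2, l2⟩ := key (px - 2) (R - 1) (Or.inl (by omega)) (by omega) (by omega)
        (fun e => by have := congrArg Prod.snd e; simp only at this; omega)
      obtain ⟨m3, d3, l3⟩ := key (px - 2) R (Or.inl (by omega)) (by omega) (by omega)
        (fun e => by have := congrArg Prod.fst e; simp only at this; omega)
      obtain ⟨m4, d4, l4⟩ := key (px - 3) R (Or.inl (by omega)) (by omega) (by omega)
        (fun e => by have := congrArg Prod.fst e; simp only at this; omega)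
      obtain ⟨m5, d5, l5⟩ := key (px - 3) (R - 1) (Or.inl (by omega)) (by omega) (by omega)
        (fun e => by have := congrArg Prod.snd e; simp only at this; omega)
      rw [if_pos (by omega), c1] at l1 l2 l5
      rw [if_neg (by omega), ha'] at l3 l4
      have p1 := (arc0 (w := w ∪ Wl b n cl) d1 (by rw [l1]; omega)).1
      have p2 := (arc1 (w := w ∪ Wl b n cl) d2 (by rw [l2]; omega)).2
      have p3 := (arc1 (w := w ∪ Wl b n cl) d3 (by rw [l3]; omega)).1
      have p4 := (arc0 (w := w ∪ Wl b n cl) d4 (by rw [l4]; omega)).2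
      have p5 := (arc0 (w := w ∪ Wl b n cl) d5 (by rw [l5]; omega)).1
      refine ⟨vt (px - 3) (R - 1), by rw [e0]; exact (hz_ne_vt _ _ _ _).symm, ?_, ?_⟩
      · refine isEnd_vt (Or.inr (Or.inl ?_))
        rw [mem_Lam_vt]
        rintro (h1 | ⟨⟨-, i, j, hi, hj, h1⟩, -⟩)
        · exact near_mark h (q := q) (Or.inl (by omega)) (by rw [er, a1]; omega) (by rw [er, a2]; omega) h1
        · rw [abs_le] at hi hj
          refine near_mark h (q := q) (Or.inl (by omega)) ?_ ?_ h1
          · rw [er, a1]; omega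
          · rw [er, a2]; omega
      · rw [e0]
        have q1 := step m1 (by rw [er]; omega) p1
        have q2 := step m2 (by rw [er]; omega) p2
        have q3 := step m3 (by rw [er]; omega) p3
        have q4 := step m4 (by rw [er]; omega) p4
        have q5 := step m5 (by rw [er]; omega) p5
        rw [show R - 1 + 1 = R by ring] at q1
        rw [show px - 2 + 1 = px - 1 by ring, show R - 1 + 1 = R by ring] at q2
        rw [show px - 3 + 1 = px - 2 by ring] at q4
        rw [show R - 1 + 1 = R by ring] at q5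
        rw [hc] at q1 q2 q3 q4 q5
        exact q1.symm.trans (q2.symm.trans (q3.symm.trans (q4.symm.trans q5.symm)))
    · -- loose: f1
      have e0 : lo b n cl q = vt px R := by
        unfold lo; rw [if_neg ha, f1_eq, ed]
      have ha' := (alv_iff (b := b) (n := n) (cl := cl) q).not.1 ha
      rw [hc, ec] at ha'
      simp only at ha'
      have c2 : cq cl true (q.2 + 1) = true ↔ (px - R) % 2 = 0 := by
        constructor
        · intro h1; by_contra h2; exact ha' ⟨fun _ => by omega, fun _ => h1⟩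
        · intro h1; by_contra h2; exact ha' ⟨fun h3 => absurd h3 h2, fun h3 => by omega⟩
      obtain ⟨m1, d1, l1⟩ := key px R (Or.inr (by omega)) (by omega) (by omega)
        (fun e => by have := congrArg Prod.fst e; simp only at this; omega)
      obtain ⟨m2, d2, l2⟩ := key px (R + 1) (Or.inr (by omega)) (by omega) (by omega)
        (fun e => by have := congrArg Prod.fst e; simp only at this; omega)
      obtain ⟨m3, d3, l3⟩ := key (px - 1) (R + 1) (Or.inr (by omega)) (by omega) (by omega)
        (fun e => by have := congrArg Prod.snd e; simp only at this; omega)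
      rw [if_neg (by omega), c2] at l1 l2 l3
      have p1 := (arc0 (w := w ∪ Wl b n cl) d1 (by rw [l1])).1
      have p2 := (arc1 (w := w ∪ Wl b n cl) d2 (by rw [l2]; omega)).1
      have p3 := (arc0 (w := w ∪ Wl b n cl) d3 (by rw [l3]; omega)).2
      refine ⟨hz (px - 1) (R + 1), by rw [e0]; exact hz_ne_vt _ _ _ _, ?_, ?_⟩
      · exact isEnd_hz (Or.inr (by rw [show R + 1 - 1 = R by ring]; exact hdg))
      · rw [e0]
        have q1 := step m1 (by rw [er]; omega) p1
        have q2 := step m2 (by rw [er]; omega) p2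
        have q3 := step m3 (by rw [er]; omega) p3
        rw [show px - 1 + 1 = px by ring] at q3
        rw [hc] at q1 q2 q3
        exact q1.trans (q2.symm.trans q3.symm)

end layer

end Pool.Agent.H73.W
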