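import Pool.Agent.H73.W.JNames0

set_option autoImplicit false
open Finset

/-! # J3: the ends of the cut graph

Tiles next to the corners `f1`, `f2` of the marks, to the moving end, to the end `mc` and to the deleted
row; ends and neighbours in the graphs of `LamC`, `LamT`, `Lam`. -/

namespace Pool.Agent.H73.W

open Pool.Agent.H33.Q1 Pool.Agent.H6.W Pool.Agent.H50.W Pool.Agent.H61.W Pool.Agent.H13.W Pool.Agent.H58.W
open Pool.Agent.H99.W (IsEnd)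
open Pool.Agent.H47.W (hz vt vt_inj hz_inj hz_ne_vt vt_odd eW_vt eE_vt eS_vt eN_vt tiles_vt tiles_hz)
open Pool.Agent.H16.W (InQ_col InQ_mid dgt_row mem_RC)

/-- the deleted tiles -/
def Dl (s : Bool) (x1 : ℤ) (v : Option (ℤ × ℤ)) : Set (ℤ × ℤ) := strO v ∪ slD s x1

section geo

variable {b : JBox} {n : ℤ} {s : Bool} {x1 : ℤ} {M : Finset (Bool × ℕ)} {v : Option (ℤ × ℤ)}

lemma mem_slD {x y : ℤ} : (x, y) ∈ slD s x1 ↔ y = Yr s ∧ x < x1 := Iff.rfl

lemma mem_Dl {x y : ℤ} : (x, y) ∈ Dl s x1 v ↔ (∃ u ∈ v, y = u.2 ∧ u.1 ≤ x) ∨ (y = Yr s ∧ x < x1) := by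
  unfold Dl
  rw [Set.mem_union, mem_slD]
  cases v with
  | none => simp [strO]
  | some u => simp [strO, strD]

lemma mem_LamC {x y : ℤ} : vt x y ∈ LamC b n M s x1 ↔ vt x y ∈ LamT b n M ∧ ¬ (y = Yr s ∧ x < x1) := by
  unfold LamC
  rw [Set.mem_sdiff, vt_mem_lt, mem_slD]

/-- the corner of the mark -/
lemma cpt_fst (q : Bool × ℕ) : (cpt b n q).1 = b.st q.2 * n := rfl

lemma f1_eq (q : Bool × ℕ) : f1 b n q = vt (b.st q.2 * n) (dgt b n q).2 := by
  unfold f1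
  rw [show lt (dgt b n q) = vt (dgt b n q).1 (dgt b n q).2 from rfl, eE_vt]
  unfold dgt
  simp only [sub_add_cancel]
  rfl

lemma f2_eq (q : Bool × ℕ) : f2 b n q = hz (b.st q.2 * n - 1) (cpt b n q).2 := by
  unfold f2
  rw [show lt (dgt b n q) = vt (dgt b n q).1 (dgt b n q).2 from rfl, eS_vt, eN_vt]
  unfold dgt
  cases q.1
  · simp only [Bool.false_eq_true, if_false, sub_add_cancel]
    rfl
  · simp only [if_true]
    rfl

/-- the second tile of `f2` -/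
def t2 (b : JBox) (n : ℤ) (q : Bool × ℕ) : ℤ := if q.1 then (cpt b n q).2 - 1 else (cpt b n q).2

/-- rows of the tiles near a mark -/
lemma mark_rows (h : JOk b n s x1 M v) {q : Bool × ℕ} (hq : q ∈ M) :
    (q.1 = true ∧ (cpt b n q).2 = (b.H + q.2 + 1) * n ∧ (dgt b n q).2 = (b.H + q.2 + 1) * n ∧
      t2 b n q = (b.H + q.2 + 1) * n - 1) ∨
    (q.1 = false ∧ (cpt b n q).2 = -((b.H + q.2 + 1) * n) ∧ (dgt b n q).2 = -((b.H + q.2 + 1) * n) - 1 ∧
      t2 b n q = -((b.H + q.2 + 1) * n)) := by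
  unfold t2 dgt cpt
  rcases hc : q.1 <;> simp

lemma dgt_fst (q : Bool × ℕ) : (dgt b n q).1 = b.st q.2 * n - 1 := rfl

/-- the row above the ceiling -/
lemma InQ_dgt_row (h : JOk b n s x1 M v) {q : Bool × ℕ} (hq : q ∈ M) (x : ℤ) :
    InQ b n x (dgt b n q).2 ↔ q.2 + 1 < b.K ∧ b.st (q.2 + 1) * n ≤ x ∧ x < b.X * n := by
  have hn : 0 < n := by have := h.n2; omega
  refine InQ_step h (i := q.2 + 1) ?_
  rcases mark_rows h hq with ⟨-, -, h3, -⟩ | ⟨-, -, h3, -⟩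
  · left
    rw [h3]
    push_cast
    constructor
    · exact le_of_eq (by ring)
    · nlinarith
  · right
    rw [h3]
    push_cast
    constructor
    · nlinarith
    · nlinarith

/-- the row below the ceiling -/
lemma InQ_t2_row (h : JOk b n s x1 M v) {q : Bool × ℕ} (hq : q ∈ M) (x : ℤ) :
    InQ b n x (t2 b n q) ↔ q.2 < b.K ∧ b.st q.2 * n ≤ x ∧ x < b.X * n := by
  have hn : 0 < n := by have := h.n2; omega
  refine InQ_step h (i := q.2) ?_
  rcases mark_rows h hq with ⟨-, -, -, h3⟩ | ⟨-, -, -, h3⟩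
  · left
    rw [h3]
    constructor
    · nlinarith
    · nlinarith
  · right
    rw [h3]
    constructor
    · exact le_refl _
    · nlinarith

lemma step_lt (h : JOk b n s x1 M v) {i : ℕ} (hi : i + 1 < b.K) : b.st i * n < b.st (i + 1) * n := by
  have := h.mono i (i + 1) (by omega) hi
  have := h.n2
  nlinarith

lemma st_bounds (h : JOk b n s x1 M v) {i : ℕ} (hi : i < b.K) :
    -(b.X * n) < b.st i * n ∧ b.st i * n < b.X * n := by
  have h1 := h.st_lo i hi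
  have h2 := h.st_hi i hi
  have := h.n2
  constructor <;> nlinarith

/-- the diagonal tiles are missing -/
lemma dgt_notMem (h : JOk b n s x1 M v) {q : Bool × ℕ} (hq : q ∈ M) :
    vt (b.st q.2 * n - 1) (dgt b n q).2 ∉ Lam b n M := by
  rw [mem_Lam_vt, InQ_dgt_row h hq]
  rintro (⟨h1, h2, h3⟩ | ⟨-, h2⟩)
  · have := step_lt h h1
    omega
  · exact h2 q hq rfl

/-- the tile of the ceiling at a mark -/
lemma t1_mem (h : JOk b n s x1 M v) {q : Bool × ℕ} (hq : q ∈ M) :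
    vt (b.st q.2 * n) (dgt b n q).2 ∈ LamT b n M := by
  have hn : 0 < n := by have := h.n2; omega
  have hK := h.idx q hq
  have hb := st_bounds h hK
  rw [mem_LamT]
  constructor
  · have e : ∃ j : ℤ, |j| ≤ 1 ∧ (dgt b n q).2 + j = t2 b n q := by
      rcases mark_rows h hq with ⟨-, -, h3, h4⟩ | ⟨-, -, h3, h4⟩
      · exact ⟨-1, by norm_num, by rw [h3, h4]; ring⟩
      · exact ⟨1, by norm_num, by rw [h3, h4]; ring⟩
    obtain ⟨j, hj, e⟩ := e
    refine ⟨0, j, by norm_num, hj, ?_⟩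
    rw [e, add_zero, InQ_t2_row h hq]
    exact ⟨hK, le_refl _, hb.2⟩
  · intro c hc e
    have e1 := congrArg Prod.fst e
    have e2 := congrArg Prod.snd e
    rw [dgt_fst] at e1
    simp only at e1 e2
    have : q.2 = c.2 := by
      have hq' : (0 : ℤ) ≤ q.2 := Int.natCast_nonneg _
      have hc' : (0 : ℤ) ≤ c.2 := Int.natCast_nonneg _
      have hH : (0 : ℤ) < b.H := by exact_mod_cast h.H0
      have k1 : 0 < (b.H + q.2 + 1) * n := by positivity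
      have k2 : 0 < (b.H + c.2 + 1) * n := by positivity
      have key : ((b.H + q.2 + 1) * n : ℤ) = (b.H + c.2 + 1) * n := by
        rcases mark_rows h hq with ⟨-, -, h3, h4⟩ | ⟨-, -, h3, h4⟩ <;>
          rcases mark_rows h hc with ⟨-, -, h3', h4'⟩ | ⟨-, -, h3', h4'⟩ <;> omega
      have := mul_right_cancel₀ hn.ne' key
      omega
    rw [this] at e1
    omega

/-- the tile of the riser at a mark -/
lemma t2_mem (h : JOk b n s x1 M v) {q : Bool × ℕ} (hq : q ∈ M) :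
    vt (b.st q.2 * n - 1) (t2 b n q) ∈ LamT b n M := by
  have hn2 := h.n2
  have hn : 0 < n := by omega
  have hK := h.idx q hq
  have hb := st_bounds h hK
  rw [mem_LamT]
  constructor
  · refine ⟨1, 0, by norm_num, by norm_num, ?_⟩
    rw [add_zero, sub_add_cancel, InQ_t2_row h hq]
    exact ⟨hK, le_refl _, hb.2⟩
  · intro c hc e
    have e2 := congrArg Prod.snd e
    simp only at e2
    have hq' : (0 : ℤ) ≤ q.2 := Int.natCast_nonneg _
    have hc' : (0 : ℤ) ≤ c.2 := Int.natCast_nonneg _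
    have hH : (0 : ℤ) < b.H := by exact_mod_cast h.H0
    have k1 : 0 < (b.H + q.2) * n := by positivity
    have k2 : 0 < (b.H + c.2) * n := by positivity
    -- the two rows are in different cells modulo `n`
    have key : ((b.H + q.2 + 1) * n : ℤ) - 1 = (b.H + c.2 + 1) * n := by
      rcases mark_rows h hq with ⟨-, -, h3, h4⟩ | ⟨-, -, h3, h4⟩ <;>
        rcases mark_rows h hc with ⟨-, -, h3', h4'⟩ | ⟨-, -, h3', h4'⟩ <;> nlinarith
    have : (((q.2 : ℤ) - c.2) * n) = 1 := by linarith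
    have h1 : n ∣ 1 := Dvd.intro_left _ this
    have h2 := Int.le_of_dvd one_pos h1
    omega

/-- tiles at a mark are not deleted -/
lemma t1_notDl (h : JOk b n s x1 M v) {q : Bool × ℕ} (hq : q ∈ M) :
    (b.st q.2 * n, (dgt b n q).2) ∉ Dl s x1 v := by
  have hn : 0 < n := by have := h.n2; omega
  rw [mem_Dl]
  rintro (⟨u, hu, h1, h2⟩ | ⟨h1, -⟩)
  · have h3 := h.vQ u hu
    rw [← h1, InQ_dgt_row h hq] at h3
    have := step_lt h h3.1
    omega
  · have h2 := dgt_row (b := b) hn h.H0 q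
    have := h.n2
    unfold Yr at h1
    split_ifs at h1 <;> omega

lemma t2_notDl (h : JOk b n s x1 M v) {q : Bool × ℕ} (hq : q ∈ M) :
    (b.st q.2 * n - 1, t2 b n q) ∉ Dl s x1 v := by
  have hn : 0 < n := by have := h.n2; omega
  rw [mem_Dl]
  rintro (⟨u, hu, h1, h2⟩ | ⟨h1, -⟩)
  · have h3 := h.vQ u hu
    rw [← h1, InQ_t2_row h hq] at h3
    omega
  · have hq' : (0 : ℤ) ≤ q.2 := Int.natCast_nonneg _
    have hH : (0 : ℤ) < b.H := by exact_mod_cast h.H0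
    have k1 : 0 < (b.H + q.2) * n := by positivity
    have := h.n2
    unfold Yr at h1
    rcases mark_rows h hq with ⟨-, -, -, h3⟩ | ⟨-, -, -, h3⟩ <;> rw [h3] at h1 <;>
      split_ifs at h1 <;> nlinarith

lemma Yr_cases (s : Bool) : Yr s = 0 ∨ Yr s = -1 := by
  unfold Yr; cases s <;> simp

/-- tiles near the slit -/
lemma slit_mem (h : JOk b n s x1 M v) {x y : ℤ} (h1 : Yr s - 1 ≤ y) (h2 : y ≤ Yr s + 1) :
    vt x y ∈ LamT b n M ↔ -(b.X * n) - 1 ≤ x ∧ x ≤ b.X * n := by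
  have := h.n2
  rcases Yr_cases s with e | e <;> rw [e] at h1 h2
  · exact mem_LamT_mid h (by omega) (by omega)
  · exact mem_LamT_mid h (by omega) (by omega)

lemma up_mem (h : JOk b n s x1 M v) {x : ℤ} (h1 : -(b.X * n) - 1 ≤ x) (h2 : x < x1) :
    vt x (Yr s + 1) ∈ LamC b n M s x1 := by
  have := h.hi
  rw [mem_LamC, slit_mem h (by omega) (by omega)]
  omega

lemma dn_mem (h : JOk b n s x1 M v) {x : ℤ} (h1 : -(b.X * n) - 1 ≤ x) (h2 : x < x1) :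
    vt x (Yr s - 1) ∈ LamC b n M s x1 := by
  have := h.hi
  rw [mem_LamC, slit_mem h (by omega) (by omega)]
  omega

lemma row_notMem {x : ℤ} (h2 : x < x1) : vt x (Yr s) ∉ LamC b n M s x1 := by
  rw [mem_LamC]
  exact fun h => h.2 ⟨rfl, h2⟩

lemma mc_mem (h : JOk b n s x1 M v) : vt x1 (Yr s) ∈ LamC b n M s x1 := by
  have := h.hi
  have := h.lo
  rw [mem_LamC, slit_mem h (by omega) (by omega)]
  omega

lemma mc_notDl (h : JOk b n s x1 M v) : (x1, Yr s) ∉ Dl s x1 v := by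
  rw [mem_Dl]
  rintro (⟨u, hu, h1, h2⟩ | ⟨-, h1⟩)
  · have := h.vx u hu h1.symm
    omega
  · omega

lemma mc_Dl : (x1 - 1, Yr s) ∈ Dl s x1 v := by
  rw [mem_Dl]
  exact Or.inr ⟨rfl, by omega⟩

lemma zc_mem (h : JOk b n s x1 M v) {u : ℤ × ℤ} (hu : u ∈ v) :
    vt (u.1 - 1) u.2 ∈ LamC b n M s x1 := by
  have hn : 0 < n := by have := h.n2; omega
  rw [mem_LamC, mem_LamT]
  refine ⟨⟨⟨1, 0, by norm_num, by norm_num, ?_⟩, ?_⟩, ?_⟩
  · rw [sub_add_cancel, add_zero]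
    exact h.vQ u hu
  · intro c hc e
    have e1 := congrArg Prod.fst e
    have e2 := congrArg Prod.snd e
    rw [dgt_fst] at e1
    simp only at e1 e2
    have h3 := h.vQ u hu
    rw [e2, InQ_dgt_row h hc] at h3
    have := step_lt h h3.1
    omega
  · rintro ⟨h1, h2⟩
    have := h.vx u hu h1
    omega

lemma zc_notDl (h : JOk b n s x1 M v) {u : ℤ × ℤ} (hu : u ∈ v) : (u.1 - 1, u.2) ∉ Dl s x1 v := by
  rw [mem_Dl]
  rintro (⟨u', hu', -, h2⟩ | ⟨h1, h2⟩)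
  · have : u' = u := Option.mem_unique hu' hu
    subst this
    omega
  · have := h.vx u hu h1
    omega

lemma zc_Dl {u : ℤ × ℤ} (hu : u ∈ v) : (u.1, u.2) ∈ Dl s x1 v := by
  rw [mem_Dl]
  exact Or.inl ⟨u, hu, rfl, le_refl _⟩

lemma LamC_le : LamC b n M s x1 ⊆ LamT b n M := Set.diff_subset

lemma marks_LamC (h : JOk b n s x1 M v) {q : Bool × ℕ} (hq : q ∈ M) :
    vt (b.st q.2 * n) (dgt b n q).2 ∈ LamC b n M s x1 ∧
      vt (b.st q.2 * n - 1) (t2 b n q) ∈ LamC b n M s x1 := by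
  constructor
  · rw [mem_LamC]
    refine ⟨t1_mem h hq, fun h' => t1_notDl h hq ?_⟩
    rw [mem_Dl]
    exact Or.inr h'
  · rw [mem_LamC]
    refine ⟨t2_mem h hq, fun h' => t2_notDl h hq ?_⟩
    rw [mem_Dl]
    exact Or.inr h'

/-! ### Ends and neighbours -/

variable {Λ : Set (ℤ × ℤ)} {w : Finset (ℤ × ℤ)}

lemma zc_eq (u : ℤ × ℤ) : zc u = vt u.1 u.2 := rfl

lemma mc_eq : mc s x1 = vt x1 (Yr s) := rfl

lemma Sn_eq (x : ℤ) : Sn s x = hz x (Yr s) := by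
  unfold Sn
  rw [show lt (x, Yr s) = vt x (Yr s) from rfl, eS_vt]

lemma Nn_eq (x : ℤ) : Nn s x = hz x (Yr s + 1) := by
  unfold Nn
  rw [show lt (x, Yr s) = vt x (Yr s) from rfl, eN_vt]

lemma end_mc : IsEnd (SG Λ (lt '' Dl s x1 v) w) (mc s x1) := by
  rw [mc_eq]
  exact isEnd_vt (Or.inr (Or.inr (vt_mem_lt.2 mc_Dl)))

lemma end_zc {u : ℤ × ℤ} (hu : u ∈ v) : IsEnd (SG Λ (lt '' Dl s x1 v) w) (zc u) := by
  rw [zc_eq]
  exact isEnd_vt (Or.inl (Or.inr (vt_mem_lt.2 (zc_Dl hu))))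

lemma end_f1 (h : JOk b n s x1 M v) (hΛ : Λ ⊆ Lam b n M) {D : Set (ℤ × ℤ)} {q : Bool × ℕ}
    (hq : q ∈ M) : IsEnd (SG Λ D w) (f1 b n q) := by
  rw [f1_eq]
  exact isEnd_vt (Or.inr (Or.inl fun h' => dgt_notMem h hq (hΛ h')))

lemma end_f2 (h : JOk b n s x1 M v) (hΛ : Λ ⊆ Lam b n M) {D : Set (ℤ × ℤ)} {q : Bool × ℕ}
    (hq : q ∈ M) : IsEnd (SG Λ D w) (f2 b n q) := by
  rw [f2_eq]
  refine isEnd_hz ?_
  have h1 := dgt_notMem h hq
  rcases mark_rows h hq with ⟨-, h3, h4, -⟩ | ⟨-, h3, h4, -⟩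
  · left
    intro h'
    rw [h4, ← h3] at h1
    exact h1 (hΛ h')
  · right
    intro h'
    rw [h4, ← h3] at h1
    exact h1 (hΛ h')

lemma end_fa (h : JOk b n s x1 M v) (hΛ : Λ ⊆ Lam b n M) {D : Set (ℤ × ℤ)} {q : Bool × ℕ} {cl : Cl}
    (hq : q ∈ M) : IsEnd (SG Λ D w) (fa b n cl q) := by
  unfold fa
  split_ifs
  · exact end_f1 h hΛ hq
  · exact end_f2 h hΛ hq

lemma end_S {x : ℤ} {D : Set (ℤ × ℤ)} (hx : x < x1) :
    IsEnd (SG (LamC b n M s x1) D w) (Sn s x) := by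
  rw [Sn_eq]
  exact isEnd_hz (Or.inl (row_notMem hx))

lemma end_N {x : ℤ} {D : Set (ℤ × ℤ)} (hx : x < x1) :
    IsEnd (SG (LamC b n M s x1) D w) (Nn s x) := by
  rw [Nn_eq]
  refine isEnd_hz (Or.inr ?_)
  rw [add_sub_cancel_right]
  exact row_notMem hx

lemma nb_S (h : JOk b n s x1 M v) {x : ℤ} {D : Set (ℤ × ℤ)} (h1 : -(b.X * n) - 1 ≤ x) (hx : x < x1) :
    ∃ d, (SG (LamC b n M s x1) D w).Adj (Sn s x) d := by
  rw [Sn_eq]
  exact nb_hz (Or.inr (dn_mem h h1 hx))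

lemma nb_N (h : JOk b n s x1 M v) {x : ℤ} {D : Set (ℤ × ℤ)} (h1 : -(b.X * n) - 1 ≤ x) (hx : x < x1) :
    ∃ d, (SG (LamC b n M s x1) D w).Adj (Nn s x) d := by
  rw [Nn_eq]
  exact nb_hz (Or.inl (up_mem h h1 hx))

lemma nb_mc (h : JOk b n s x1 M v) (hΛ : LamC b n M s x1 ⊆ Λ) :
    ∃ d, (SG Λ (lt '' Dl s x1 v) w).Adj (mc s x1) d := by
  rw [mc_eq]
  exact nb_vt (Or.inl ⟨hΛ (mc_mem h), fun h' => mc_notDl h (vt_mem_lt.1 h')⟩)

lemma nb_zc (h : JOk b n s x1 M v) (hΛ : LamC b n M s x1 ⊆ Λ) {u : ℤ × ℤ} (hu : u ∈ v) :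
    ∃ d, (SG Λ (lt '' Dl s x1 v) w).Adj (zc u) d := by
  rw [zc_eq]
  exact nb_vt (Or.inr ⟨hΛ (zc_mem h hu), fun h' => zc_notDl h hu (vt_mem_lt.1 h')⟩)

lemma nb_f1 (h : JOk b n s x1 M v) (hΛ : LamC b n M s x1 ⊆ Λ) {q : Bool × ℕ} (hq : q ∈ M) :
    ∃ d, (SG Λ (lt '' Dl s x1 v) w).Adj (f1 b n q) d := by
  rw [f1_eq]
  exact nb_vt (Or.inl ⟨hΛ (marks_LamC h hq).1, fun h' => t1_notDl h hq (vt_mem_lt.1 h')⟩)

lemma nb_f2 (h : JOk b n s x1 M v) (hΛ : LamC b n M s x1 ⊆ Λ) {D : Set (ℤ × ℤ)} {q : Bool × ℕ}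
    (hq : q ∈ M) : ∃ d, (SG Λ D w).Adj (f2 b n q) d := by
  rw [f2_eq]
  have h1 := (marks_LamC h hq).2
  rcases mark_rows h hq with ⟨-, h3, -, h4⟩ | ⟨-, h3, -, h4⟩
  · refine nb_hz (Or.inr ?_)
    rw [h4] at h1
    rw [h3]
    exact hΛ h1
  · refine nb_hz (Or.inl ?_)
    rw [h4] at h1
    rw [h3]
    exact hΛ h1

lemma nb_fa (h : JOk b n s x1 M v) (hΛ : LamC b n M s x1 ⊆ Λ) {q : Bool × ℕ} {cl : Cl} (hq : q ∈ M) :
    ∃ d, (SG Λ (lt '' Dl s x1 v) w).Adj (fa b n cl q) d := by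
  unfold fa
  split_ifs
  · exact nb_f1 h hΛ hq
  · exact nb_f2 h hΛ hq

/-! ### Different corners -/

lemma fa_ne {cl : Cl} (h : JOk b n s x1 M v) {q q' : Bool × ℕ} (hq : q ∈ M) (hq' : q' ∈ M)
    (e : fa b n cl q = fa b n cl q') : q = q' := by
  have hn : 0 < n := by have := h.n2; omega
  have k1 : (0 : ℤ) ≤ q.2 := Int.natCast_nonneg _
  have k2 : (0 : ℤ) ≤ q'.2 := Int.natCast_nonneg _
  have hH : (0 : ℤ) < b.H := by exact_mod_cast h.H0
  have p1 : 0 < (b.H + q.2 + 1) * n := by positivity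
  have p2 : 0 < (b.H + q'.2 + 1) * n := by positivity
  have fin : ((b.H + q.2 + 1) * n : ℤ) = (b.H + q'.2 + 1) * n → q.1 = q'.1 → q = q' := by
    intro e1 e2
    have := mul_right_cancel₀ hn.ne' e1
    exact Prod.ext e2 (by omega)
  unfold fa at e
  split_ifs at e with h1 h2 h2
  · rw [f1_eq, f1_eq] at e
    have e1 := (vt_inj e).2
    rcases mark_rows h hq with ⟨r0, -, r1, -⟩ | ⟨r0, -, r1, -⟩ <;>
      rcases mark_rows h hq' with ⟨r0', -, r1', -⟩ | ⟨r0', -, r1', -⟩ <;> rw [r1, r1'] at e1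
    · exact fin e1 (r0.trans r0'.symm)
    · exfalso; omega
    · exfalso; omega
    · exact fin (by omega) (r0.trans r0'.symm)
  · rw [f1_eq, f2_eq] at e
    exact absurd e.symm (hz_ne_vt _ _ _ _)
  · rw [f1_eq, f2_eq] at e
    exact absurd e (hz_ne_vt _ _ _ _)
  · rw [f2_eq, f2_eq] at e
    have e1 := (hz_inj e).2
    rcases mark_rows h hq with ⟨r0, r1, -, -⟩ | ⟨r0, r1, -, -⟩ <;>
      rcases mark_rows h hq' with ⟨r0', r1', -, -⟩ | ⟨r0', r1', -, -⟩ <;> rw [r1, r1'] at e1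
    · exact fin e1 (r0.trans r0'.symm)
    · exfalso; omega
    · exfalso; omega
    · exact fin (by omega) (r0.trans r0'.symm)

/-- the rows of the alive corner are far from the slit -/
lemma fa_far {cl : Cl} (h : JOk b n s x1 M v) {q : Bool × ℕ} (hq : q ∈ M) :
    (∃ x y, fa b n cl q = vt x y ∧ (y < -n ∨ n ≤ y) ∧ ∀ u ∈ v, u ≠ (x, y)) ∨
    (∃ x y, fa b n cl q = hz x y ∧ (y ≤ -(2 * n) ∨ 2 * n ≤ y)) := by
  have hn : 0 < n := by have := h.n2; omega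
  have k1 : (0 : ℤ) ≤ q.2 := Int.natCast_nonneg _
  have hH : (1 : ℤ) ≤ b.H := by exact_mod_cast h.H0
  have p1 : 2 * n ≤ (b.H + q.2 + 1) * n := by nlinarith
  unfold fa
  split_ifs
  · left
    refine ⟨_, _, f1_eq q, dgt_row hn h.H0 q, ?_⟩
    intro u hu e
    have h3 := h.vQ u hu
    rw [e] at h3
    simp only at h3
    rw [InQ_dgt_row h hq] at h3
    have := step_lt h h3.1
    omega
  · right
    refine ⟨_, _, f2_eq q, ?_⟩
    rcases mark_rows h hq with ⟨-, r1, -, -⟩ | ⟨-, r1, -, -⟩ <;> rw [r1]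
    · right; exact p1
    · left; omega

end geo

end Pool.Agent.H73.W
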