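import Pool.Agent.H73.W.JNames1

set_option autoImplicit false
open Finset

/-! # J3: the cut graph of the junction worlds

`IJ b n x1` : the cut tiles; `SJ`, `NJ` : their south and north sides; `FJ` : the four alive ends (start,
`mc`, alive corners of the two marks). `StartOK` : admissible starts (`zc u` in the worlds `GY`, the alive
corner of a third mark in the worlds `GP`). `cut_J` : the structure `Cut`. -/

namespace Pool.Agent.H73.W

open SimpleGraph
open Pool.Agent.H33.Q1 Pool.Agent.H6.W Pool.Agent.H50.W Pool.Agent.H61.W Pool.Agent.H13.W Pool.Agent.H58.W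
open Pool.Agent.H99.W (IsEnd)
open Pool.Agent.H47.W (hz vt vt_inj hz_inj hz_ne_vt vt_odd eW_vt eE_vt eS_vt eN_vt tiles_vt tiles_hz
  sg_partner exists_vt)
open Pool.Agent.H16.W (InQ_col InQ_mid dgt_row mem_RC)

section defs

variable (b : JBox) (n : ℤ)

/-- the cut tiles -/
abbrev IJ (x1 : ℤ) := {x // x ∈ Finset.Ico (-(b.X * n) - 1) x1}

/-- south sides of the cut tiles -/
def SJ (s : Bool) (x1 : ℤ) : IJ b n x1 → ℤ × ℤ := fun x => Sn s x.1

/-- north sides of the cut tiles -/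
def NJ (s : Bool) (x1 : ℤ) : IJ b n x1 → ℤ × ℤ := fun x => Nn s x.1

/-- the alive ends -/
def FJ (cl : Cl) (s : Bool) (x1 : ℤ) (q3 q4 : Bool × ℕ) (zz : ℤ × ℤ) : Fin 4 → ℤ × ℤ :=
  ![zz, mc s x1, fa b n cl q3, fa b n cl q4]

/-- admissible starts -/
def StartOK (cl : Cl) (M : Finset (Bool × ℕ)) (v : Option (ℤ × ℤ)) (q3 q4 : Bool × ℕ)
    (zz : ℤ × ℤ) : Prop :=
  (∃ u ∈ v, zz = zc u) ∨ (∃ q ∈ M, q ≠ q3 ∧ q ≠ q4 ∧ zz = fa b n cl q)

end defs

section cut

variable {b : JBox} {n : ℤ} {s : Bool} {x1 : ℤ} {M : Finset (Bool × ℕ)} {v : Option (ℤ × ℤ)}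
  {cl : Cl} {q3 q4 : Bool × ℕ} {zz : ℤ × ℤ} {w : Finset (ℤ × ℤ)}

lemma StartOK.isEnd (h : JOk b n s x1 M v) (hz : StartOK b n cl M v q3 q4 zz) {Λ : Set (ℤ × ℤ)}
    (hΛ : Λ ⊆ Lam b n M) : IsEnd (SG Λ (lt '' Dl s x1 v) w) zz := by
  rcases hz with ⟨u, hu, rfl⟩ | ⟨q, hq, -, -, rfl⟩
  · exact end_zc hu
  · exact end_fa h hΛ hq

lemma StartOK.nb (h : JOk b n s x1 M v) (hz : StartOK b n cl M v q3 q4 zz) {Λ : Set (ℤ × ℤ)}
    (hΛ : LamC b n M s x1 ⊆ Λ) : ∃ d, (SG Λ (lt '' Dl s x1 v) w).Adj zz d := by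
  rcases hz with ⟨u, hu, rfl⟩ | ⟨q, hq, -, -, rfl⟩
  · exact nb_zc h hΛ hu
  · exact nb_fa h hΛ hq

/-- no alive corner of a mark is `mc` or a side of a cut tile -/
lemma fa_ne_slit (h : JOk b n s x1 M v) {q : Bool × ℕ} (hq : q ∈ M) :
    fa b n cl q ≠ mc s x1 ∧ (∀ x, fa b n cl q ≠ Sn s x) ∧ ∀ x, fa b n cl q ≠ Nn s x := by
  have hn := h.n2
  rcases fa_far (cl := cl) h hq with ⟨x, y, e, h1, -⟩ | ⟨x, y, e, h1⟩
  · rw [e]
    refine ⟨?_, fun x' => ?_, fun x' => ?_⟩
    · rw [mc_eq]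
      intro e'
      have := (vt_inj e').2
      rcases Yr_cases s with e | e <;> rw [e] at this <;> omega
    · rw [Sn_eq]
      exact (hz_ne_vt _ _ _ _).symm
    · rw [Nn_eq]
      exact (hz_ne_vt _ _ _ _).symm
  · rw [e]
    refine ⟨?_, fun x' => ?_, fun x' => ?_⟩
    · rw [mc_eq]
      exact hz_ne_vt _ _ _ _
    · rw [Sn_eq]
      intro e'
      have := (hz_inj e').2
      rcases Yr_cases s with e | e <;> rw [e] at this <;> omega
    · rw [Nn_eq]
      intro e'
      have := (hz_inj e').2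
      rcases Yr_cases s with e | e <;> rw [e] at this <;> omega

lemma StartOK.ne_slit (h : JOk b n s x1 M v) (hz : StartOK b n cl M v q3 q4 zz) :
    zz ≠ mc s x1 ∧ (∀ x, zz ≠ Sn s x) ∧ ∀ x, zz ≠ Nn s x := by
  rcases hz with ⟨u, hu, rfl⟩ | ⟨q, hq, -, -, rfl⟩
  · rw [zc_eq]
    refine ⟨?_, fun x' => ?_, fun x' => ?_⟩
    · rw [mc_eq]
      intro e
      obtain ⟨e1, e2⟩ := vt_inj e
      have := h.vx u hu e2
      omega
    · rw [Sn_eq]
      exact (hz_ne_vt _ _ _ _).symm
    · rw [Nn_eq]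
      exact (hz_ne_vt _ _ _ _).symm
  · exact fa_ne_slit h hq

lemma StartOK.ne_fa (h : JOk b n s x1 M v) (hz : StartOK b n cl M v q3 q4 zz) {q : Bool × ℕ}
    (hq : q ∈ M) (hq' : q = q3 ∨ q = q4) : zz ≠ fa b n cl q := by
  rcases hz with ⟨u, hu, rfl⟩ | ⟨q', hq1, h3, h4, rfl⟩
  · rw [zc_eq]
    rcases fa_far (cl := cl) h hq with ⟨x, y, e, -, h1⟩ | ⟨x, y, e, -⟩
    · rw [e]
      intro e'
      obtain ⟨e1, e2⟩ := vt_inj e'
      exact h1 u hu (Prod.ext e1 e2)
    · rw [e]
      exact (hz_ne_vt _ _ _ _).symm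
  · intro e
    have := fa_ne h hq1 hq e
    rcases hq' with h' | h'
    · exact h3 (this.trans h')
    · exact h4 (this.trans h')

/-- the thin graph: the cut graph and the cut edges -/
lemma thin_adj (h : JOk b n s x1 M v) (c d : ℤ × ℤ) :
    (SG (LamT b n M) (lt '' Dl s x1 v) w).Adj c d ↔
      (SG (LamC b n M s x1) (lt '' Dl s x1 v) w).Adj c d ∨
        ∃ x : IJ b n x1, (c = SJ b n s x1 x ∧ d = NJ b n s x1 x) ∨
          (c = NJ b n s x1 x ∧ d = SJ b n s x1 x) := by
  rw [SG_adj, SG_adj]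
  constructor
  · rintro ⟨e, he, hT⟩
    obtain ⟨x, y, rfl, -⟩ := id he
    by_cases hc : y = Yr s ∧ x < x1
    · right
      obtain ⟨rfl, hx⟩ := hc
      have h1 := (slit_mem h (by omega) (by omega)).1 he
      refine ⟨⟨x, mem_Ico.2 ⟨h1.1, hx⟩⟩, ?_⟩
      unfold SJ NJ
      rw [Sn_eq, Nn_eq]
      have hD : vt x (Yr s) ∈ lt '' Dl s x1 v := vt_mem_lt.2 (mem_Dl.2 (Or.inr ⟨rfl, hx⟩))
      exact (TJ_del_vt hD).1 hT
    · left
      exact ⟨_, mem_LamC.2 ⟨he, hc⟩, hT⟩
  · rintro (⟨e, he, hT⟩ | ⟨⟨x, hx⟩, h1⟩)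
    · exact ⟨e, LamC_le he, hT⟩
    · rw [mem_Ico] at hx
      have := h.hi
      refine ⟨vt x (Yr s), (slit_mem h (by omega) (by omega)).2 (by omega), ?_⟩
      have hD : vt x (Yr s) ∈ lt '' Dl s x1 v := vt_mem_lt.2 (mem_Dl.2 (Or.inr ⟨rfl, hx.2⟩))
      rw [TJ_del_vt hD]
      unfold SJ NJ at h1
      rw [Sn_eq, Nn_eq] at h1
      exact h1

/-- the thin region is finite -/
lemma LamT_finite (h : JOk b n s x1 M v) : (LamT b n M).Finite := by
  have hn : 0 < n := by have := h.n2; omega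
  set N : ℤ := (b.H + b.K) * n with hN
  apply ((Finset.Icc (-(b.X * n) - 1) (b.X * n) ×ˢ Finset.Icc (-N - 1) N).image lt).finite_toSet.subset
  rintro e ⟨x, y, rfl, ⟨i, j, hi, hj, hQ⟩, -⟩
  rw [abs_le] at hi hj
  have h1 := InQ_col (fun i hi => (h.st_lo i hi).le) hn hQ
  have h2 : -N ≤ y + j ∧ y + j < N := by
    have key : -(b.H + b.K : ℤ) ≤ (y + j) / n ∧ (y + j) / n < b.H + b.K := by
      unfold InQ JBox.Q at hQ
      rw [mem_union, mem_biUnion] at hQ
      rcases hQ with hQ | ⟨k, hk, hQ⟩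
      · rw [mem_RC] at hQ
        simp only at hQ
        omega
      · rw [mem_range] at hk
        rw [mem_union, mem_RC, mem_RC] at hQ
        simp only at hQ
        omega
    have k1 := Int.ediv_mul_le (y + j) hn.ne'
    have k2 := Int.lt_ediv_add_one_mul_self (y + j) hn
    constructor
    · nlinarith [key.1]
    · nlinarith [key.2]
  rw [mem_coe, mem_image]
  refine ⟨(x, y), ?_, rfl⟩
  rw [mem_product, mem_Icc, mem_Icc]
  simp only
  omega

/-- **The cut graph of the junction worlds.** -/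
theorem cut_J (h : JOk b n s x1 M v) (h3 : q3 ∈ M) (h4 : q4 ∈ M) (h34 : q3 ≠ q4)
    (hs : StartOK b n cl M v q3 q4 zz)
    (hpt : ∀ a : Fin 4, ∃ b' : Fin 4, b' ≠ a ∧ (SG (LamT b n M) (lt '' Dl s x1 v) w).Reachable
      (FJ b n cl s x1 q3 q4 zz a) (FJ b n cl s x1 q3 q4 zz b')) :
    Cut (SG (Lam b n M) (lt '' Dl s x1 v) w) (SG (LamT b n M) (lt '' Dl s x1 v) w)
      (SG (LamC b n M s x1) (lt '' Dl s x1 v) w) (FJ b n cl s x1 q3 q4 zz) (SJ b n s x1)
      (NJ b n s x1) where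
  deg := SG_deg2
  TG := by
    rintro c d ⟨e, he, hT⟩
    exact ⟨e, LamT_le he, hT⟩
  adj := thin_adj h
  inj := by
    have z1 := hs.ne_slit h
    have z3 := hs.ne_fa h h3 (Or.inl rfl)
    have z4 := hs.ne_fa h h4 (Or.inr rfl)
    have f3 := fa_ne_slit (cl := cl) h h3
    have f4 := fa_ne_slit (cl := cl) h h4
    have f34 : fa b n cl q3 ≠ fa b n cl q4 := fun e => h34 (fa_ne h h3 h4 e)
    have mS : ∀ x, mc s x1 ≠ Sn s x := fun x => by rw [mc_eq, Sn_eq]; exact (hz_ne_vt _ _ _ _).symm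
    have mN : ∀ x, mc s x1 ≠ Nn s x := fun x => by rw [mc_eq, Nn_eq]; exact (hz_ne_vt _ _ _ _).symm
    have SS : ∀ x x', Sn s x = Sn s x' → x = x' := fun x x' e => by
      rw [Sn_eq, Sn_eq] at e; exact (hz_inj e).1
    have NN : ∀ x x', Nn s x = Nn s x' → x = x' := fun x x' e => by
      rw [Nn_eq, Nn_eq] at e; exact (hz_inj e).1
    have SN : ∀ x x', Sn s x ≠ Nn s x' := fun x x' e => by
      rw [Sn_eq, Nn_eq] at e
      have := (hz_inj e).2
      omega
    rintro (a | ⟨x, a⟩) (a' | ⟨x', a'⟩) e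
    · have : a = a' := by
        fin_cases a <;> fin_cases a' <;> simp only [co, FJ] at e <;> first
          | rfl
          | exact absurd e z1.1
          | exact absurd e z1.1.symm
          | exact absurd e z3
          | exact absurd e z3.symm
          | exact absurd e z4
          | exact absurd e z4.symm
          | exact absurd e f3.1
          | exact absurd e f3.1.symm
          | exact absurd e f4.1
          | exact absurd e f4.1.symm
          | exact absurd e f34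
          | exact absurd e f34.symm
      rw [this]
    · exfalso
      cases a' <;> fin_cases a <;> simp only [co, FJ, SJ, NJ] at e <;> first
        | exact z1.2.1 _ e
        | exact z1.2.2 _ e
        | exact mS _ e
        | exact mN _ e
        | exact f3.2.1 _ e
        | exact f3.2.2 _ e
        | exact f4.2.1 _ e
        | exact f4.2.2 _ e
    · exfalso
      cases a <;> fin_cases a' <;> simp only [co, FJ, SJ, NJ] at e <;> first
        | exact z1.2.1 _ e.symm
        | exact z1.2.2 _ e.symm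
        | exact mS _ e.symm
        | exact mN _ e.symm
        | exact f3.2.1 _ e.symm
        | exact f3.2.2 _ e.symm
        | exact f4.2.1 _ e.symm
        | exact f4.2.2 _ e.symm
    · cases a <;> cases a' <;> simp only [co, SJ, NJ] at e
      · rw [Subtype.ext (SS _ _ e)]
      · exact absurd e (SN _ _)
      · exact absurd e.symm (SN _ _)
      · rw [Subtype.ext (NN _ _ e)]
  eG := by
    intro a
    fin_cases a
    · exact hs.isEnd h (subset_refl _)
    · exact end_mc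
    · exact end_fa h (subset_refl _) h3
    · exact end_fa h (subset_refl _) h4
  eH := by
    have hC : LamC b n M s x1 ⊆ Lam b n M := LamC_le.trans LamT_le
    rintro (a | ⟨x, a⟩)
    · fin_cases a
      · exact hs.isEnd h hC
      · exact end_mc
      · exact end_fa h hC h3
      · exact end_fa h hC h4
    · have := (mem_Ico.1 x.2).2
      cases a
      · exact end_S this
      · exact end_N this
  nb := by
    rintro (a | ⟨x, a⟩)
    · fin_cases a
      · exact hs.nb h (subset_refl _)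
      · exact nb_mc h (subset_refl _)
      · exact nb_fa h (subset_refl _) h3
      · exact nb_fa h (subset_refl _) h4
    · have := mem_Ico.1 x.2
      cases a
      · exact nb_S h this.1 this.2
      · exact nb_N h this.1 this.2
  pt := hpt
  pH := by
    intro a hn ha
    obtain ⟨y, h1, h2, h3⟩ := sg_partner ((LamT_finite h).subset LamC_le) ha hn
    exact ⟨y, h1, h2, h3⟩

end cut

end Pool.Agent.H73.W
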