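import Pool.Agent.H73.W.JAbs2
import Pool.Agent.H73.W.JLoose

set_option autoImplicit false
open Finset

/-! # J3: the values in the junction worlds, world by world

`RF_alive` : an alive end is joined to the mark `q` iff it is joined to the alive corner of `q`; `RF_S` :
the same for the south sides of the cut tiles; `cnt_eq` : the number of passages through the deleted row
is the number of links of the strand. -/

namespace Pool.Agent.H73.W

open SimpleGraph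
open Pool.Agent.H33.Q1 Pool.Agent.H6.W Pool.Agent.H50.W Pool.Agent.H61.W Pool.Agent.H13.W Pool.Agent.H58.W
open Pool.Agent.H99.W (IsEnd)
open Pool.Agent.H47.W (hz vt vt_inj hz_inj hz_ne_vt vt_odd eW_vt eE_vt eS_vt eN_vt tiles_vt tiles_hz
  sg_partner exists_vt)
open Pool.Agent.H16.W (InQ_col InQ_mid dgt_row mem_RC)

section val

variable {b : JBox} {n : ℤ} {s : Bool} {x1 : ℤ} {M : Finset (Bool × ℕ)} {v : Option (ℤ × ℤ)}
  {cl : Cl} {q3 q4 : Bool × ℕ} {zz : ℤ × ℤ} {w : Finset (ℤ × ℤ)}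

lemma f_fa_lo (q : Bool × ℕ) : (f1 b n q = fa b n cl q ∧ f2 b n q = lo b n cl q) ∨
    (f1 b n q = lo b n cl q ∧ f2 b n q = fa b n cl q) := by
  unfold fa lo
  by_cases h : alv b n cl q = true
  · left; simp [h]
  · right; simp [h]

lemma RF_fa_lo {G : SimpleGraph (ℤ × ℤ)} {c : ℤ × ℤ} (q : Bool × ℕ) : RF b n G c q ↔
    G.Reachable c (fa b n cl q) ∨ G.Reachable c (lo b n cl q) := by
  unfold RF
  rcases f_fa_lo (b := b) (n := n) (cl := cl) q with ⟨h1, h2⟩ | ⟨h1, h2⟩ <;> rw [h1, h2]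
  exact or_comm

lemma end_lo (h : JOk b n s x1 M v) {D : Set (ℤ × ℤ)} {q : Bool × ℕ} (hq : q ∈ M) {W : Finset (ℤ × ℤ)} :
    IsEnd (SG (Lam b n M) D W) (lo b n cl q) := by
  unfold lo
  split_ifs
  · exact end_f2 h (subset_refl _) hq
  · exact end_f1 h (subset_refl _) hq

/-- a corner of a mark: coordinates -/
lemma f1_far (h : JOk b n s x1 M v) {q : Bool × ℕ} (hq : q ∈ M) :
    ∃ x y, f1 b n q = vt x y ∧ (y < -n ∨ n ≤ y) ∧ ∀ u ∈ v, u ≠ (x, y) := by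
  have hn : 0 < n := by have := h.n2; omega
  refine ⟨_, _, f1_eq q, dgt_row hn h.H0 q, ?_⟩
  intro u hu e
  have h3 := h.vQ u hu
  rw [e] at h3
  simp only at h3
  rw [InQ_dgt_row h hq] at h3
  have := step_lt h h3.1
  omega

lemma f2_far (h : JOk b n s x1 M v) {q : Bool × ℕ} (hq : q ∈ M) :
    ∃ x y, f2 b n q = hz x y ∧ (y ≤ -(2 * n) ∨ 2 * n ≤ y) := by
  have hn : 0 < n := by have := h.n2; omega
  have k1 : (0 : ℤ) ≤ q.2 := Int.natCast_nonneg _
  have hH : (1 : ℤ) ≤ b.H := by exact_mod_cast h.H0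
  have p1 : 2 * n ≤ (b.H + q.2 + 1) * n := by nlinarith
  refine ⟨_, _, f2_eq q, ?_⟩
  rcases mark_rows h hq with ⟨-, r1, -, -⟩ | ⟨-, r1, -, -⟩ <;> rw [r1]
  · right; exact p1
  · left; omega

lemma f1_inj (h : JOk b n s x1 M v) {q q' : Bool × ℕ} (hq : q ∈ M) (hq' : q' ∈ M)
    (e : f1 b n q = f1 b n q') : q = q' := by
  have hn : 0 < n := by have := h.n2; omega
  have k1 : (0 : ℤ) ≤ q.2 := Int.natCast_nonneg _
  have k2 : (0 : ℤ) ≤ q'.2 := Int.natCast_nonneg _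
  have hH : (0 : ℤ) < b.H := by exact_mod_cast h.H0
  have p1 : 0 < (b.H + q.2 + 1) * n := by positivity
  have p2 : 0 < (b.H + q'.2 + 1) * n := by positivity
  rw [f1_eq, f1_eq] at e
  have e1 := (vt_inj e).2
  have fin : ((b.H + q.2 + 1) * n : ℤ) = (b.H + q'.2 + 1) * n → q.1 = q'.1 → q = q' := by
    intro e1 e2
    have := mul_right_cancel₀ hn.ne' e1
    exact Prod.ext e2 (by omega)
  rcases mark_rows h hq with ⟨r0, -, r1, -⟩ | ⟨r0, -, r1, -⟩ <;>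
    rcases mark_rows h hq' with ⟨r0', -, r1', -⟩ | ⟨r0', -, r1', -⟩ <;> rw [r1, r1'] at e1
  · exact fin e1 (r0.trans r0'.symm)
  · exfalso; omega
  · exfalso; omega
  · exact fin (by omega) (r0.trans r0'.symm)

lemma f2_inj (h : JOk b n s x1 M v) {q q' : Bool × ℕ} (hq : q ∈ M) (hq' : q' ∈ M)
    (e : f2 b n q = f2 b n q') : q = q' := by
  have hn : 0 < n := by have := h.n2; omega
  have k1 : (0 : ℤ) ≤ q.2 := Int.natCast_nonneg _
  have k2 : (0 : ℤ) ≤ q'.2 := Int.natCast_nonneg _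
  have hH : (0 : ℤ) < b.H := by exact_mod_cast h.H0
  have p1 : 0 < (b.H + q.2 + 1) * n := by positivity
  have p2 : 0 < (b.H + q'.2 + 1) * n := by positivity
  rw [f2_eq, f2_eq] at e
  have e1 := (hz_inj e).2
  have fin : ((b.H + q.2 + 1) * n : ℤ) = (b.H + q'.2 + 1) * n → q.1 = q'.1 → q = q' := by
    intro e1 e2
    have := mul_right_cancel₀ hn.ne' e1
    exact Prod.ext e2 (by omega)
  rcases mark_rows h hq with ⟨r0, r1, -, -⟩ | ⟨r0, r1, -, -⟩ <;>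
    rcases mark_rows h hq' with ⟨r0', r1', -, -⟩ | ⟨r0', r1', -, -⟩ <;> rw [r1, r1'] at e1
  · exact fin e1 (r0.trans r0'.symm)
  · exfalso; omega
  · exfalso; omega
  · exact fin (by omega) (r0.trans r0'.symm)

lemma f1_ne_f2 (q q' : Bool × ℕ) : f1 b n q ≠ f2 b n q' := by
  rw [f1_eq, f2_eq]
  exact (hz_ne_vt _ _ _ _).symm

/-- the loose corner is not alive -/
lemma lo_ne_fa (h : JOk b n s x1 M v) {q q' : Bool × ℕ} (hq : q ∈ M) (hq' : q' ∈ M) :
    lo b n cl q ≠ fa b n cl q' := by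
  unfold lo fa
  split_ifs with h1 h2 h2
  · exact (f1_ne_f2 _ _).symm
  · intro e
    rw [f2_inj h hq hq' e] at h1
    exact h2 h1
  · intro e
    rw [f1_inj h hq hq' e] at h1
    exact h1 h2
  · exact f1_ne_f2 _ _

lemma lo_ne_mc (h : JOk b n s x1 M v) {q : Bool × ℕ} (hq : q ∈ M) : lo b n cl q ≠ mc s x1 := by
  have hn := h.n2
  rw [mc_eq]
  unfold lo
  split_ifs
  · rw [f2_eq]
    exact hz_ne_vt _ _ _ _
  · obtain ⟨x, y, e, h1, -⟩ := f1_far h hq
    rw [e]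
    intro e'
    have := (vt_inj e').2
    rcases Yr_cases s with e | e <;> rw [e] at this <;> omega

lemma lo_ne_zc (h : JOk b n s x1 M v) {q : Bool × ℕ} (hq : q ∈ M) {u : ℤ × ℤ} (hu : u ∈ v) :
    lo b n cl q ≠ zc u := by
  rw [zc_eq]
  unfold lo
  split_ifs
  · rw [f2_eq]
    exact hz_ne_vt _ _ _ _
  · obtain ⟨x, y, e, -, h1⟩ := f1_far h hq
    rw [e]
    intro e'
    obtain ⟨e1, e2⟩ := vt_inj e'
    exact h1 u hu (Prod.ext e1.symm e2.symm)

/-- the loose corner is none of the alive ends -/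
lemma lo_ne_FJ (h : JOk b n s x1 M v) (h3 : q3 ∈ M) (h4 : q4 ∈ M)
    (hs : StartOK b n cl M v q3 q4 zz) {q : Bool × ℕ} (hq : q ∈ M) (a : Fin 4) :
    lo b n cl q ≠ FJ b n cl s x1 q3 q4 zz a := by
  fin_cases a
  · show lo b n cl q ≠ zz
    rcases hs with ⟨u, hu, rfl⟩ | ⟨q', hq', -, -, rfl⟩
    · exact lo_ne_zc h hq hu
    · exact lo_ne_fa h hq hq'
  · exact lo_ne_mc h hq
  · exact lo_ne_fa h hq h3
  · exact lo_ne_fa h hq h4

/-- the thick graph -/
abbrev Gk (b : JBox) (n : ℤ) (s : Bool) (x1 : ℤ) (M : Finset (Bool × ℕ)) (v : Option (ℤ × ℤ))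
    (W : Finset (ℤ × ℤ)) : SimpleGraph (ℤ × ℤ) := SG (Lam b n M) (lt '' Dl s x1 v) W

/-- the thin graph -/
abbrev Tk (b : JBox) (n : ℤ) (s : Bool) (x1 : ℤ) (M : Finset (Bool × ℕ)) (v : Option (ℤ × ℤ))
    (W : Finset (ℤ × ℤ)) : SimpleGraph (ℤ × ℤ) := SG (LamT b n M) (lt '' Dl s x1 v) W

/-- the cut graph -/
abbrev Hk (b : JBox) (n : ℤ) (s : Bool) (x1 : ℤ) (M : Finset (Bool × ℕ)) (v : Option (ℤ × ℤ))
    (W : Finset (ℤ × ℤ)) : SimpleGraph (ℤ × ℤ) := SG (LamC b n M s x1) (lt '' Dl s x1 v) W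

variable {W : Finset (ℤ × ℤ)}

/-- **From an alive end.** -/
theorem RF_alive (h : JOk b n s x1 M v) (h3 : q3 ∈ M) (h4 : q4 ∈ M)
    (hs : StartOK b n cl M v q3 q4 zz)
    (C : Cut (Gk b n s x1 M v W) (Tk b n s x1 M v W) (Hk b n s x1 M v W) (FJ b n cl s x1 q3 q4 zz)
      (SJ b n s x1) (NJ b n s x1)) {q : Bool × ℕ} (hq : q ∈ M) (a : Fin 4) :
    RF b n (Gk b n s x1 M v W) (FJ b n cl s x1 q3 q4 zz a) q ↔
      (Gk b n s x1 M v W).Reachable (FJ b n cl s x1 q3 q4 zz a) (fa b n cl q) := by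
  rw [RF_fa_lo (cl := cl)]
  constructor
  · rintro (h1 | h1)
    · exact h1
    · exact absurd h1 (C.no_end (end_lo h hq) (fun a => lo_ne_FJ h h3 h4 hs hq a) a)
  · exact Or.inl

/-- the loose corner is joined to nothing near the slit -/
theorem lo_row (h : JOk b n s x1 M v) (hn4 : 4 ≤ n) (hw : ∀ x y, ¬ InQ b n x y → vt x y ∉ w)
    {q : Bool × ℕ} (hq : q ∈ M) (hcol : cq cl q.1 q.2 ≠ cq cl q.1 (q.2 + 1)) {x y : ℤ}
    (h1 : -n < y) (h2 : y < n) :
    ¬ (Gk b n s x1 M v (w ∪ Wl b n cl)).Reachable (hz x y) (lo b n cl q) := by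
  intro hr
  obtain ⟨e, he1, he2, he3⟩ := lo_path h hn4 hw hq hcol
  have hle : SG (LamU b n M q.1) (lt '' Dl s x1 v) (w ∪ Wl b n cl) ≤
      Gk b n s x1 M v (w ∪ Wl b n cl) := by
    rintro c d ⟨e, ⟨x, y, rfl, h1, -⟩, hT⟩
    exact ⟨_, h1, hT⟩
  have h5 := (sub_reach SG_deg2 hle (end_lo h hq) he2 he3 he1.symm).1 hr.symm
  -- a neighbour
  have h6 : ∃ d, (SG (LamU b n M q.1) (lt '' Dl s x1 v) (w ∪ Wl b n cl)).Adj (hz x y) d := by
    by_cases hne : hz x y = lo b n cl q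
    · rw [hne]
      exact (nbr_both he3 he1.symm).1
    · exact (nbr_both h5 (Ne.symm hne)).2
  obtain ⟨d, e', ⟨x', y', rfl, -, hrow⟩, hT⟩ := h6
  have hl := hT.label
  have : y = y' ∨ y = y' + 1 := by
    rcases tiles_hz x y with ⟨k1, k2⟩ | ⟨k1, k2⟩ <;> rw [k1, k2] at hl <;> rcases hl with hl | hl <;>
      have := (vt_inj hl).2 <;> omega
  unfold rw_ at hrow
  split_ifs at hrow <;> omega

/-- **From a cut tile.** -/
theorem RF_S (h : JOk b n s x1 M v) (hn4 : 4 ≤ n) (hw : ∀ x y, ¬ InQ b n x y → vt x y ∉ w)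
    {q : Bool × ℕ} (hq : q ∈ M) (hcol : cq cl q.1 q.2 ≠ cq cl q.1 (q.2 + 1)) (x : ℤ) :
    RF b n (Gk b n s x1 M v (w ∪ Wl b n cl)) (Sn s x) q ↔
      (Gk b n s x1 M v (w ∪ Wl b n cl)).Reachable (Sn s x) (fa b n cl q) := by
  rw [RF_fa_lo (cl := cl)]
  constructor
  · rintro (h1 | h1)
    · exact h1
    · rw [Sn_eq] at h1
      refine absurd h1 (lo_row h hn4 hw hq hcol ?_ ?_)
      · rcases Yr_cases s with e | e <;> rw [e] <;> omega
      · rcases Yr_cases s with e | e <;> rw [e] <;> omega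
  · exact Or.inl

/-- **The number of passages.** -/
theorem cnt_eq (h : JOk b n s x1 M v) (hn4 : 4 ≤ n) (hw : ∀ x y, ¬ InQ b n x y → vt x y ∉ w)
    (h3 : q3 ∈ M) (hcol : cq cl q3.1 q3.2 ≠ cq cl q3.1 (q3.2 + 1))
    (C : Cut (Gk b n s x1 M v (w ∪ Wl b n cl)) (Tk b n s x1 M v (w ∪ Wl b n cl))
      (Hk b n s x1 M v (w ∪ Wl b n cl)) (FJ b n cl s x1 q3 q4 zz) (SJ b n s x1) (NJ b n s x1)) :
    Set.ncard {x : ℤ | x < x1 ∧ RF b n (Gk b n s x1 M v (w ∪ Wl b n cl)) (Sn s x) q3} =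
      Set.ncard {x : IJ b n x1 | (Gk b n s x1 M v (w ∪ Wl b n cl)).Reachable
        (FJ b n cl s x1 q3 q4 zz 2) (SJ b n s x1 x)} := by
  have e : {x : ℤ | x < x1 ∧ RF b n (Gk b n s x1 M v (w ∪ Wl b n cl)) (Sn s x) q3} =
      Subtype.val '' {x : IJ b n x1 | (Gk b n s x1 M v (w ∪ Wl b n cl)).Reachable
        (FJ b n cl s x1 q3 q4 zz 2) (SJ b n s x1 x)} := by
    ext x
    constructor
    · rintro ⟨hx, hr⟩
      rw [RF_S h hn4 hw h3 hcol] at hr
      have hx' : -(b.X * n) - 1 ≤ x := by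
        by_contra hlt
        have h1 : (Tk b n s x1 M v (w ∪ Wl b n cl)).Reachable (fa b n cl q3) (Sn s x) :=
          (C.thin 2 _).1 hr.symm
        have hne : fa b n cl q3 ≠ Sn s x := (fa_ne_slit h h3).2.1 x
        obtain ⟨-, d, e', he', hT⟩ := nbr_both h1 hne
        have hl := hT.label
        rw [Sn_eq] at hl
        have hmem : vt x (Yr s) ∈ LamT b n M ∨ vt x (Yr s - 1) ∈ LamT b n M := by
          rcases tiles_hz x (Yr s) with ⟨k1, k2⟩ | ⟨k1, k2⟩ <;> rw [k1, k2] at hl <;>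
            rcases hl with rfl | rfl <;> tauto
        rcases hmem with h2 | h2
        · have := (slit_mem h (by omega) (by omega)).1 h2
          omega
        · have := (slit_mem h (by omega) (by omega)).1 h2
          omega
      exact ⟨⟨x, mem_Ico.2 ⟨hx', hx⟩⟩, hr.symm, rfl⟩
    · rintro ⟨x', hr, rfl⟩
      have hx := (mem_Ico.1 x'.2).2
      refine ⟨hx, ?_⟩
      rw [RF_S h hn4 hw h3 hcol]
      exact Reachable.symm hr
  rw [e, Set.ncard_image_of_injective _ Subtype.val_injective]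

end val

end Pool.Agent.H73.W
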