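import Pool.Agent.H73.W.Tangle0

set_option autoImplicit false
open Finset

/-! # The tangle table : parity

`bil_zero`: two disjoint sets of ends which are closed under the same noncrossing involution without
fixed points there interleave evenly. -/

namespace Pool.Agent.H73.W

variable {α : Type*}

/-- number of `y ∈ S` on the left of `x` (mod 2) -/
def lw (pos : α → ℤ) (S : Finset α) (x : α) : ZMod 2 := ∑ y ∈ S, if pos y < pos x then 1 else 0

/-- number of inversions (mod 2) -/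
def bil (pos : α → ℤ) (S S' : Finset α) : ZMod 2 := ∑ x ∈ S, lw pos S' x

/-- closed under the involution, without fixed points -/
structure Cl (κ : α → α) (S : Finset α) : Prop where
  cl : ∀ x ∈ S, κ x ∈ S
  nf : ∀ x ∈ S, κ x ≠ x

lemma zmod2_add_self (a : ZMod 2) : a + a = 0 := by
  revert a; decide

lemma zmod2_cases (a : ZMod 2) : a = 0 ∨ a = 1 := by revert a; decide

/-- a sum over a closed set of a function with `f x + f (κ x) = 0` vanishes -/
lemma sum_cl {κ : α → α} {S : Finset α} (h : Cl κ S) (hi : ∀ x, κ (κ x) = x) (f : α → ZMod 2)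
    (hf : ∀ x ∈ S, f x + f (κ x) = 0) : ∑ x ∈ S, f x = 0 :=
  Finset.sum_involution (fun x _ => κ x) (fun x hx => hf x hx) (fun x hx _ => h.nf x hx)
    (fun x hx => h.cl x hx) (fun x _ => hi x)

lemma sum_congr_cl {κ : α → α} {S : Finset α} (h : Cl κ S) (hi : ∀ x, κ (κ x) = x)
    (f g : α → ZMod 2) (hf : ∀ x ∈ S, f x + f (κ x) = g x + g (κ x)) :
    ∑ x ∈ S, f x = ∑ x ∈ S, g x := by
  have h1 : ∑ x ∈ S, (f x + g x) = 0 := by
    refine sum_cl h hi _ fun x hx => ?_
    have h2 := hf x hx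
    have h3 := zmod2_add_self (g x + g (κ x))
    rw [← h3]
    nth_rewrite 1 [← h2]
    ring
  rw [sum_add_distrib] at h1
  have h2 := zmod2_add_self (∑ x ∈ S, g x)
  have h3 : ∑ x ∈ S, f x + ∑ x ∈ S, g x = ∑ x ∈ S, g x + ∑ x ∈ S, g x := by rw [h1, h2]
  exact add_right_cancel h3

lemma card_cl {κ : α → α} {S : Finset α} (h : Cl κ S) (hi : ∀ x, κ (κ x) = x) :
    ((S.card : ℕ) : ZMod 2) = 0 := by
  have h1 := sum_cl h hi (fun _ => (1 : ZMod 2)) fun x _ => zmod2_add_self 1
  simpa using h1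

/-- the number of ends of a closed set on the left of `x` is the number of straddling pairs -/
lemma lw_cl {pos : α → ℤ} {κ : α → α} {S : Finset α} (h : Cl κ S) (hi : ∀ x, κ (κ x) = x) {x : α}
    (hx : ∀ y ∈ S, pos y ≠ pos x) :
    lw pos S x = ∑ y ∈ S, if pos x < pos y ∧ pos (κ y) < pos x then 1 else 0 := by
  unfold lw
  refine sum_congr_cl h hi _ _ fun y hy => ?_
  have h1 := hx y hy
  have h2 := hx _ (h.cl y hy)
  rw [hi]
  rcases lt_or_gt_of_ne h1 with h3 | h3 <;> rcases lt_or_gt_of_ne h2 with h4 | h4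
  · simp [h3, h4, not_lt_of_gt h3, not_lt_of_gt h4, zmod2_add_self]
  · simp [h3, h4, not_lt_of_gt h3, not_lt_of_gt h4]
  · simp [h3, h4, not_lt_of_gt h3, not_lt_of_gt h4]
  · simp [h3, h4, not_lt_of_gt h3, not_lt_of_gt h4]

/-- two places which are straddled by the same pairs -/
lemma lw_eq {pos : α → ℤ} {κ : α → α} {S : Finset α} (h : Cl κ S) (hi : ∀ x, κ (κ x) = x) {x x' : α}
    (hs : ∀ y ∈ S, ((pos y < pos x ↔ pos (κ y) < pos x) ↔ (pos y < pos x' ↔ pos (κ y) < pos x'))) :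
    lw pos S x = lw pos S x' := by
  unfold lw
  refine sum_congr_cl h hi _ _ fun y hy => ?_
  have h1 := hs y hy
  by_cases a : pos y < pos x <;> by_cases b : pos (κ y) < pos x <;>
    by_cases c : pos y < pos x' <;> by_cases d : pos (κ y) < pos x' <;>
    simp [a, b, c, d, zmod2_add_self] at h1 ⊢

/-- a place which is straddled by no pair -/
lemma lw_zero {pos : α → ℤ} {κ : α → α} {S : Finset α} (h : Cl κ S) (hi : ∀ x, κ (κ x) = x) {x : α}
    (hs : ∀ y ∈ S, (pos y < pos x ↔ pos (κ y) < pos x)) : lw pos S x = 0 := by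
  unfold lw
  refine sum_cl h hi _ fun y hy => ?_
  have h1 := hs y hy
  by_cases a : pos y < pos x
  · simp [a, h1.1 a, zmod2_add_self]
  · have b : ¬ pos (κ y) < pos x := fun h => a (h1.2 h)
    simp [a, b]

/-- **Parity.** -/
theorem bil_zero {pos : α → ℤ} {κ : α → α} (hi : ∀ x, κ (κ x) = x) {S S' : Finset α}
    (h : Cl κ S) (h' : Cl κ S') (hd : ∀ x ∈ S, ∀ y ∈ S', pos x ≠ pos y)
    (hnc : ∀ x y, (x ∈ S ∧ y ∈ S' ∨ x ∈ S' ∧ y ∈ S) → NX pos κ x y) : bil pos S S' = 0 := by
  unfold bil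
  refine sum_cl h hi _ fun x hx => ?_
  have hkx := h.cl x hx
  unfold lw
  rw [← sum_add_distrib]
  refine sum_cl h' hi _ fun y hy => ?_
  have hky := h'.cl y hy
  have e1 := hd x hx y hy
  have e2 := hd x hx _ hky
  have e3 := hd _ hkx y hy
  have e4 := hd _ hkx _ hky
  have n1 := hnc x y (Or.inl ⟨hx, hy⟩)
  have n2 := hnc x _ (Or.inl ⟨hx, hky⟩)
  have n3 := hnc _ y (Or.inl ⟨hkx, hy⟩)
  have n4 := hnc _ _ (Or.inl ⟨hkx, hky⟩)
  have m1 := hnc y x (Or.inr ⟨hy, hx⟩)
  have m2 := hnc y _ (Or.inr ⟨hy, hkx⟩)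
  have m3 := hnc _ x (Or.inr ⟨hky, hx⟩)
  have m4 := hnc _ _ (Or.inr ⟨hky, hkx⟩)
  unfold NX at n1 n2 n3 n4 m1 m2 m3 m4
  simp only [hi] at n1 n2 n3 n4 m1 m2 m3 m4
  by_cases a : pos y < pos x <;> by_cases b : pos y < pos (κ x) <;>
    by_cases c : pos (κ y) < pos x <;> by_cases d : pos (κ y) < pos (κ x) <;>
    simp [a, b, c, d, zmod2_add_self] <;> first | rfl | (exfalso; omega)

/-- insertion of a point -/
lemma bil_insert_left [DecidableEq α] {pos : α → ℤ} {S S' : Finset α} {a : α} (ha : a ∉ S) :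
    bil pos (insert a S) S' = lw pos S' a + bil pos S S' := by
  unfold bil
  rw [sum_insert ha]

lemma lw_insert [DecidableEq α] {pos : α → ℤ} {S : Finset α} {a x : α} (ha : a ∉ S) :
    lw pos (insert a S) x = (if pos a < pos x then 1 else 0) + lw pos S x := by
  unfold lw
  rw [sum_insert ha]

lemma bil_insert_right [DecidableEq α] {pos : α → ℤ} {S S' : Finset α} {a : α} (ha : a ∉ S') :
    bil pos S (insert a S') = (∑ x ∈ S, if pos a < pos x then 1 else 0) + bil pos S S' := by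
  unfold bil
  rw [← sum_add_distrib]
  exact sum_congr rfl fun x _ => lw_insert ha

/-- the number of ends on the right -/
lemma rw_cl {pos : α → ℤ} {κ : α → α} {S : Finset α} (h : Cl κ S) (hi : ∀ x, κ (κ x) = x) {a : α}
    (ha : ∀ y ∈ S, pos y ≠ pos a) : (∑ x ∈ S, if pos a < pos x then (1 : ZMod 2) else 0) =
      lw pos S a := by
  have h1 := card_cl h hi
  have h2 : (∑ x ∈ S, if pos a < pos x then (1 : ZMod 2) else 0) + lw pos S a = 0 := by
    unfold lw
    rw [← sum_add_distrib]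
    refine Eq.trans ?_ h1
    rw [card_eq_sum_ones, Nat.cast_sum]
    refine sum_congr rfl fun x hx => ?_
    rcases lt_or_gt_of_ne (ha x hx) with h3 | h3
    · simp [h3, not_lt_of_gt h3]
    · simp [h3, not_lt_of_gt h3]
  have h3 := zmod2_add_self (lw pos S a)
  exact add_right_cancel (h2.trans h3.symm)

end Pool.Agent.H73.W
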