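import Pool.Agent.H73.W.Tangle1

set_option autoImplicit false
open Finset

/-! # The tangle table : strands and new links -/

namespace Pool.Agent.H73.W

open Pool.Agent.H99.W

variable {α : Type*}

/-! ### Strands -/

section strand

variable [Fintype α]

open Classical in
/-- the component of `a` -/
noncomputable def Sd (L : Lk α) (a : α) : Finset α := univ.filter fun y => L.G.Reachable a y

open Classical in
/-- the component of `a` without its two ends -/
noncomputable def Sd' (L : Lk α) (a : α) : Finset α := ((Sd L a).erase a).erase (L.far a)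

lemma mem_Sd {L : Lk α} {a y : α} : y ∈ Sd L a ↔ L.G.Reachable a y := by
  unfold Sd; simp

/-- every linked end is matched in the room -/
def Mt (L : Lk α) : Prop := ∀ e, L.θ e ≠ e → L.σ e ≠ e

variable {L : Lk α} {a b y : α}

/-- an end: a far end which is matched in the room -/
structure En (L : Lk α) (a : α) : Prop where
  fx : L.θ a = a
  al : L.σ a ≠ a

lemma En.far (hm : Mt L) (h : En L a) : En L (L.far a) :=
  ⟨Lk.far_θ h.fx h.al hm, Lk.far_σ h.fx h.al hm⟩

lemma En.ne (h : En L a) : L.far a ≠ a := (Lk.far_spec h.fx h.al).1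

lemma En.reach (h : En L a) : L.G.Reachable a (L.far a) := (Lk.far_spec h.fx h.al).2.2

lemma En.far_far (hm : Mt L) (h : En L a) : L.far (L.far a) = a := Lk.far_far h.fx h.al hm

lemma En.far_eq (h : En L a) (hb : En L b) (hne : b ≠ a) (hr : L.G.Reachable a b) :
    L.far a = b := Lk.far_eq h.fx h.al hne (Or.inr hb.fx) hr

/-- the ends in the component of `a` -/
lemma En.two (h : En L a) (hy : IsEnd L.G y) (hr : L.G.Reachable a y) : y = a ∨ y = L.far a := by
  obtain ⟨h1, h2, h3⟩ := Lk.far_spec h.fx h.al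
  exact ends_two L.deg2 (L.isEnd_of_θ h.fx) (h2.elim L.isEnd_of_σ L.isEnd_of_θ) hy h3 hr h1.symm

/-- two ends in the same component -/
lemma En.reach_iff (h : En L a) (hb : En L b) : L.G.Reachable a b ↔ b = a ∨ b = L.far a := by
  constructor
  · exact fun hr => h.two (L.isEnd_of_θ hb.fx) hr
  · rintro (rfl | rfl)
    · exact SimpleGraph.Reachable.refl _
    · exact h.reach

lemma Sd_cl (hm : Mt L) (h : En L a) : Cl L.σ (Sd L a) := by
  constructor
  · intro x hx
    rw [mem_Sd] at hx ⊢
    exact hx.trans (L.reach_σ x)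
  · intro x hx e
    rw [mem_Sd] at hx
    rcases h.two (L.isEnd_of_σ e) hx with rfl | rfl
    · exact h.al e
    · exact (h.far hm).al e

open Classical in
lemma mem_Sd' : y ∈ Sd' L a ↔ y ≠ L.far a ∧ y ≠ a ∧ L.G.Reachable a y := by
  unfold Sd'
  rw [mem_erase, mem_erase, mem_Sd]

lemma Sd'_cl (hm : Mt L) (h : En L a) : Cl L.θ (Sd' L a) := by
  constructor
  · intro x hx
    rw [mem_Sd'] at hx ⊢
    refine ⟨fun e => hx.1 ?_, fun e => hx.2.1 ?_, hx.2.2.trans (L.reach_θ x)⟩
    · rw [← L.hθ x, e, (h.far hm).fx]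
    · rw [← L.hθ x, e, h.fx]
  · intro x hx e
    rw [mem_Sd'] at hx
    rcases h.two (L.isEnd_of_θ e) hx.2.2 with h1 | h1
    · exact hx.2.1 h1
    · exact hx.1 h1

lemma Sd_eq [DecidableEq α] (h : En L a) : Sd L a = insert a (insert (L.far a) (Sd' L a)) := by
  ext y
  rw [mem_Sd, mem_insert, mem_insert, mem_Sd']
  constructor
  · intro hr
    by_cases h1 : y = a
    · exact Or.inl h1
    · by_cases h2 : y = L.far a
      · exact Or.inr (Or.inl h2)
      · exact Or.inr (Or.inr ⟨h2, h1, hr⟩)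
  · rintro (rfl | rfl | h1)
    · exact SimpleGraph.Reachable.refl _
    · exact h.reach
    · exact h1.2.2

lemma not_mem_Sd'_far : L.far a ∉ Sd' L a := by
  rw [mem_Sd']; tauto

lemma not_mem_Sd'_self : a ∉ Sd' L a := by
  rw [mem_Sd']; tauto

end strand

/-! ### A new link -/

/-- `p` and `q` are linked -/
def addl [DecidableEq α] (θ : α → α) (p q e : α) : α :=
  if e = p then q else if e = q then p else θ e

section add

variable [DecidableEq α]

lemma addl_inv {θ : α → α} (hi : ∀ e, θ (θ e) = e) {p q : α} (hp : θ p = p) (hq : θ q = q) (e : α) :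
    addl θ p q (addl θ p q e) = e := by
  unfold addl
  by_cases h1 : e = p
  · subst h1
    by_cases h2 : q = e
    · simp [h2]
    · simp [h2]
  · by_cases h2 : e = q
    · subst h2
      simp [h1]
    · have h3 : θ e ≠ p := fun h => h1 (by rw [← hi e, h, hp])
      have h4 : θ e ≠ q := fun h => h2 (by rw [← hi e, h, hq])
      simp [h1, h2, h3, h4, hi]

/-- the link structure with the new link `p ~ q` -/
def add (L : Lk α) {p q : α} (hp : L.θ p = p) (hq : L.θ q = q) : Lk α where
  σ := L.σ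
  θ := addl L.θ p q
  hσ := L.hσ
  hθ := addl_inv L.hθ hp hq

variable {L : Lk α} {p q : α} (hp : L.θ p = p) (hq : L.θ q = q)

@[simp] lemma add_σ : (add L hp hq).σ = L.σ := rfl

@[simp] lemma add_θ : (add L hp hq).θ = addl L.θ p q := rfl

lemma addl_left (θ : α → α) (p q : α) : addl θ p q p = q := by unfold addl; simp

lemma addl_right (θ : α → α) {p q : α} : addl θ p q q = p := by
  unfold addl
  by_cases h : q = p
  · simp [h]
  · simp [h]

lemma addl_other (θ : α → α) {p q e : α} (h1 : e ≠ p) (h2 : e ≠ q) : addl θ p q e = θ e := by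
  unfold addl; simp [h1, h2]

lemma add_adj (hpq : p ≠ q) {u v : α} :
    (add L hp hq).G.Adj u v ↔ L.G.Adj u v ∨ (u = p ∧ v = q) ∨ (u = q ∧ v = p) := by
  rw [Lk.adj, Lk.adj]
  simp only [add_σ, add_θ]
  by_cases h1 : u = p
  · subst h1
    rw [addl_left, hp]
    constructor
    · rintro ⟨h2, h3 | h3⟩
      · exact Or.inl ⟨h2, Or.inl h3⟩
      · exact Or.inr (Or.inl ⟨rfl, h3.symm⟩)
    · rintro (⟨h2, h3 | h3⟩ | ⟨-, h3⟩ | ⟨h3, -⟩)
      · exact ⟨h2, Or.inl h3⟩
      · exact absurd h3 h2
      · exact ⟨by rw [h3]; exact hpq, Or.inr h3.symm⟩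
      · exact absurd h3 hpq
  · by_cases h2 : u = q
    · subst h2
      rw [addl_right, hq]
      constructor
      · rintro ⟨h2, h3 | h3⟩
        · exact Or.inl ⟨h2, Or.inl h3⟩
        · exact Or.inr (Or.inr ⟨rfl, h3.symm⟩)
      · rintro (⟨h2, h3 | h3⟩ | ⟨h3, -⟩ | ⟨-, h3⟩)
        · exact ⟨h2, Or.inl h3⟩
        · exact absurd h3 h2
        · exact absurd h3 h1
        · exact ⟨by rw [h3]; exact h1, Or.inr h3.symm⟩
    · rw [addl_other _ h1 h2]
      constructor
      · exact fun h => Or.inl h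
      · rintro (h | ⟨h, -⟩ | ⟨h, -⟩)
        · exact h
        · exact absurd h h1
        · exact absurd h h2

/-- reachability with the new link -/
lemma reach_add (hpq : p ≠ q) {x y : α} : (add L hp hq).G.Reachable x y ↔ L.G.Reachable x y ∨
    (L.G.Reachable x p ∧ L.G.Reachable q y) ∨ (L.G.Reachable x q ∧ L.G.Reachable p y) := by
  have hle : ∀ {x y : α}, L.G.Reachable x y → (add L hp hq).G.Reachable x y := by
    intro x y h
    exact h.mono fun u v huv => (add_adj hp hq hpq).2 (Or.inl huv)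
  have hpq' : (add L hp hq).G.Reachable p q :=
    SimpleGraph.Adj.reachable ((add_adj hp hq hpq).2 (Or.inr (Or.inl ⟨rfl, rfl⟩)))
  constructor
  · rintro ⟨w⟩
    induction w with
    | nil => exact Or.inl (SimpleGraph.Reachable.refl _)
    | @cons u v w h _ ih =>
      rcases (add_adj hp hq hpq).1 h with h1 | ⟨rfl, rfl⟩ | ⟨rfl, rfl⟩
      · rcases ih with h2 | ⟨h2, h3⟩ | ⟨h2, h3⟩
        · exact Or.inl (h1.reachable.trans h2)
        · exact Or.inr (Or.inl ⟨h1.reachable.trans h2, h3⟩)
        · exact Or.inr (Or.inr ⟨h1.reachable.trans h2, h3⟩)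
      · rcases ih with h2 | ⟨_, h3⟩ | ⟨_, h3⟩
        · exact Or.inr (Or.inl ⟨SimpleGraph.Reachable.refl _, h2⟩)
        · exact Or.inr (Or.inl ⟨SimpleGraph.Reachable.refl _, h3⟩)
        · exact Or.inl h3
      · rcases ih with h2 | ⟨_, h3⟩ | ⟨_, h3⟩
        · exact Or.inr (Or.inr ⟨SimpleGraph.Reachable.refl _, h2⟩)
        · exact Or.inl h3
        · exact Or.inr (Or.inr ⟨SimpleGraph.Reachable.refl _, h3⟩)
  · rintro (h | ⟨h1, h2⟩ | ⟨h1, h2⟩)
    · exact hle h
    · exact (hle h1).trans (hpq'.trans (hle h2))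
    · exact (hle h1).trans (hpq'.symm.trans (hle h2))

lemma Mt.add (hm : Mt L) (ep : L.σ p ≠ p) (eq : L.σ q ≠ q) : Mt (add L hp hq) := by
  intro e he
  simp only [add_σ, add_θ] at he ⊢
  by_cases h1 : e = p
  · rw [h1]; exact ep
  · by_cases h2 : e = q
    · rw [h2]; exact eq
    · rw [addl_other _ h1 h2] at he
      exact hm e he

variable {a : α}

lemma En.addl (h : En L a) (h1 : a ≠ p) (h2 : a ≠ q) : En (add L hp hq) a :=
  ⟨by rw [add_θ, addl_other _ h1 h2]; exact h.fx, h.al⟩

variable [Fintype α] (hm : Mt L) (ep : L.σ p ≠ p) (eq : L.σ q ≠ q) (hpq : p ≠ q)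

include hm hpq in
/-- the far end of an end which is not joined with the new link -/
lemma far_add_other (h : En L a) (h1 : a ≠ p) (h2 : a ≠ q) (h3 : L.far a ≠ p) (h4 : L.far a ≠ q) :
    (add L hp hq).far a = L.far a := by
  refine (h.addl hp hq h1 h2).far_eq ((h.far hm).addl hp hq h3 h4) h.ne ?_
  exact (reach_add hp hq hpq).2 (Or.inl h.reach)

include hm ep eq hpq in
/-- the far end of an end which is joined with the new link -/
lemma far_add_left (h : En L a) (h1 : a ≠ p) (h2 : a ≠ q) (h3 : L.far a = p) :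
    (add L hp hq).far a = L.far q := by
  have eq' : En L q := ⟨hq, eq⟩
  have ep' : En L p := ⟨hp, ep⟩
  have h5 : L.far p = a := by rw [← h3, h.far_far hm]
  have h6 : L.far q ≠ a := fun e => hpq (by rw [← h3, ← e, eq'.far_far hm])
  have h7 : L.far q ≠ p := fun e => h2 (by
    have := eq'.far_far hm
    rw [e, h5] at this; exact this)
  refine (h.addl hp hq h1 h2).far_eq ((eq'.far hm).addl hp hq h7 eq'.ne) h6 ?_
  refine (reach_add hp hq hpq).2 (Or.inr (Or.inl ⟨?_, eq'.reach⟩))
  have := h.reach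
  rwa [h3] at this

include hm ep eq hpq in
lemma far_add_right (h : En L a) (h1 : a ≠ p) (h2 : a ≠ q) (h3 : L.far a = q) :
    (add L hp hq).far a = L.far p := by
  have eq' : En L q := ⟨hq, eq⟩
  have ep' : En L p := ⟨hp, ep⟩
  have h5 : L.far q = a := by rw [← h3, h.far_far hm]
  have h6 : L.far p ≠ a := fun e => hpq (by rw [← h3, ← e, ep'.far_far hm])
  have h7 : L.far p ≠ q := fun e => h1 (by
    have := ep'.far_far hm
    rw [e, h5] at this; exact this)
  refine (h.addl hp hq h1 h2).far_eq ((ep'.far hm).addl hp hq ep'.ne h7) h6 ?_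
  refine (reach_add hp hq hpq).2 (Or.inr (Or.inr ⟨?_, ep'.reach⟩))
  have := h.reach
  rwa [h3] at this

end add

end Pool.Agent.H73.W
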