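import Pool.Agent.H73.W.Tangle2

set_option autoImplicit false
set_option linter.unusedSectionVars false
open Finset

/-! # The tangle table : the resolution of one link -/

namespace Pool.Agent.H73.W

open Pool.Agent.H99.W

variable {α : Type*} [Fintype α] [DecidableEq α]

/-- the value of the parity in `ZMod 2` -/
lemma even_iff_zmod (n : ℕ) : Even n ↔ ((n : ℕ) : ZMod 2) = 0 := by
  rw [ZMod.natCast_eq_zero_iff, even_iff_two_dvd]

/-- Three free ends `l < m < r` in the place of the mark: every link straddles all of them or none. -/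
structure Six (pos : α → ℤ) (l m r x3 x4 z : α) (L : Lk α) : Prop where
  nc : ∀ x y, NX pos L.θ x y
  fl : L.θ l = l
  fm : L.θ m = m
  fr : L.θ r = r
  f3 : L.θ x3 = x3
  f4 : L.θ x4 = x4
  fz : L.θ z = z
  lm : pos l < pos m
  mr : pos m < pos r
  r3 : pos r < pos x3
  o34 : pos x3 < pos x4
  lt3 : ∀ y, L.θ y ≠ y → pos y < pos x3
  sl : ∀ y, L.θ y ≠ y →
    ((pos y < pos l ↔ pos (L.θ y) < pos l) ↔ (pos y < pos m ↔ pos (L.θ y) < pos m))
  sr : ∀ y, L.θ y ≠ y →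
    ((pos y < pos r ↔ pos (L.θ y) < pos r) ↔ (pos y < pos m ↔ pos (L.θ y) < pos m))
  inj : ∀ x y, x ≠ z → y ≠ z → pos x = pos y → x = y
  ncσ : ∀ x y, x ≠ z → x ≠ L.σ z → y ≠ z → y ≠ L.σ z → NX pos L.σ x y
  ml : L.σ l ≠ l
  mm : L.σ m ≠ m
  mr' : L.σ r ≠ r
  m3 : L.σ x3 ≠ x3
  m4 : L.σ x4 ≠ x4
  mz : L.σ z ≠ z
  mt : Mt L
  act : ∀ y, L.σ y ≠ y → (L.θ y ≠ y ∨ y = z ∨ y = l ∨ y = m ∨ y = r ∨ y = x3 ∨ y = x4)
  zl : z ≠ l
  zm : z ≠ m
  zr : z ≠ r
  z3 : z ≠ x3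
  z4 : z ≠ x4

namespace Six

variable {pos : α → ℤ} {l m r x3 x4 z : α} {L : Lk α} (h : Six pos l m r x3 x4 z L)

include h

lemma el : En L l := ⟨h.fl, h.ml⟩
lemma em : En L m := ⟨h.fm, h.mm⟩
lemma er : En L r := ⟨h.fr, h.mr'⟩
lemma e3 : En L x3 := ⟨h.f3, h.m3⟩
lemma e4 : En L x4 := ⟨h.f4, h.m4⟩
lemma ez : En L z := ⟨h.fz, h.mz⟩

lemma end_cases {a : α} (ha : En L a) : a = z ∨ a = l ∨ a = m ∨ a = r ∨ a = x3 ∨ a = x4 := by
  rcases h.act a ha.al with h1 | h1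
  · exact absurd ha.fx h1
  · exact h1

/-- the three places are straddled by the same links -/
lemma lw_T {S : Finset α} (hS : Cl L.θ S) {t : α} (ht : t = l ∨ t = m ∨ t = r) :
    lw pos S t = lw pos S m := by
  rcases ht with rfl | rfl | rfl
  · exact lw_eq hS L.hθ fun y hy => h.sl y (hS.nf y hy)
  · rfl
  · exact lw_eq hS L.hθ fun y hy => h.sr y (hS.nf y hy)

lemma lw_3 {S : Finset α} (hS : Cl L.θ S) : lw pos S x3 = 0 :=
  lw_zero hS L.hθ fun y hy => by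
    have h1 := h.lt3 y (hS.nf y hy)
    have h2 := h.lt3 _ (hS.nf _ (hS.cl y hy))
    simp [h1, h2]

lemma pos_T {t : α} (ht : t = l ∨ t = m ∨ t = r) : pos t < pos x3 := by
  have h1 := h.lm
  have h2 := h.mr
  have h3 := h.r3
  rcases ht with rfl | rfl | rfl <;> omega

lemma T_ne {t : α} (ht : t = l ∨ t = m ∨ t = r) : t ≠ z ∧ t ≠ x3 ∧ t ≠ x4 ∧ L.θ t = t := by
  have h1 := h.pos_T ht
  have h2 := h.o34
  refine ⟨?_, ?_, ?_, ?_⟩
  · rcases ht with rfl | rfl | rfl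
    · exact h.zl.symm
    · exact h.zm.symm
    · exact h.zr.symm
  · rintro rfl; exact lt_irrefl _ h1
  · rintro rfl; exact lt_asymm h1 h2
  · rcases ht with rfl | rfl | rfl
    · exact h.fl
    · exact h.fm
    · exact h.fr

/-- a linked end is different from the places -/
lemma pos_ne {y t : α} (hy : L.θ y ≠ y) (ht : L.θ t = t) (htz : t ≠ z) : pos y ≠ pos t := by
  intro e
  have hyz : y ≠ z := fun e' => hy (by rw [e']; exact h.fz)
  have := h.inj y t hyz htz e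
  exact hy (by rw [this]; exact ht)

/-- **Parity of the tripod.** -/
theorem tripod {t3 t4 : α} (h3 : L.far x3 = t3) (h4 : L.far x4 = t4)
    (ht3 : t3 = l ∨ t3 = m ∨ t3 = r) (ht4 : t4 = l ∨ t4 = m ∨ t4 = r) :
    lw pos (Sd' L x3) m + lw pos (Sd' L x4) m = 1 + (if pos t4 < pos t3 then 1 else 0) := by
  have n3 := h.T_ne ht3
  have n4 := h.T_ne ht4
  have p3 := h.pos_T ht3
  have p4 := h.pos_T ht4
  have c3 := Sd'_cl h.mt h.e3
  have c4 := Sd'_cl h.mt h.e4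
  have hdis : ∀ x, L.G.Reachable x3 x → L.G.Reachable x4 x → False := by
    intro x hx hx'
    have h5 := h.e3.far_eq h.e4 (fun e => by
      have := h.o34; rw [e] at this; exact lt_irrefl _ this) (hx.trans hx'.symm)
    exact n3.2.2.1 (h3.symm.trans h5)
  have hz3 : ¬ L.G.Reachable x3 z := fun hr => n3.1 (h3.symm.trans (h.e3.far_eq h.ez h.z3 hr))
  have hz4 : ¬ L.G.Reachable x4 z := fun hr => n4.1 (h4.symm.trans (h.e4.far_eq h.ez h.z4 hr))
  have nz : ∀ a, ¬ L.G.Reachable a z → ∀ x, L.G.Reachable a x → x ≠ z ∧ x ≠ L.σ z := by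
    intro a ha x hx
    refine ⟨fun e => ha (e ▸ hx), fun e => ha ?_⟩
    have := hx.trans (L.reach_σ x)
    rwa [e, L.hσ] at this
  have hin : ∀ x y, L.G.Reachable x3 x → L.G.Reachable x4 y → pos x ≠ pos y := by
    intro x y hx hy e
    have := h.inj x y (nz _ hz3 x hx).1 (nz _ hz4 y hy).1 e
    exact hdis x hx (this ▸ hy)
  -- the two applications of parity
  have b1 : bil pos (Sd L x3) (Sd L x4) = 0 := by
    refine bil_zero L.hσ (Sd_cl h.mt h.e3) (Sd_cl h.mt h.e4) ?_ ?_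
    · intro x hx y hy
      exact hin x y (mem_Sd.1 hx) (mem_Sd.1 hy)
    · rintro x y (⟨hx, hy⟩ | ⟨hx, hy⟩)
      · exact h.ncσ x y (nz _ hz3 x (mem_Sd.1 hx)).1 (nz _ hz3 x (mem_Sd.1 hx)).2
          (nz _ hz4 y (mem_Sd.1 hy)).1 (nz _ hz4 y (mem_Sd.1 hy)).2
      · exact h.ncσ x y (nz _ hz4 x (mem_Sd.1 hx)).1 (nz _ hz4 x (mem_Sd.1 hx)).2
          (nz _ hz3 y (mem_Sd.1 hy)).1 (nz _ hz3 y (mem_Sd.1 hy)).2
  have b2 : bil pos (Sd' L x3) (Sd' L x4) = 0 := by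
    refine bil_zero L.hθ c3 c4 ?_ ?_
    · intro x hx y hy
      exact hin x y (mem_Sd'.1 hx).2.2 (mem_Sd'.1 hy).2.2
    · exact fun x y _ => h.nc x y
  have q3 := not_mem_Sd'_far (L := L) (a := x3)
  have q4 := not_mem_Sd'_far (L := L) (a := x4)
  have q3' := not_mem_Sd'_self (L := L) (a := x3)
  have q4' := not_mem_Sd'_self (L := L) (a := x4)
  rw [Sd_eq h.e3, Sd_eq h.e4, h3, h4] at b1
  rw [h3] at q3
  rw [h4] at q4
  have i3 : x3 ∉ insert t3 (Sd' L x3) := by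
    rw [mem_insert, not_or]; exact ⟨n3.2.1.symm, q3'⟩
  have i4 : x4 ∉ insert t4 (Sd' L x4) := by
    rw [mem_insert, not_or]; exact ⟨n4.2.2.1.symm, q4'⟩
  rw [bil_insert_left i3, bil_insert_left q3, bil_insert_right i4, bil_insert_right q4,
    lw_insert i4, lw_insert q4, lw_insert i4, lw_insert q4, b2, h.lw_3 c4, h.lw_T c4 ht3] at b1
  -- the ends on the right of `x4`, of `t4`
  have r1 : (∑ x ∈ Sd' L x3, if pos x4 < pos x then (1 : ZMod 2) else 0) = 0 := by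
    refine sum_eq_zero fun x hx => ?_
    have h5 := h.lt3 x (c3.nf x hx)
    have h6 := h.o34
    rw [if_neg (by omega)]
  have r2 : (∑ x ∈ Sd' L x3, if pos t4 < pos x then (1 : ZMod 2) else 0) = lw pos (Sd' L x3) m := by
    rw [rw_cl c3 L.hθ, h.lw_T c3 ht4]
    intro y hy
    exact h.pos_ne (c3.nf y hy) n4.2.2.2 n4.1
  rw [r1, r2] at b1
  have a1 : ¬ pos x4 < pos x3 := not_lt_of_gt h.o34
  have a2 : ¬ pos x4 < pos t3 := by have := h.o34; omega
  rw [if_neg a1, if_pos p4, if_neg a2] at b1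
  have a3 := zmod2_add_self (1 + (if pos t4 < pos t3 then (1 : ZMod 2) else 0))
  have a4 : lw pos (Sd' L x3) m + lw pos (Sd' L x4) m +
      (1 + (if pos t4 < pos t3 then (1 : ZMod 2) else 0)) = 0 := by
    refine Eq.trans ?_ b1
    ring
  exact add_right_cancel (a4.trans a3.symm)

end Six

end Pool.Agent.H73.W
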