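import Pool.Agent.H73.W.Tangle3

set_option autoImplicit false
set_option linter.unusedSectionVars false
open Finset

/-! # The tangle table : the three term relation -/

namespace Pool.Agent.H73.W

open Pool.Agent.H99.W

variable {α : Type*} [Fintype α] [DecidableEq α]

/-- the value at the mark -/
noncomputable def vmz (u3 u4 : ℂ) (a : ZMod 2) : ℂ :=
  if a = 0 then ph * u3 + ph⁻¹ * u4 else ph⁻¹ * u3 + ph * u4

lemma vm_eq (u3 u4 : ℂ) (n : ℕ) : vm u3 u4 n = vmz u3 u4 (n : ZMod 2) := by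
  unfold vm vmz
  by_cases h : Even n
  · rw [if_pos h, if_pos ((even_iff_zmod n).1 h)]
  · rw [if_neg h, if_neg fun h' => h ((even_iff_zmod n).2 h')]

open Classical in
lemma cnt_zmod (L : Lk α) (pos : α → ℤ) (m x : α) : ((cnt L pos m x : ℕ) : ZMod 2) =
    ∑ y ∈ Sd L x, if pos m < pos y ∧ pos (L.θ y) < pos m then 1 else 0 := by
  unfold cnt Sd Rt
  rw [card_filter, Nat.cast_sum, sum_filter]
  refine sum_congr rfl fun y _ => ?_
  by_cases h : L.G.Reachable x y <;> by_cases h' : pos m < pos y ∧ pos (L.θ y) < pos m <;>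
    simp [h, h']

namespace Six

variable {pos : α → ℤ} {l m r x3 x4 z : α} {L : Lk α} (h : Six pos l m r x3 x4 z L)

/-- the three places -/
def T (l m r t : α) : Prop := t = l ∨ t = m ∨ t = r

include h

lemma eT {t : α} (ht : T l m r t) : En L t := by
  rcases ht with rfl | rfl | rfl
  · exact h.el
  · exact h.em
  · exact h.er

/-- the right ends in a strand -/
lemma sum_strand {p q t a : α} (hp : T l m r p) (hq : T l m r q) (ht : T l m r t) (ha : En L a) :
    (∑ y ∈ Sd L a, if pos t < pos y ∧ pos (addl L.θ p q y) < pos t then (1 : ZMod 2) else 0) =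
      (if pos t < pos a ∧ pos (addl L.θ p q a) < pos t then 1 else 0) +
      ((if pos t < pos (L.far a) ∧ pos (addl L.θ p q (L.far a)) < pos t then 1 else 0) +
        lw pos (Sd' L a) m) := by
  have hc := Sd'_cl h.mt ha
  have i1 : a ∉ insert (L.far a) (Sd' L a) := by
    rw [mem_insert, not_or]; exact ⟨ha.ne.symm, not_mem_Sd'_self⟩
  rw [Sd_eq ha, sum_insert i1, sum_insert not_mem_Sd'_far]
  congr 2
  rw [← h.lw_T hc ht, lw_cl hc L.hθ]
  · refine sum_congr rfl fun y hy => ?_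
    have h1 := hc.nf y hy
    have hyp : y ≠ p := fun e => h1 (by rw [e]; exact (h.T_ne hp).2.2.2)
    have hyq : y ≠ q := fun e => h1 (by rw [e]; exact (h.T_ne hq).2.2.2)
    rw [addl_other _ hyp hyq]
  · exact fun y hy => h.pos_ne (hc.nf y hy) (h.T_ne ht).2.2.2 (h.T_ne ht).1

/-- the wall marks are not right ends -/
lemma x3_term {p q t : α} (hp : T l m r p) (hq : T l m r q) {x : α} (hx : x = x3 ∨ x = x4) :
    (if pos t < pos x ∧ pos (addl L.θ p q x) < pos t then (1 : ZMod 2) else 0) = 0 := by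
  have h1 : x ≠ p ∧ x ≠ q ∧ L.θ x = x := by
    rcases hx with rfl | rfl
    · exact ⟨(h.T_ne hp).2.1.symm, (h.T_ne hq).2.1.symm, h.f3⟩
    · exact ⟨(h.T_ne hp).2.2.1.symm, (h.T_ne hq).2.2.1.symm, h.f4⟩
  rw [addl_other _ h1.1 h1.2.1, h1.2.2, if_neg]
  rintro ⟨h2, h3⟩
  exact lt_asymm h2 h3

lemma x34 : x3 ≠ x4 := fun e => by
  have := h.o34; rw [e] at this; exact lt_irrefl _ this

/-- value in the structure with the link `p ~ q` and the mark `t`: `z` leads to `x3` or `x4` -/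
lemma val_x {p q t : α} (hp : T l m r p) (hq : T l m r q) (hpq : p ≠ q) {u3 u4 : ℂ} :
    (L.far z = x3 → VU (add L (h.T_ne hp).2.2.2 (h.T_ne hq).2.2.2) pos t x3 x4 u3 u4 z = u3) ∧
    (L.far z = x4 → VU (add L (h.T_ne hp).2.2.2 (h.T_ne hq).2.2.2) pos t x3 x4 u3 u4 z = u4) := by
  have np := h.T_ne hp
  have nq := h.T_ne hq
  constructor
  · intro hz
    have h1 := far_add_other np.2.2.2 nq.2.2.2 h.mt hpq h.ez np.1.symm nq.1.symm
      (by rw [hz]; exact np.2.1.symm) (by rw [hz]; exact nq.2.1.symm)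
    unfold VU
    rw [h1, hz, if_pos rfl]
  · intro hz
    have h1 := far_add_other np.2.2.2 nq.2.2.2 h.mt hpq h.ez np.1.symm nq.1.symm
      (by rw [hz]; exact np.2.2.1.symm) (by rw [hz]; exact nq.2.2.1.symm)
    unfold VU
    rw [h1, hz, if_neg h.x34.symm, if_pos rfl]

/-- `z` leads to `p`, and `q` leads to `x3` or `x4` -/
lemma val_p {p q t : α} (hp : T l m r p) (hq : T l m r q) (hpq : p ≠ q) {u3 u4 : ℂ}
    (hz : L.far z = p) :
    (L.far x3 = q → VU (add L (h.T_ne hp).2.2.2 (h.T_ne hq).2.2.2) pos t x3 x4 u3 u4 z = u3) ∧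
    (L.far x4 = q → VU (add L (h.T_ne hp).2.2.2 (h.T_ne hq).2.2.2) pos t x3 x4 u3 u4 z = u4) := by
  have np := h.T_ne hp
  have nq := h.T_ne hq
  have h1 := far_add_left np.2.2.2 nq.2.2.2 h.mt (h.eT hp).al (h.eT hq).al hpq h.ez np.1.symm
    nq.1.symm hz
  constructor
  · intro h3
    have h4 : L.far q = x3 := by rw [← h3, h.e3.far_far h.mt]
    unfold VU
    rw [h1, h4, if_pos rfl]
  · intro h3
    have h4 : L.far q = x4 := by rw [← h3, h.e4.far_far h.mt]
    unfold VU
    rw [h1, h4, if_neg h.x34.symm, if_pos rfl]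

/-- `z` leads to `q`, and `p` leads to `x3` or `x4` -/
lemma val_q {p q t : α} (hp : T l m r p) (hq : T l m r q) (hpq : p ≠ q) {u3 u4 : ℂ}
    (hz : L.far z = q) :
    (L.far x3 = p → VU (add L (h.T_ne hp).2.2.2 (h.T_ne hq).2.2.2) pos t x3 x4 u3 u4 z = u3) ∧
    (L.far x4 = p → VU (add L (h.T_ne hp).2.2.2 (h.T_ne hq).2.2.2) pos t x3 x4 u3 u4 z = u4) := by
  have np := h.T_ne hp
  have nq := h.T_ne hq
  have h1 := far_add_right np.2.2.2 nq.2.2.2 h.mt (h.eT hp).al (h.eT hq).al hpq h.ez np.1.symm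
    nq.1.symm hz
  constructor
  · intro h3
    have h4 : L.far p = x3 := by rw [← h3, h.e3.far_far h.mt]
    unfold VU
    rw [h1, h4, if_pos rfl]
  · intro h3
    have h4 : L.far p = x4 := by rw [← h3, h.e4.far_far h.mt]
    unfold VU
    rw [h1, h4, if_neg h.x34.symm, if_pos rfl]

/-- the value at the mark in general -/
lemma val_m {p q t : α} (hp : T l m r p) (hq : T l m r q) (ht : T l m r t)
    {u3 u4 : ℂ}
    (hz : (add L (h.T_ne hp).2.2.2 (h.T_ne hq).2.2.2).far z = t) :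
    VU (add L (h.T_ne hp).2.2.2 (h.T_ne hq).2.2.2) pos t x3 x4 u3 u4 z = vmz u3 u4
      (∑ y ∈ Sd (add L (h.T_ne hp).2.2.2 (h.T_ne hq).2.2.2) x3,
        if pos t < pos y ∧ pos (addl L.θ p q y) < pos t then 1 else 0) := by
  have nt := h.T_ne ht
  unfold VU
  rw [hz, if_neg nt.2.1, if_neg nt.2.2.1, vm_eq, cnt_zmod]
  rfl

/-- `x3` and `x4` are joined: the value is the same for the three structures -/
lemma val_34 {p q t : α} (hp : T l m r p) (hq : T l m r q) (ht : T l m r t) (hpq : p ≠ q)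
    {u3 u4 : ℂ} (h3 : L.far x3 = x4)
    (hz : (add L (h.T_ne hp).2.2.2 (h.T_ne hq).2.2.2).far z = t) :
    VU (add L (h.T_ne hp).2.2.2 (h.T_ne hq).2.2.2) pos t x3 x4 u3 u4 z =
      vmz u3 u4 (lw pos (Sd' L x3) m) := by
  have np := h.T_ne hp
  have nq := h.T_ne hq
  rw [h.val_m hp hq ht hz]
  have hS : Sd (add L (h.T_ne hp).2.2.2 (h.T_ne hq).2.2.2) x3 = Sd L x3 := by
    ext y
    rw [mem_Sd, mem_Sd, reach_add _ _ hpq]
    constructor
    · rintro (h1 | ⟨h1, -⟩ | ⟨h1, -⟩)
      · exact h1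
      · rcases (h.e3.reach_iff (h.eT hp)).1 h1 with h2 | h2
        · exact absurd h2 np.2.1
        · exact absurd (h2.trans h3) np.2.2.1
      · rcases (h.e3.reach_iff (h.eT hq)).1 h1 with h2 | h2
        · exact absurd h2 nq.2.1
        · exact absurd (h2.trans h3) nq.2.2.1
    · exact Or.inl
  rw [hS, h.sum_strand hp hq ht h.e3, h3, h.x3_term hp hq (Or.inl rfl), h.x3_term hp hq (Or.inr rfl),
    zero_add, zero_add]

/-- the tripod: `x3` leads to `p`, `x4` to `q`, `z` to `t` -/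
lemma val_pq {p q t : α} (hp : T l m r p) (hq : T l m r q) (ht : T l m r t) (hpq : p ≠ q)
    {u3 u4 : ℂ} (hpt : p ≠ t) (hqt : q ≠ t)
    (hz : L.far z = t) (h34 : (L.far x3 = p ∧ L.far x4 = q) ∨ (L.far x3 = q ∧ L.far x4 = p)) :
    VU (add L (h.T_ne hp).2.2.2 (h.T_ne hq).2.2.2) pos t x3 x4 u3 u4 z =
      vmz u3 u4 (1 + (if pos (L.far x4) < pos (L.far x3) then 1 else 0) +
        ((if pos t < pos p ∧ pos q < pos t then 1 else 0) +
          (if pos t < pos q ∧ pos p < pos t then 1 else 0))) := by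
  have np := h.T_ne hp
  have nq := h.T_ne hq
  have nt := h.T_ne ht
  have hz' := far_add_other np.2.2.2 nq.2.2.2 h.mt hpq h.ez np.1.symm nq.1.symm
      (by rw [hz]; exact hpt.symm) (by rw [hz]; exact hqt.symm)
  rw [h.val_m hp hq ht (hz'.trans hz)]
  congr 1
  have h3T : T l m r (L.far x3) := by
    rcases h34 with h1 | h1
    · rw [h1.1]; exact hp
    · rw [h1.1]; exact hq
  have h4T : T l m r (L.far x4) := by
    rcases h34 with h1 | h1
    · rw [h1.2]; exact hq
    · rw [h1.2]; exact hp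
  have hS : Sd (add L (h.T_ne hp).2.2.2 (h.T_ne hq).2.2.2) x3 = Sd L x3 ∪ Sd L x4 := by
    ext y
    rw [mem_Sd, mem_union, mem_Sd, mem_Sd, reach_add _ _ hpq]
    rcases h34 with h1 | h1
    · have e1 := h.e3.reach
      have e2 := h.e4.reach
      rw [h1.1] at e1
      rw [h1.2] at e2
      constructor
      · rintro (h2 | ⟨-, h2⟩ | ⟨h2, -⟩)
        · exact Or.inl h2
        · exact Or.inr (e2.trans h2)
        · rcases (h.e3.reach_iff (h.eT hq)).1 h2 with h5 | h5
          · exact absurd h5 nq.2.1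
          · exact absurd (h5.trans h1.1).symm hpq
      · rintro (h2 | h2)
        · exact Or.inl h2
        · exact Or.inr (Or.inl ⟨e1, e2.symm.trans h2⟩)
    · have e1 := h.e3.reach
      have e2 := h.e4.reach
      rw [h1.1] at e1
      rw [h1.2] at e2
      constructor
      · rintro (h2 | ⟨h2, -⟩ | ⟨-, h2⟩)
        · exact Or.inl h2
        · rcases (h.e3.reach_iff (h.eT hp)).1 h2 with h5 | h5
          · exact absurd h5 np.2.1
          · exact absurd (h5.trans h1.1) hpq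
        · exact Or.inr (e2.trans h2)
      · rintro (h2 | h2)
        · exact Or.inl h2
        · exact Or.inr (Or.inr ⟨e1, e2.symm.trans h2⟩)
  have hdis : Disjoint (Sd L x3) (Sd L x4) := by
    rw [Finset.disjoint_left]
    intro y hy hy'
    rw [mem_Sd] at hy hy'
    rcases (h.e3.reach_iff h.e4).1 (hy.trans hy'.symm) with h5 | h5
    · exact h.x34 h5.symm
    · exact (h.T_ne h3T).2.2.1 h5.symm
  rw [hS, sum_union hdis, h.sum_strand hp hq ht h.e3, h.sum_strand hp hq ht h.e4,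
    h.x3_term hp hq (Or.inl rfl), h.x3_term hp hq (Or.inr rfl), zero_add, zero_add]
  have htri := h.tripod rfl rfl h3T h4T
  rcases h34 with h1 | h1
  · rw [h1.1, h1.2, addl_left, addl_right]
    rw [h1.1, h1.2] at htri
    rw [← htri]
    ring
  · rw [h1.1, h1.2, addl_left, addl_right]
    rw [h1.1, h1.2] at htri
    rw [← htri]
    ring

end Six

end Pool.Agent.H73.W
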