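import Pool.Agent.H73.W.Tangle4

set_option autoImplicit false
set_option linter.unusedSectionVars false
open Finset

/-! # The tangle table : the resolution of a link around the mark -/

namespace Pool.Agent.H73.W

open Pool.Agent.H99.W

variable {α : Type*} [Fintype α] [DecidableEq α]

lemma ph_inv_sq : ph⁻¹ * ph⁻¹ = - ph := by
  rw [ph_inv]
  have := ph_sq
  linear_combination this

lemma ph_inv_mul : ph⁻¹ * ph = 1 := inv_mul_cancel₀ ph_ne

lemma ph_sq' : ph * ph = - ph⁻¹ := by
  rw [ph_inv]
  have := ph_sq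
  linear_combination this

namespace Six

variable {pos : α → ℤ} {l m r x3 x4 z : α} {L : Lk α} (h : Six pos l m r x3 x4 z L)

include h

lemma far_ne {a b : α} (ha : En L a) (hb : En L b) (hab : a ≠ b) : L.far a ≠ L.far b := fun e =>
  hab (by rw [← ha.far_far h.mt, e, hb.far_far h.mt])

/-- **The resolution of the innermost link around the mark.** -/
theorem three (u3 u4 : ℂ) : VU (add L h.fl h.fr) pos m x3 x4 u3 u4 z =
    ph * VU (add L h.fl h.fm) pos r x3 x4 u3 u4 z +
      ph⁻¹ * VU (add L h.fm h.fr) pos l x3 x4 u3 u4 z := by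
  have Tl : T l m r l := Or.inl rfl
  have Tm : T l m r m := Or.inr (Or.inl rfl)
  have Tr : T l m r r := Or.inr (Or.inr rfl)
  have plm := h.lm
  have pmr := h.mr
  have nlm : l ≠ m := fun e => by rw [e] at plm; exact lt_irrefl _ plm
  have nmr : m ≠ r := fun e => by rw [e] at pmr; exact lt_irrefl _ pmr
  have nlr : l ≠ r := fun e => by rw [e] at plm; exact lt_asymm plm pmr
  have n34 := h.x34
  have nl := h.T_ne Tl
  have nm := h.T_ne Tm
  have nr := h.T_ne Tr
  have e1 := ph_add
  have e2 := ph_mul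
  have e3 := ph_inv_sq
  have e4 := ph_inv_mul
  have e5 := ph_sq'
  have ff := fun (a : α) (ha : En L a) => ha.far_far h.mt
  have f3z : L.far z ≠ x3 → L.far x3 ≠ z := fun h1 h2 => h1 (by rw [← h2, ff _ h.e3])
  have f4z : L.far z ≠ x4 → L.far x4 ≠ z := fun h1 h2 => h1 (by rw [← h2, ff _ h.e4])
  have c3 := h.end_cases (h.e3.far h.mt)
  have c4 := h.end_cases (h.e4.far h.mt)
  have d34 := h.far_ne h.e3 h.e4 n34
  have dz3 := h.far_ne h.ez h.e3 h.z3
  have dz4 := h.far_ne h.ez h.e4 h.z4
  have s3 := h.e3.ne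
  have s4 := h.e4.ne
  have f34 : L.far x3 ≠ x4 → L.far x4 ≠ x3 := fun h1 h2 => h1 (by rw [← h2, ff _ h.e4])
  -- if `x3` and `x4` are joined
  have key34 : L.far x3 = x4 → L.far z ≠ x3 → L.far z ≠ x4 →
      VU (add L h.fl h.fr) pos m x3 x4 u3 u4 z = vmz u3 u4 (lw pos (Sd' L x3) m) ∧
      VU (add L h.fl h.fm) pos r x3 x4 u3 u4 z = vmz u3 u4 (lw pos (Sd' L x3) m) ∧
      VU (add L h.fm h.fr) pos l x3 x4 u3 u4 z = vmz u3 u4 (lw pos (Sd' L x3) m) := by
    intro h3 hz3 hz4
    have h4 : L.far x4 = x3 := by rw [← h3, ff _ h.e3]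
    have hf : ∀ {a : α}, En L a → a ≠ x3 → a ≠ x4 → L.far a ≠ x3 ∧ L.far a ≠ x4 := by
      intro a ha n3 n4
      refine ⟨fun e => n4 ?_, fun e => n3 ?_⟩
      · rw [← ff a ha, e, h3]
      · rw [← ff a ha, e, h4]
    have hl := hf h.el nl.2.1 nl.2.2.1
    have hm := hf h.em nm.2.1 nm.2.2.1
    have hr := hf h.er nr.2.1 nr.2.2.1
    have cl := h.end_cases (h.el.far h.mt)
    have cm := h.end_cases (h.em.far h.mt)
    have cr := h.end_cases (h.er.far h.mt)
    have sl := h.el.ne
    have sm := h.em.ne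
    have sr := h.er.ne
    rcases h.end_cases (h.ez.far h.mt) with hz | hz | hz | hz | hz | hz
    · exact absurd hz h.ez.ne
    · -- `z` with `l`, `m` with `r`
      have hlz : L.far l = z := by rw [← hz, ff _ h.ez]
      have hmr : L.far m = r := by
        rcases cm with h1 | h1 | h1 | h1 | h1 | h1
        · exact absurd (by rw [← ff m h.em, h1, hz] : m = l) nlm.symm
        · exact absurd (by rw [← ff m h.em, h1, hlz] : m = z) nm.1
        · exact absurd h1 sm
        · exact h1
        · exact absurd h1 hm.1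
        · exact absurd h1 hm.2
      have hrm : L.far r = m := by rw [← hmr, ff _ h.em]
      refine ⟨?_, ?_, ?_⟩
      · exact h.val_34 Tl Tr Tm nlr h3 (by
          rw [far_add_left h.fl h.fr h.mt h.ml h.mr' nlr h.ez nl.1.symm nr.1.symm hz, hrm])
      · exact h.val_34 Tl Tm Tr nlm h3 (by
          rw [far_add_left h.fl h.fm h.mt h.ml h.mm nlm h.ez nl.1.symm nm.1.symm hz, hmr])
      · exact h.val_34 Tm Tr Tl nmr h3 (by
          rw [far_add_other h.fm h.fr h.mt nmr h.ez nm.1.symm nr.1.symm (by rw [hz]; exact nlm)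
            (by rw [hz]; exact nlr), hz])
    · -- `z` with `m`, `l` with `r`
      have hmz : L.far m = z := by rw [← hz, ff _ h.ez]
      have hlr : L.far l = r := by
        rcases cl with h1 | h1 | h1 | h1 | h1 | h1
        · exact absurd (by rw [← ff l h.el, h1, hz] : l = m) nlm
        · exact absurd h1 sl
        · exact absurd (by rw [← ff l h.el, h1, hmz] : l = z) nl.1
        · exact h1
        · exact absurd h1 hl.1
        · exact absurd h1 hl.2
      have hrl : L.far r = l := by rw [← hlr, ff _ h.el]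
      refine ⟨?_, ?_, ?_⟩
      · exact h.val_34 Tl Tr Tm nlr h3 (by
          rw [far_add_other h.fl h.fr h.mt nlr h.ez nl.1.symm nr.1.symm (by rw [hz]; exact nlm.symm)
            (by rw [hz]; exact nmr), hz])
      · exact h.val_34 Tl Tm Tr nlm h3 (by
          rw [far_add_right h.fl h.fm h.mt h.ml h.mm nlm h.ez nl.1.symm nm.1.symm hz, hlr])
      · exact h.val_34 Tm Tr Tl nmr h3 (by
          rw [far_add_left h.fm h.fr h.mt h.mm h.mr' nmr h.ez nm.1.symm nr.1.symm hz, hrl])
    · -- `z` with `r`, `l` with `m`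
      have hrz : L.far r = z := by rw [← hz, ff _ h.ez]
      have hlm : L.far l = m := by
        rcases cl with h1 | h1 | h1 | h1 | h1 | h1
        · exact absurd (by rw [← ff l h.el, h1, hz] : l = r) nlr
        · exact absurd h1 sl
        · exact h1
        · exact absurd (by rw [← ff l h.el, h1, hrz] : l = z) nl.1
        · exact absurd h1 hl.1
        · exact absurd h1 hl.2
      have hml : L.far m = l := by rw [← hlm, ff _ h.el]
      refine ⟨?_, ?_, ?_⟩
      · exact h.val_34 Tl Tr Tm nlr h3 (by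
          rw [far_add_right h.fl h.fr h.mt h.ml h.mr' nlr h.ez nl.1.symm nr.1.symm hz, hlm])
      · exact h.val_34 Tl Tm Tr nlm h3 (by
          rw [far_add_other h.fl h.fm h.mt nlm h.ez nl.1.symm nm.1.symm (by rw [hz]; exact nlr.symm)
            (by rw [hz]; exact nmr.symm), hz])
      · exact h.val_34 Tm Tr Tl nmr h3 (by
          rw [far_add_right h.fm h.fr h.mt h.mm h.mr' nmr h.ez nm.1.symm nr.1.symm hz, hml])
    · exact absurd hz hz3
    · exact absurd hz hz4
  rcases h.end_cases (h.ez.far h.mt) with hz | hz | hz | hz | hz | hz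
  · exact absurd hz h.ez.ne
  · -- `z` leads to `l`
    have a3 : L.far z ≠ x3 := by rw [hz]; exact nl.2.1
    have a4 : L.far z ≠ x4 := by rw [hz]; exact nl.2.2.1
    rcases c3 with h3 | h3 | h3 | h3 | h3 | h3
    · exact absurd h3 (f3z a3)
    · exact absurd (hz.trans h3.symm) dz3
    · have h4 : L.far x4 = r := by
        rcases c4 with h1 | h1 | h1 | h1 | h1 | h1
        · exact absurd h1 (f4z a4)
        · exact absurd (hz.trans h1.symm) dz4
        · exact absurd (h3.trans h1.symm) d34
        · exact h1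
        · exact absurd h1 (f34 (by rw [h3]; exact nm.2.2.1))
        · exact absurd h1 s4
      rw [(h.val_p Tl Tr nlr hz).2 h4, (h.val_p Tl Tm nlm hz).1 h3,
        h.val_pq Tm Tr Tl nmr nlm.symm nlr.symm hz (Or.inl ⟨h3, h4⟩), h3, h4,
        if_neg (by omega), if_neg (by omega), if_neg (by omega), vmz,
        if_neg (by decide)]
      linear_combination (-u3) * e3 - u4 * e4
    · have h4 : L.far x4 = m := by
        rcases c4 with h1 | h1 | h1 | h1 | h1 | h1
        · exact absurd h1 (f4z a4)
        · exact absurd (hz.trans h1.symm) dz4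
        · exact h1
        · exact absurd (h3.trans h1.symm) d34
        · exact absurd h1 (f34 (by rw [h3]; exact nr.2.2.1))
        · exact absurd h1 s4
      rw [(h.val_p Tl Tr nlr hz).1 h3, (h.val_p Tl Tm nlm hz).2 h4,
        h.val_pq Tm Tr Tl nmr nlm.symm nlr.symm hz (Or.inr ⟨h3, h4⟩), h3, h4,
        if_pos (by omega), if_neg (by omega), if_neg (by omega), vmz,
        if_pos (by decide)]
      linear_combination (-u4) * e3 - u3 * e4
    · exact absurd h3 s3
    · obtain ⟨k1, k2, k3⟩ := key34 h3 a3 a4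
      rw [k1, k2, k3]
      linear_combination (-vmz u3 u4 (lw pos (Sd' L x3) m)) * e1
  · -- `z` leads to `m`
    have a3 : L.far z ≠ x3 := by rw [hz]; exact nm.2.1
    have a4 : L.far z ≠ x4 := by rw [hz]; exact nm.2.2.1
    rcases c3 with h3 | h3 | h3 | h3 | h3 | h3
    · exact absurd h3 (f3z a3)
    · have h4 : L.far x4 = r := by
        rcases c4 with h1 | h1 | h1 | h1 | h1 | h1
        · exact absurd h1 (f4z a4)
        · exact absurd (h3.trans h1.symm) d34
        · exact absurd (hz.trans h1.symm) dz4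
        · exact h1
        · exact absurd h1 (f34 (by rw [h3]; exact nl.2.2.1))
        · exact absurd h1 s4
      rw [h.val_pq Tl Tr Tm nlr nlm nmr.symm hz (Or.inl ⟨h3, h4⟩), (h.val_q Tl Tm nlm hz).1 h3,
        (h.val_p Tm Tr nmr hz).2 h4, h3, h4,
        if_neg (by omega), if_neg (by omega), if_pos (by omega), vmz,
        if_pos (by decide)]
    · exact absurd (hz.trans h3.symm) dz3
    · have h4 : L.far x4 = l := by
        rcases c4 with h1 | h1 | h1 | h1 | h1 | h1
        · exact absurd h1 (f4z a4)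
        · exact h1
        · exact absurd (hz.trans h1.symm) dz4
        · exact absurd (h3.trans h1.symm) d34
        · exact absurd h1 (f34 (by rw [h3]; exact nr.2.2.1))
        · exact absurd h1 s4
      rw [h.val_pq Tl Tr Tm nlr nlm nmr.symm hz (Or.inr ⟨h3, h4⟩), (h.val_q Tl Tm nlm hz).2 h4,
        (h.val_p Tm Tr nmr hz).1 h3, h3, h4,
        if_pos (by omega), if_neg (by omega), if_pos (by omega), vmz,
        if_neg (by decide)]
      ring
    · exact absurd h3 s3
    · obtain ⟨k1, k2, k3⟩ := key34 h3 a3 a4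
      rw [k1, k2, k3]
      linear_combination (-vmz u3 u4 (lw pos (Sd' L x3) m)) * e1
  · -- `z` leads to `r`
    have a3 : L.far z ≠ x3 := by rw [hz]; exact nr.2.1
    have a4 : L.far z ≠ x4 := by rw [hz]; exact nr.2.2.1
    rcases c3 with h3 | h3 | h3 | h3 | h3 | h3
    · exact absurd h3 (f3z a3)
    · have h4 : L.far x4 = m := by
        rcases c4 with h1 | h1 | h1 | h1 | h1 | h1
        · exact absurd h1 (f4z a4)
        · exact absurd (h3.trans h1.symm) d34
        · exact h1
        · exact absurd (hz.trans h1.symm) dz4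
        · exact absurd h1 (f34 (by rw [h3]; exact nl.2.2.1))
        · exact absurd h1 s4
      rw [(h.val_q Tl Tr nlr hz).1 h3, h.val_pq Tl Tm Tr nlm nlr nmr hz (Or.inl ⟨h3, h4⟩),
        (h.val_q Tm Tr nmr hz).2 h4, h3, h4,
        if_neg (by omega), if_neg (by omega), if_neg (by omega), vmz,
        if_neg (by decide)]
      linear_combination (-u3) * e2 - u4 * e5
    · have h4 : L.far x4 = l := by
        rcases c4 with h1 | h1 | h1 | h1 | h1 | h1
        · exact absurd h1 (f4z a4)
        · exact h1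
        · exact absurd (h3.trans h1.symm) d34
        · exact absurd (hz.trans h1.symm) dz4
        · exact absurd h1 (f34 (by rw [h3]; exact nm.2.2.1))
        · exact absurd h1 s4
      rw [(h.val_q Tl Tr nlr hz).2 h4, h.val_pq Tl Tm Tr nlm nlr nmr hz (Or.inr ⟨h3, h4⟩),
        (h.val_q Tm Tr nmr hz).1 h3, h3, h4,
        if_pos (by omega), if_neg (by omega), if_neg (by omega), vmz,
        if_pos (by decide)]
      linear_combination (-u4) * e2 - u3 * e5
    · exact absurd (hz.trans h3.symm) dz3
    · exact absurd h3 s3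
    · obtain ⟨k1, k2, k3⟩ := key34 h3 a3 a4
      rw [k1, k2, k3]
      linear_combination (-vmz u3 u4 (lw pos (Sd' L x3) m)) * e1
  · rw [(h.val_x Tl Tr nlr).1 hz, (h.val_x Tl Tm nlm).1 hz, (h.val_x Tm Tr nmr).1 hz]
    linear_combination (-u3) * e1
  · rw [(h.val_x Tl Tr nlr).2 hz, (h.val_x Tl Tm nlm).2 hz, (h.val_x Tm Tr nmr).2 hz]
    linear_combination (-u4) * e1

end Six

end Pool.Agent.H73.W
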