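import Pool.Agent.H73.W.Tangle5

set_option autoImplicit false
set_option linter.unusedSectionVars false
open Finset

/-! # The tangle table : expansion into plane outsides -/

namespace Pool.Agent.H73.W

open Pool.Agent.H99.W

variable {α : Type*} [DecidableEq α]

/-- the link between `l` and `r` is cut -/
def reml (θ : α → α) (l r e : α) : α := if e = l then l else if e = r then r else θ e

section reml

variable {θ : α → α} {l r m e : α}

lemma reml_left : reml θ l r l = l := by unfold reml; simp
lemma reml_right : reml θ l r r = r := by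
  unfold reml
  by_cases h : r = l
  · simp [h]
  · simp [h]

lemma reml_other (h1 : e ≠ l) (h2 : e ≠ r) : reml θ l r e = θ e := by
  unfold reml; simp [h1, h2]

lemma reml_inv (hi : ∀ e, θ (θ e) = e) (h : θ l = r) (e : α) : reml θ l r (reml θ l r e) = e := by
  have h' : θ r = l := by rw [← h, hi]
  by_cases h1 : e = l
  · rw [h1, reml_left, reml_left]
  · by_cases h2 : e = r
    · rw [h2, reml_right, reml_right]
    · rw [reml_other h1 h2, reml_other, hi]
      · intro e'; exact h2 (by rw [← hi e, e', h])
      · intro e'; exact h1 (by rw [← hi e, e', h'])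

lemma addl_reml (h : θ l = r) (hi : ∀ e, θ (θ e) = e) : addl (reml θ l r) l r = θ := by
  have h' : θ r = l := by rw [← h, hi]
  funext e
  by_cases h1 : e = l
  · rw [h1, addl_left, h]
  · by_cases h2 : e = r
    · rw [h2, addl_right, h']
    · rw [addl_other _ h1 h2, reml_other h1 h2]

lemma reml_ne (h : reml θ l r e ≠ e) : e ≠ l ∧ e ≠ r ∧ θ e ≠ e ∧ reml θ l r e = θ e := by
  have h1 : e ≠ l := fun e' => h (by rw [e', reml_left])
  have h2 : e ≠ r := fun e' => h (by rw [e', reml_right])
  exact ⟨h1, h2, by rwa [reml_other h1 h2] at h, reml_other h1 h2⟩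

end reml

/-- the innermost link around the mark -/
structure Inm (pos : α → ℤ) (m l r : α) (θ : α → α) : Prop where
  lr : θ l = r
  lm : pos l < pos m
  mr : pos m < pos r
  mx : ∀ y, pos y < pos m → pos m < pos (θ y) → pos y ≤ pos l

variable {pos : α → ℤ} {m x3 x4 : α} {θ : α → α}

lemma exists_inm [Fintype α] (h : Outs pos m x3 x4 θ) (hr : ∃ y, Rt pos θ m y) :
    ∃ l r, Inm pos m l r θ := by
  classical
  obtain ⟨y, hy1, hy2⟩ := hr
  obtain ⟨l, hl, hmax⟩ := exists_max_image (univ.filter fun y => pos y < pos m ∧ pos m < pos (θ y))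
    pos ⟨θ y, by simp only [mem_filter, mem_univ, true_and]; exact ⟨hy2, by rw [h.inv]; exact hy1⟩⟩
  simp only [mem_filter, mem_univ, true_and] at hl hmax
  exact ⟨l, θ l, rfl, hl.1, hl.2, fun y h1 h2 => hmax y ⟨h1, h2⟩⟩

section step

variable {l r : α} (h : Outs pos m x3 x4 θ) (hi : Inm pos m l r θ)

include h hi

lemma Inm.rl : θ r = l := by rw [← hi.lr, h.inv]

lemma Inm.fx {e : α} (he : θ e = e) : e ≠ l ∧ e ≠ r := by
  have h1 := hi.lm
  have h2 := hi.mr
  constructor
  · rintro rfl
    rw [← hi.lr, he] at h2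
    exact lt_asymm h1 h2
  · rintro rfl
    have := hi.rl h
    rw [he] at this
    rw [this] at h2
    exact lt_asymm h1 h2

/-- the other links straddle `l` iff they straddle `m` -/
lemma Inm.str (hinj : ∀ x y, θ x ≠ x → (θ y ≠ y ∨ y = m) → pos x = pos y → x = y) {y : α} (hy : reml θ l r y ≠ y) :
    ((pos y < pos l ↔ pos (reml θ l r y) < pos l) ↔ (pos y < pos m ↔ pos (reml θ l r y) < pos m)) ∧
    ((pos y < pos r ↔ pos (reml θ l r y) < pos r) ↔ (pos y < pos m ↔ pos (reml θ l r y) < pos m)) := by
  obtain ⟨h1, h2, h3, h4⟩ := reml_ne hy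
  rw [h4]
  have hl : θ l ≠ l := by
    rw [hi.lr]; rintro rfl; exact lt_asymm hi.lm hi.mr
  have hr : θ r ≠ r := by
    rw [hi.rl h]; rintro rfl; exact lt_asymm hi.lm hi.mr
  have hm : y ≠ m := fun e => h3 (by rw [e]; exact h.fm)
  have hy' : θ (θ y) ≠ θ y := by rw [h.inv]; exact fun e => h3 e.symm
  have h1' : θ y ≠ l := fun e => h2 (by rw [← h.inv y, e, hi.lr])
  have h2' : θ y ≠ r := fun e => h1 (by rw [← h.inv y, e, hi.rl h])
  have hm' : θ y ≠ m := fun e => hm (by rw [← h.inv y, e, h.fm])
  have a1 : pos y ≠ pos l := fun e => h1 (hinj _ _ h3 (Or.inl hl) e)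
  have a2 : pos y ≠ pos r := fun e => h2 (hinj _ _ h3 (Or.inl hr) e)
  have a3 : pos (θ y) ≠ pos l := fun e => h1' (hinj _ _ hy' (Or.inl hl) e)
  have a4 : pos (θ y) ≠ pos r := fun e => h2' (hinj _ _ hy' (Or.inl hr) e)
  have a5 : pos y ≠ pos m := fun e => hm (hinj _ _ h3 (Or.inr rfl) e)
  have a6 : pos (θ y) ≠ pos m := fun e => hm' (hinj _ _ hy' (Or.inr rfl) e)
  have b1 := hi.lm
  have b2 := hi.mr
  have c1 := hi.mx y
  have c2 := hi.mx (θ y)
  have d1 := h.nc y l
  have d2 := h.nc l y
  have d3 := h.nc (θ y) l
  have d4 := h.nc l (θ y)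
  unfold NX at d1 d2 d3 d4
  rw [h.inv] at c2 d3 d4
  rw [hi.lr] at d1 d2 d3 d4
  by_cases k1 : pos y < pos l <;> by_cases k2 : pos (θ y) < pos l <;>
    by_cases k3 : pos y < pos m <;> by_cases k4 : pos (θ y) < pos m <;>
    by_cases k5 : pos y < pos r <;> by_cases k6 : pos (θ y) < pos r <;>
    simp only [k1, k2, k3, k4, k5, k6] <;> first | (exfalso; omega) | simp

/-- the outside with the link `l ~ m` and the mark `r` -/
lemma Inm.outsR (hinj : ∀ x y, θ x ≠ x → (θ y ≠ y ∨ y = m) → pos x = pos y → x = y) :
    Outs pos r x3 x4 (addl (reml θ l r) l m) := by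
  have hi0 := reml_inv h.inv hi.lr
  have f3 := hi.fx h h.f3
  have f4 := hi.fx h h.f4
  have fm := hi.fx h h.fm
  have b1 := hi.lm
  have b2 := hi.mr
  have hm3 := h.m3
  have h34 := h.o34
  have hr : θ r ≠ r := by
    rw [hi.rl h]; rintro rfl; exact lt_asymm hi.lm hi.mr
  have hr3 := h.lt3 r hr
  have r0m : reml θ l r m = m := by rw [reml_other fm.1 fm.2, h.fm]
  have hm3' : x3 ≠ m := by rintro rfl; exact lt_irrefl _ hm3
  have hm4' : x4 ≠ m := by rintro rfl; exact lt_asymm hm3 h34
  have hrm : r ≠ m := fm.2.symm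
  have hlr : r ≠ l := by rintro rfl; exact lt_asymm b1 b2
  constructor
  · exact addl_inv hi0 reml_left r0m
  · intro x y
    unfold NX
    rintro ⟨k1, k2, k3⟩
    by_cases x1 : x = l
    · subst x1
      rw [addl_left] at k2 k3
      by_cases y2 : y = m
      · subst y2; exact lt_irrefl _ k2
      · have y1 : y ≠ x := by rintro rfl; exact lt_irrefl _ k1
        rw [addl_other _ y1 y2] at k3
        have hne : reml θ x r y ≠ y := fun e => by rw [e] at k3; exact lt_asymm k2 k3
        have := (hi.str h hinj hne).1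
        have e1 : ¬ pos y < pos x := not_lt_of_gt k1
        have e2 : ¬ pos (reml θ x r y) < pos x := by omega
        have e3 : pos y < pos m := k2
        have e4 : ¬ pos (reml θ x r y) < pos m := not_lt_of_gt k3
        simp [e1, e2, e3, e4] at this
    · by_cases x2 : x = m
      · subst x2
        rw [addl_right] at k2
        omega
      · rw [addl_other _ x1 x2] at k2 k3
        have hnx : reml θ l r x ≠ x := fun e => by rw [e] at k2; exact lt_asymm k1 k2
        by_cases y1 : y = l
        · subst y1
          rw [addl_left] at k3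
          have := (hi.str h hinj hnx).1
          have e1 : pos x < pos y := k1
          have e2 : ¬ pos (reml θ y r x) < pos y := not_lt_of_gt k2
          have e3 : pos x < pos m := by omega
          have e4 : pos (reml θ y r x) < pos m := k3
          simp [e1, e2, e3, e4] at this
        · by_cases y2 : y = m
          · subst y2
            rw [addl_right] at k3
            omega
          · rw [addl_other _ y1 y2] at k3
            have hny : reml θ l r y ≠ y := fun e => by rw [e] at k3; exact lt_asymm k2 k3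
            have h1 := (reml_ne hnx).2.2.2
            have h2 := (reml_ne hny).2.2.2
            rw [h1] at k2 k3
            rw [h2] at k3
            exact h.nc x y ⟨k1, k2, k3⟩
  · rw [addl_other _ hlr hrm, reml_right]
  · rw [addl_other _ f3.1 hm3', reml_other f3.1 f3.2, h.f3]
  · rw [addl_other _ f4.1 hm4', reml_other f4.1 f4.2, h.f4]
  · exact hr3
  · exact h34
  · intro y hy
    by_cases y1 : y = l
    · subst y1; omega
    · by_cases y2 : y = m
      · subst y2; exact hm3
      · rw [addl_other _ y1 y2] at hy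
        exact h.lt3 y (reml_ne hy).2.2.1

/-- the outside with the link `m ~ r` and the mark `l` -/
lemma Inm.outsL (hinj : ∀ x y, θ x ≠ x → (θ y ≠ y ∨ y = m) → pos x = pos y → x = y) :
    Outs pos l x3 x4 (addl (reml θ l r) m r) := by
  have hi0 := reml_inv h.inv hi.lr
  have f3 := hi.fx h h.f3
  have f4 := hi.fx h h.f4
  have fm := hi.fx h h.fm
  have b1 := hi.lm
  have b2 := hi.mr
  have hm3 := h.m3
  have h34 := h.o34
  have hr : θ r ≠ r := by
    rw [hi.rl h]; rintro rfl; exact lt_asymm hi.lm hi.mr
  have hr3 := h.lt3 r hr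
  have r0m : reml θ l r m = m := by rw [reml_other fm.1 fm.2, h.fm]
  have hm3' : x3 ≠ m := by rintro rfl; exact lt_irrefl _ hm3
  have hm4' : x4 ≠ m := by rintro rfl; exact lt_asymm hm3 h34
  have hlm : l ≠ m := fm.1.symm
  have hlr : l ≠ r := by rintro rfl; exact lt_asymm b1 b2
  constructor
  · exact addl_inv hi0 r0m reml_right
  · intro x y
    unfold NX
    rintro ⟨k1, k2, k3⟩
    by_cases x1 : x = m
    · subst x1
      rw [addl_left] at k2 k3
      by_cases y2 : y = r
      · subst y2; exact lt_irrefl _ k2
      · have y1 : y ≠ x := by rintro rfl; exact lt_irrefl _ k1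
        rw [addl_other _ y1 y2] at k3
        have hne : reml θ l r y ≠ y := fun e => by rw [e] at k3; exact lt_asymm k2 k3
        have := (hi.str h hinj hne).2
        have e1 : ¬ pos y < pos x := not_lt_of_gt k1
        have e2 : ¬ pos (reml θ l r y) < pos x := by omega
        have e3 : pos y < pos r := k2
        have e4 : ¬ pos (reml θ l r y) < pos r := not_lt_of_gt k3
        simp [e1, e2, e3, e4] at this
    · by_cases x2 : x = r
      · subst x2
        rw [addl_right] at k2
        omega
      · rw [addl_other _ x1 x2] at k2 k3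
        have hnx : reml θ l r x ≠ x := fun e => by rw [e] at k2; exact lt_asymm k1 k2
        by_cases y1 : y = m
        · subst y1
          rw [addl_left] at k3
          have := (hi.str h hinj hnx).2
          have e1 : pos x < pos y := k1
          have e2 : ¬ pos (reml θ l r x) < pos y := not_lt_of_gt k2
          have e3 : pos x < pos r := by omega
          have e4 : pos (reml θ l r x) < pos r := k3
          simp [e1, e2, e3, e4] at this
        · by_cases y2 : y = r
          · subst y2
            rw [addl_right] at k3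
            omega
          · rw [addl_other _ y1 y2] at k3
            have hny : reml θ l r y ≠ y := fun e => by rw [e] at k3; exact lt_asymm k2 k3
            have h1 := (reml_ne hnx).2.2.2
            have h2 := (reml_ne hny).2.2.2
            rw [h1] at k2 k3
            rw [h2] at k3
            exact h.nc x y ⟨k1, k2, k3⟩
  · rw [addl_other _ hlm hlr, reml_left]
  · rw [addl_other _ hm3' f3.2, reml_other f3.1 f3.2, h.f3]
  · rw [addl_other _ hm4' f4.2, reml_other f4.1 f4.2, h.f4]
  · omega
  · exact h34
  · intro y hy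
    by_cases y1 : y = m
    · subst y1; exact hm3
    · by_cases y2 : y = r
      · subst y2; exact hr3
      · rw [addl_other _ y1 y2] at hy
        exact h.lt3 y (reml_ne hy).2.2.1

/-- the links around the new mark `r` -/
lemma Inm.RtR (hinj : ∀ x y, θ x ≠ x → (θ y ≠ y ∨ y = m) → pos x = pos y → x = y) (y : α) :
    Rt pos (addl (reml θ l r) l m) r y ↔ Rt pos θ m y ∧ y ≠ r := by
  have b1 := hi.lm
  have b2 := hi.mr
  have hr : θ r ≠ r := by
    rw [hi.rl h]; rintro rfl; exact lt_asymm hi.lm hi.mr
  unfold Rt
  constructor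
  · rintro ⟨k1, k2⟩
    have y1 : y ≠ l := by rintro rfl; omega
    have y2 : y ≠ m := by rintro rfl; omega
    rw [addl_other _ y1 y2] at k2
    have hne : reml θ l r y ≠ y := fun e => by rw [e] at k2; exact lt_asymm k1 k2
    have := (hi.str h hinj hne).2
    rw [(reml_ne hne).2.2.2] at this k2
    have e1 : ¬ pos y < pos r := not_lt_of_gt k1
    have e3 : ¬ pos y < pos m := by omega
    simp only [e1, k2, e3, false_iff, not_true_eq_false] at this
    refine ⟨⟨by omega, ?_⟩, (reml_ne hne).2.1⟩
    by_contra hc
    exact this hc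
  · rintro ⟨⟨k1, k2⟩, y2⟩
    have y1 : y ≠ l := by rintro rfl; omega
    have y3 : y ≠ m := by rintro rfl; exact lt_irrefl _ k1
    have hy : θ y ≠ y := fun e => by rw [e] at k2; exact lt_asymm k1 k2
    have hne : reml θ l r y ≠ y := by rw [reml_other y1 y2]; exact hy
    have := (hi.str h hinj hne).2
    rw [(reml_ne hne).2.2.2] at this
    rw [addl_other _ y1 y3, (reml_ne hne).2.2.2]
    have e1 : ¬ pos y < pos m := not_lt_of_gt k1
    have e2 : pos (θ y) < pos r := by omega
    have e3 : pos y ≠ pos r := fun e => y2 (hinj _ _ hy (Or.inl hr) e)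
    simp only [e1, k2, e2, false_iff, not_true_eq_false, iff_true, iff_false] at this
    exact ⟨by omega, e2⟩

/-- the links around the new mark `l` -/
lemma Inm.RtL (hinj : ∀ x y, θ x ≠ x → (θ y ≠ y ∨ y = m) → pos x = pos y → x = y) (y : α) :
    Rt pos (addl (reml θ l r) m r) l y ↔ Rt pos θ m y ∧ y ≠ r := by
  have b1 := hi.lm
  have b2 := hi.mr
  have hl : θ l ≠ l := by
    rw [hi.lr]; rintro rfl; exact lt_asymm hi.lm hi.mr
  unfold Rt
  constructor
  · rintro ⟨k1, k2⟩
    have y1 : y ≠ m := by
      rintro rfl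
      rw [addl_left] at k2
      omega
    have y2 : y ≠ r := by
      rintro rfl
      rw [addl_right] at k2
      omega
    rw [addl_other _ y1 y2] at k2
    have hne : reml θ l r y ≠ y := fun e => by rw [e] at k2; exact lt_asymm k1 k2
    have := (hi.str h hinj hne).1
    rw [(reml_ne hne).2.2.2] at this k2
    have e1 : ¬ pos y < pos l := not_lt_of_gt k1
    have e2 : pos (θ y) < pos m := by omega
    simp only [e1, k2, e2, false_iff, not_true_eq_false, iff_true] at this
    have hy : θ y ≠ y := (reml_ne hne).2.2.1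
    have e3 : pos y ≠ pos m := fun e => y1 (hinj _ _ hy (Or.inr rfl) e)
    exact ⟨⟨by omega, e2⟩, y2⟩
  · rintro ⟨⟨k1, k2⟩, y2⟩
    have y1 : y ≠ l := by rintro rfl; omega
    have y3 : y ≠ m := by rintro rfl; exact lt_irrefl _ k1
    have hy : θ y ≠ y := fun e => by rw [e] at k2; exact lt_asymm k1 k2
    have hne : reml θ l r y ≠ y := by rw [reml_other y1 y2]; exact hy
    have := (hi.str h hinj hne).1
    rw [(reml_ne hne).2.2.2] at this
    rw [addl_other _ y3 y2, (reml_ne hne).2.2.2]
    have e1 : ¬ pos y < pos m := not_lt_of_gt k1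
    have e2 : ¬ pos y < pos l := by omega
    simp only [e1, k2, e2, false_iff, not_true_eq_false, iff_false, not_not] at this
    exact ⟨by omega, this⟩

end step

end Pool.Agent.H73.W
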