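import Pool.Agent.H99.W.Block

set_option autoImplicit false

/-! # Strands in a subgraph

`sub_reach`: a strand of a subgraph both ends of which are ends of the whole graph is a strand of the
whole graph. -/

namespace Pool.Agent.H73.W

open SimpleGraph Pool.Agent.H99.W

variable {α : Type*} {G G' : SimpleGraph α}

lemma IsEnd.of_le (hle : G ≤ G') {a : α} (h : IsEnd G' a) : IsEnd G a :=
  fun x y hx hy => h x y (hle hx) (hle hy)

lemma Deg2.of_le (hle : G ≤ G') (h : Deg2 G') : Deg2 G :=
  fun v a b c ha hb hc => h v a b c (hle ha) (hle hb) (hle hc)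

/-- both ends of a nontrivial walk have a neighbour -/
lemma nbr_both {a b : α} (h : G.Reachable a b) (hne : a ≠ b) :
    (∃ x, G.Adj a x) ∧ ∃ x, G.Adj b x := by
  constructor
  · obtain ⟨p⟩ := h
    cases p with
    | nil => exact absurd rfl hne
    | cons h _ => exact ⟨_, h⟩
  · obtain ⟨p⟩ := h.symm
    cases p with
    | nil => exact absurd rfl hne
    | cons h _ => exact ⟨_, h⟩

/-- a component of the subgraph between two ends of the whole graph is closed -/
theorem sub_reach (hd : Deg2 G') (hle : G ≤ G') {a b : α} (ha : IsEnd G' a) (hb : IsEnd G' b)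
    (hab : G.Reachable a b) (hne : a ≠ b) {y : α} : G'.Reachable a y ↔ G.Reachable a y := by
  constructor
  · rintro ⟨p⟩
    have hna := nbr_both hab hne
    have key : ∀ (u v : α) (p : G'.Walk u v), G.Reachable a u → G.Reachable a v := by
      intro u v p
      induction p with
      | nil => exact id
      | @cons u v w h _ ih =>
        intro hu
        apply ih
        -- `u ~ v` is an edge of the subgraph
        by_cases hend : IsEnd G u
        · have hu' : IsEnd G' u ∧ ∃ x, G.Adj u x := by
            rcases ends_two (Deg2.of_le hle hd) (IsEnd.of_le hle ha) (IsEnd.of_le hle hb) hend hab hu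
              hne with rfl | rfl
            · exact ⟨ha, hna.1⟩
            · exact ⟨hb, hna.2⟩
          obtain ⟨h1, x, hx⟩ := hu'
          have := h1 v x h (hle hx)
          exact hu.trans (this ▸ hx.reachable)
        · unfold IsEnd at hend
          push Not at hend
          obtain ⟨x, x', hx, hx', hxx⟩ := hend
          rcases hd u v x x' h (hle hx) (hle hx') with h1 | h1 | h1
          · exact hu.trans (h1 ▸ hx.reachable)
          · exact hu.trans (h1 ▸ hx'.reachable)
          · exact absurd h1 hxx
    exact key a y p (Reachable.refl _)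
  · exact fun h => h.mono hle

/-- a component with an explicit path of length two between two ends -/
theorem comp_path2 (hd : Deg2 G) {b v b' : α} (hb : IsEnd G b) (hb' : IsEnd G b')
    (h1 : G.Adj b v) (h2 : G.Adj v b') (hne : b ≠ b') {y : α} (hy : G.Reachable b y) :
    y = b ∨ y = v ∨ y = b' := by
  obtain ⟨p⟩ := hy
  have key : ∀ (u w : α) (p : G.Walk u w), (u = b ∨ u = v ∨ u = b') → (w = b ∨ w = v ∨ w = b') := by
    intro u w p
    induction p with
    | nil => exact id
    | @cons u x w h _ ih =>
      intro hu
      apply ih
      rcases hu with rfl | rfl | rfl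
      · exact Or.inr (Or.inl (hb x v h h1))
      · rcases hd u x b b' h h1.symm h2 with h3 | h3 | h3
        · exact Or.inl h3
        · exact Or.inr (Or.inr h3)
        · exact absurd h3 hne
      · exact Or.inr (Or.inl (hb' x v h h2.symm))
  exact key b y p (Or.inl rfl)

/-- a component which consists of one edge -/
theorem comp_path1 {b b' : α} (hb : IsEnd G b) (hb' : IsEnd G b') (h1 : G.Adj b b') {y : α}
    (hy : G.Reachable b y) : y = b ∨ y = b' := by
  obtain ⟨p⟩ := hy
  have key : ∀ (u w : α) (p : G.Walk u w), (u = b ∨ u = b') → (w = b ∨ w = b') := by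
    intro u w p
    induction p with
    | nil => exact id
    | @cons u x w h _ ih =>
      intro hu
      apply ih
      rcases hu with rfl | rfl
      · exact Or.inr (hb x b' h h1)
      · exact Or.inl (hb' x b h h1.symm)
  exact key b y p (Or.inl rfl)

end Pool.Agent.H73.W
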